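import Pool.Agent.TWC.Defs

/-!
CH.  Tools for chains.

dd_dd: `a ↦ dd (dd a)` is additive; `dd (dd (a * b)) = a dd² b + 2 (dd a)(dd b) + b dd² a`, the middle
term is `0` in characteristic 2 (`CharTwo.two_eq_zero`, `CharTwo.add_self_eq_zero`); induction
(`MvPolynomial.induction_on`): constants `dd (C a) = 0`, `dd (dd (X x)) = dd 1 = 0`.
dd_mem: `Submodule.span_induction`; `dd_mon`; `T.erase x ⊆ T` keeps `InjOn`, cardinality `m`.
gg_mem': `gg_mon`; the flip keeps `InjOn fst` and the cardinality.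
chA, chB: exactly the statements `hA`, `hB` in the proof of `A4` (`Pool/Agent/TWB/A4.lean`), copy.
chC: `C ∈ Sp (Good (N + 2))`: `dd C ∈ Sp (Good (N + 1))` (dd_mem), with `N = t + 1`
`P N (dd C) = U t (dd (dd C)) = U t 0 = 0` by chA and dd_dd.
flp_inj, flp_flp, PosR_flp: `uu v (x.1, !x.2) = - uu v x`, so `z ∘ flip` is a relation on `flp T`
(compare `UpR_flip` in A2.lean).
-/

set_option autoImplicit false

namespace Pool.Agent.TWC

open Pool.Agent.TWB

private theorem ch_add_self {σ : Type*} (a : MvPolynomial σ (ZMod 2)) : a + a = 0 := by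
  have h1 : a + a = (2 : ZMod 2) • a := by
    rw [two_smul]
  have h2 : (2 : ZMod 2) = 0 := by decide
  rw [h1, h2, zero_smul]

theorem dd_dd {σ : Type*} (a : MvPolynomial σ (ZMod 2)) : dd (dd a) = 0 := by
  induction a using MvPolynomial.induction_on with
  | C r =>
    have h2 : (dd (MvPolynomial.C r) : MvPolynomial σ (ZMod 2)) = 0 := by
      have := Derivation.map_algebraMap (dd (σ := σ)) r
      rwa [MvPolynomial.algebraMap_eq] at this
    rw [h2, map_zero]
  | add p q hp hq => rw [map_add, map_add, hp, hq, add_zero]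
  | mul_X p n hp =>
    have h2 : (dd (MvPolynomial.X n) : MvPolynomial σ (ZMod 2)) = 1 := by
      unfold dd
      rw [MvPolynomial.mkDerivation_X]
    have h3 : (dd (1 : MvPolynomial σ (ZMod 2))) = 0 := Derivation.map_one_eq_zero _
    rw [Derivation.leibniz, map_add, h2, smul_eq_mul, smul_eq_mul, mul_one, Derivation.leibniz, hp, h2,
      smul_zero, zero_add, smul_eq_mul, mul_one]
    exact ch_add_self _

private theorem ch_Sp_dd {σ : Type*} [DecidableEq σ] {P Q : Finset σ → Prop}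
    (h : ∀ T, P T → ∀ x ∈ T, Q (T.erase x)) {a : MvPolynomial σ (ZMod 2)} (ha : a ∈ Sp P) :
    dd a ∈ Sp Q := by
  have h1 : Sp P ≤ (Sp Q).comap (dd (σ := σ)).toLinearMap := by
    unfold Sp
    rw [Submodule.span_le]
    rintro m ⟨T, hT, rfl⟩
    rw [SetLike.mem_coe, Submodule.mem_comap]
    show dd (mon T) ∈ _
    rw [dd_mon]
    exact Submodule.sum_mem _ fun x hx => mon_mem (h T hT x hx)
  exact h1 ha

theorem dd_mem {α : Type*} [DecidableEq α] (m : ℕ) {C : MvPolynomial (α × Bool) (ZMod 2)}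
    (hC : C ∈ Sp (Good (α := α) (m + 1))) : dd C ∈ Sp (Good (α := α) m) := by
  refine ch_Sp_dd ?_ hC
  intro T hT x hx
  refine ⟨hT.1.mono ?_, ?_⟩
  · intro y hy
    exact Finset.mem_coe.2 (Finset.mem_of_mem_erase (Finset.mem_coe.1 hy))
  · rw [Finset.card_erase_of_mem hx, hT.2]
    rfl

theorem flp_flp {α : Type*} [DecidableEq α] (T : Finset (α × Bool)) : flp (flp T) = T := by
  unfold flp
  rw [Finset.image_image]
  have h1 : ((fun x : α × Bool => (x.1, !x.2)) ∘ fun x : α × Bool => (x.1, !x.2)) = id := by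
    funext x
    simp
  rw [h1, Finset.image_id]

theorem mem_flp {α : Type*} [DecidableEq α] (T : Finset (α × Bool)) (x : α × Bool) :
    x ∈ flp T ↔ (x.1, !x.2) ∈ T := by
  unfold flp
  rw [Finset.mem_image]
  constructor
  · rintro ⟨y, hy, rfl⟩
    simpa using hy
  · intro h
    exact ⟨_, h, by simp⟩

private theorem ch_good_flp {α : Type*} [DecidableEq α] (m : ℕ) {T : Finset (α × Bool)}
    (hT : Good m T) : Good m (T.image (fun x => (x.1, !x.2))) := by
  refine ⟨?_, ?_⟩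
  · intro x hx y hy hxy
    rw [Finset.mem_coe, Finset.mem_image] at hx hy
    obtain ⟨x', hx', rfl⟩ := hx
    obtain ⟨y', hy', rfl⟩ := hy
    have := hT.1 hx' hy' hxy
    rw [this]
  · rw [Finset.card_image_of_injective _ _, hT.2]
    rintro ⟨x1, x2⟩ ⟨y1, y2⟩ hxy
    simp only [Prod.mk.injEq, Bool.not_inj_iff] at hxy
    exact Prod.ext hxy.1 hxy.2

theorem gg_mem' {α : Type*} [DecidableEq α] (m : ℕ) {C : MvPolynomial (α × Bool) (ZMod 2)}
    (hC : C ∈ Sp (Good (α := α) m)) : gg C ∈ Sp (Good (α := α) m) := by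
  refine Sp_mono ?_ (gg_mem hC)
  rintro T ⟨T', hT', rfl⟩
  exact ch_good_flp m hT'

theorem chA {α : Type*} [Fintype α] [DecidableEq α] {N : ℕ} (v : α → Fin N → ℝ)
    (hv : GenOn v Finset.univ) (t : ℕ)
    (P U : MvPolynomial (α × Bool) (ZMod 2) →ₗ[ZMod 2] ZMod 2)
    (hP : ∀ T, P (mon T) = @ite _ (PosR (uu v) (t + 1) T) (Classical.dec _) 1 0)
    (hU : ∀ T, U (mon T) = @ite _ (UpR (uu v) t T) (Classical.dec _) 1 0)
    (ht : t + 1 ≤ N) (C : MvPolynomial (α × Bool) (ZMod 2)) (hC : C ∈ Sp (Good (t + 2))) :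
    P C = U (dd C) := by
  classical
  refine Sp_congr P (U.comp (dd (σ := α × Bool)).toLinearMap) ?_ hC
  intro T hT
  show P (mon T) = U (dd (mon T))
  rw [hP, dd_mon, map_sum]
  have h1 := A1 (uu v) T t ht (Gen_good v hv T hT.1) hT.2
  rw [Finset.sum_congr rfl fun x _ => hU (T.erase x)]
  convert h1 using 2

theorem chB {α : Type*} [Fintype α] [DecidableEq α] {N : ℕ} (v : α → Fin N → ℝ)
    (hv : GenOn v Finset.univ) (t : ℕ)
    (P U : MvPolynomial (α × Bool) (ZMod 2) →ₗ[ZMod 2] ZMod 2)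
    (hP : ∀ T, P (mon T) = @ite _ (PosR (uu v) t T) (Classical.dec _) 1 0)
    (hU : ∀ T, U (mon T) = @ite _ (UpR (uu v) t T) (Classical.dec _) 1 0)
    (ht : t < N) (C : MvPolynomial (α × Bool) (ZMod 2)) (hC : C ∈ Sp (Good (t + 1))) :
    U (C + gg C) = P C := by
  classical
  refine Sp_congr (U.comp (LinearMap.id + (gg (α := α)).toLinearMap)) P ?_ hC
  intro T hT
  show U (mon T + gg (mon T)) = P (mon T)
  rw [map_add, gg_mon, hU, hU, hP]
  have h1 := A2 (uu v) T t ht (Gen_good v hv T hT.1) hT.2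
  simp only [UpR_flip]
  convert h1 using 2

theorem chC {α : Type*} [Fintype α] [DecidableEq α] {N : ℕ} (v : α → Fin N → ℝ)
    (hv : GenOn v Finset.univ) (hN : 1 ≤ N)
    (P : MvPolynomial (α × Bool) (ZMod 2) →ₗ[ZMod 2] ZMod 2)
    (hP : ∀ T, P (mon T) = @ite _ (PosR (uu v) N T) (Classical.dec _) 1 0)
    (C : MvPolynomial (α × Bool) (ZMod 2)) (hC : C ∈ Sp (Good (N + 2))) :
    P (dd C) = 0 := by
  classical
  obtain ⟨t, rfl⟩ : ∃ t, N = t + 1 := ⟨N - 1, by omega⟩
  obtain ⟨U, hU⟩ := ext_lin (σ := α × Bool)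
    (fun T => @ite _ (UpR (uu v) t T) (Classical.dec _) (1 : ZMod 2) 0)
  rw [chA v hv t P U hP hU le_rfl (dd C) (dd_mem (t + 2) hC), dd_dd, map_zero]

theorem PosR_flp {α : Type*} [DecidableEq α] {N : ℕ} (v : α → Fin N → ℝ) (t : ℕ)
    (T : Finset (α × Bool)) : PosR (uu v) t (flp T) ↔ PosR (uu v) t T := by
  have hinj : Function.Injective (fun x : α × Bool => (x.1, !x.2)) := by
    rintro ⟨x1, x2⟩ ⟨y1, y2⟩ hxy
    simp only [Prod.mk.injEq, Bool.not_inj_iff] at hxy
    exact Prod.ext hxy.1 hxy.2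
  have huu : ∀ (x : α × Bool) (i : Fin N), uu v (x.1, !x.2) i = -(uu v x i) := by
    rintro ⟨x1, x2⟩ i
    unfold uu sg
    cases x2 <;> simp
  have main : ∀ S : Finset (α × Bool), PosR (uu v) t S → PosR (uu v) t (flp S) := by
    rintro S ⟨z, hz, hr⟩
    refine ⟨fun x => z (x.1, !x.2), ?_, ?_⟩
    · intro x hx
      exact hz _ ((mem_flp S x).1 hx)
    · intro i hi
      unfold flp
      rw [Finset.sum_image (fun x _ y _ h => hinj h)]
      have h1 := hr i hi
      rw [← neg_eq_zero, ← Finset.sum_neg_distrib]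
      rw [← h1]
      refine Finset.sum_congr rfl fun x _ => ?_
      simp only [Bool.not_not, Prod.mk.eta]
      rw [huu]
      ring
  constructor
  · intro h
    have := main _ h
    rwa [flp_flp] at this
  · exact main T

end Pool.Agent.TWC
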