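import Pool.Agent.TWB.A4

/-!
# TWC: 2-bisections, at most one hard circuit of length 1 mod 4 in every piece
(MP_be493c_co, architect helper87; continues `Pool/Agent/TWB` by helper71).

Goal (SOLV1): `Solv k` if at most one `k i` is even (any number of circuits).

Definitions of the windows of one circuit `i` (`y_j = x_j^+ + x_j^-`).
-/

set_option autoImplicit false

namespace Pool.Agent.TWC

open Pool.Agent.TWB

/-- the window `p, p+1, ..., p+m-1` of circuit `i` with free signs -/
noncomputable def Wn {ι : Type*} (k : ι → ℕ) (i : ι) (p : ZMod (2 * k i + 1)) (m : ℕ) :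
    MvPolynomial (Vx k × Bool) (ZMod 2) :=
  ∏ t ∈ Finset.range m, (xx k i (p + (t : ZMod (2 * k i + 1))) true
    + xx k i (p + (t : ZMod (2 * k i + 1))) false)

/-- the first half of the window `p, ..., p+m`: sign `+` at the last element `p + m` -/
noncomputable def Hw {ι : Type*} (k : ι → ℕ) (i : ι) (p : ZMod (2 * k i + 1)) (m : ℕ) :
    MvPolynomial (Vx k × Bool) (ZMod 2) :=
  Wn k i p m * xx k i (p + (m : ZMod (2 * k i + 1))) true

/-- all full arcs `p, ..., p + k i` of circuit `i` (opposite signs at the ends), `k i = m + 1` -/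
noncomputable def Ar {ι : Type*} (k : ι → ℕ) (i : ι) (p : ZMod (2 * k i + 1)) (m : ℕ) :
    MvPolynomial (Vx k × Bool) (ZMod 2) :=
  xx k i p true * (Wn k i (p + 1) m * xx k i (p + 1 + (m : ZMod (2 * k i + 1))) false)
    + xx k i p false * (Wn k i (p + 1) m * xx k i (p + 1 + (m : ZMod (2 * k i + 1))) true)

/-- the antipodal map on sets of signed vertices -/
def flp {α : Type*} [DecidableEq α] (T : Finset (α × Bool)) : Finset (α × Bool) :=
  T.image (fun x => (x.1, !x.2))

/-- `T` uses every unsigned vertex at most once and has `m` elements -/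
def Good {α : Type*} (m : ℕ) (T : Finset (α × Bool)) : Prop :=
  Set.InjOn Prod.fst (T : Set (α × Bool)) ∧ T.card = m

/-! ## public copies of auxiliary lemmas of `Pool/Agent/TWB/A4.lean` -/

theorem add_self {σ : Type*} (a : MvPolynomial σ (ZMod 2)) : a + a = 0 := by
  have h1 : a + a = (2 : ZMod 2) • a := by
    rw [two_smul]
  have h2 : (2 : ZMod 2) = 0 := by decide
  rw [h1, h2, zero_smul]

theorem ids {ι : Type*} (k : ι → ℕ) (i : ι) :
    dd (hh (xx k i) 0) = 1 ∧
      (∀ l, dd (hh (xx k i) (l + 1)) = hh (xx k i) l + gg (hh (xx k i) l)) ∧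
      dd (ZZ k i) = 0 ∧ gg (ZZ k i) = ZZ k i := by
  have h := IDS (R := MvPolynomial (Vx k × Bool) (ZMod 2)) add_self
    (gg (α := Vx k)).toRingHom (dd (σ := Vx k × Bool)).toLinearMap.toAddMonoidHom
    (fun a b => by
      show dd (a * b) = a * dd b + b * dd a
      rw [Derivation.leibniz, smul_eq_mul, smul_eq_mul])
    (fun a => gg_gg a) (fun a => dd_gg a) (n := 2 * k i + 1) (by omega) (xx k i)
    (fun j b => by
      show dd (MvPolynomial.X ((⟨i, j⟩ : Vx k), b)) = 1
      unfold dd
      rw [MvPolynomial.mkDerivation_X])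
    (fun j b => by
      show gg (MvPolynomial.X ((⟨i, j⟩ : Vx k), b)) = MvPolynomial.X ((⟨i, j⟩ : Vx k), !b)
      unfold gg
      rw [MvPolynomial.rename_X])
  exact ⟨h.1, h.2.1, h.2.2.1 (k i), h.2.2.2 (k i)⟩

theorem dZ {ι : Type*} [DecidableEq ι] (k : ι → ℕ) (S : Finset ι) :
    dd (∏ j ∈ S, ZZ k j) = 0 := by
  induction S using Finset.induction_on with
  | empty =>
    rw [Finset.prod_empty]
    exact Derivation.map_one_eq_zero _
  | insert j S hj ih =>
    rw [Finset.prod_insert hj, Derivation.leibniz, ih, (ids k j).2.2.1]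
    simp

theorem gZ {ι : Type*} [DecidableEq ι] (k : ι → ℕ) (S : Finset ι) :
    gg (∏ j ∈ S, ZZ k j) = ∏ j ∈ S, ZZ k j := by
  rw [map_prod]
  exact Finset.prod_congr rfl fun j _ => (ids k j).2.2.2


end Pool.Agent.TWC
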