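import Pool.Agent.TWC.IND
import Pool.Agent.TWC.HAL3
import Pool.Agent.TWB.HALL

/-!
ENDS.  Which end edges occur in the relations.  `W` is a configuration with rows `Q ⊕ Fin (g + 1)` such
that matched sets are independent (conclusion of `GWS`); `em : Q ⊕ Fin g → Q ⊕ Fin (g + 1)` the
embedding which misses the last row.

EN3: suppose at least three circuits do not have both ends positive.  `X` = the finset of the
`⟨i, p i + t⟩`, `t ≤ k i`, with `0 < z i t` (filter of univ, as in `t2_ends`, `Pool/Agent/TWB/T2.lean`);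
nonempty.  `HAL3` gives `φ : Vx k → Q ⊕ Fin g`, `em ∘ φ` is injective on `X` and adapted
(`em (inl q) = inl q`), `hW` for `em ∘ φ`; `IND` with `c = z`: the relations are only needed in the rows
`em (φ e')`; so `z = 0`, contradiction to `hne`.
EN2: let `X` = the finset of the `⟨i, p i + t⟩`, `t ≤ k i`, with `0 < z i t + z' i t`, and suppose
the circuit `i₀` has an end with `z + z' = 0`.  `HALL` (with `g + 1`, number of fixed points `0`:
`card ι + 0 = 2 (g + 1 + 1)`) gives `φ`.  Let `ℓ`, `ℓ'` be the values of the two sums in the last row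
`inr (Fin.last g)`.  `c = ℓ' z - ℓ z'` has all rows zero (rows in the range of `em`: both relations; last
row: `ℓ' ℓ - ℓ ℓ' = 0`; every row of `Q ⊕ Fin (g+1)` is `em r` or the last one: `Fin.lastCases`), so
`IND` gives `ℓ' * z i t = ℓ * z' i t` for all `t ≤ k i`.
`ℓ ≠ 0`: otherwise `z` is a relation in all rows and `IND` (with the same `X`) gives `z = 0`,
contradiction.  `ℓ' ≠ 0` in the same way.  So `z i t = 0 ↔ z' i t = 0`, against `hdiff`.
-/

set_option autoImplicit false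

namespace Pool.Agent.TWC

open Pool.Agent.TWB

/-- the embedding of the rows which misses the last row -/
def em {Q : Type*} {g : ℕ} : Q ⊕ Fin g → Q ⊕ Fin (g + 1) := Sum.map id Fin.castSucc

private theorem exX {ι : Type*} [Fintype ι] [DecidableEq ι] (k : ι → ℕ)
    (p : ∀ i, ZMod (2 * k i + 1)) (u : ι → ℕ → ℝ) :
    ∃ X : Finset (Vx k), (∀ e ∈ X, ∃ t : ℕ, t ≤ k e.1 ∧
      e.2 = p e.1 + (t : ZMod (2 * k e.1 + 1))) ∧
      ∀ (i : ι) (t : ℕ), t ≤ k i →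
        ((⟨i, p i + (t : ZMod (2 * k i + 1))⟩ : Vx k) ∈ X ↔ 0 < u i t) := by
  classical
  set X : Finset (Vx k) := Finset.univ.filter (fun e : Vx k => ∃ t : ℕ, t ≤ k e.1 ∧
    e.2 = p e.1 + (t : ZMod (2 * k e.1 + 1)) ∧ 0 < u e.1 t) with hX
  have hmem : ∀ e : Vx k, e ∈ X ↔ ∃ t : ℕ, t ≤ k e.1 ∧
    e.2 = p e.1 + (t : ZMod (2 * k e.1 + 1)) ∧ 0 < u e.1 t := by
    intro e
    rw [hX, Finset.mem_filter]
    exact ⟨fun h => h.2, fun h => ⟨Finset.mem_univ _, h⟩⟩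
  refine ⟨X, fun e he => ?_, fun i t ht => ?_⟩
  · obtain ⟨t, h1, h2, _⟩ := (hmem e).1 he
    exact ⟨t, h1, h2⟩
  · rw [hmem]
    constructor
    · rintro ⟨t', ht', h1, h2⟩
      have := add_inj (k i) (p i) t t' ht ht' h1
      subst this
      exact h2
    · intro h
      exact ⟨t, ht, rfl, h⟩

private theorem end_zero {ι : Type*} [Fintype ι] [DecidableEq ι] (k : ι → ℕ)
    (p : ∀ i, ZMod (2 * k i + 1)) (u : ι → ℕ → ℝ) (X : Finset (Vx k))
    (hX : ∀ (i : ι) (t : ℕ), t ≤ k i →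
        ((⟨i, p i + (t : ZMod (2 * k i + 1))⟩ : Vx k) ∈ X ↔ 0 < u i t)) (i : ι)
    (h : ¬ (0 < u i 0 ∧ 0 < u i (k i))) :
    (⟨i, p i⟩ : Vx k) ∉ X ∨ (⟨i, p i + (k i : ZMod (2 * k i + 1))⟩ : Vx k) ∉ X := by
  by_cases h0 : 0 < u i 0
  · right
    intro h1
    exact h ⟨h0, (hX i (k i) le_rfl).1 h1⟩
  · left
    intro h1
    apply h0
    apply (hX i 0 (Nat.zero_le _)).1
    have : p i + ((0 : ℕ) : ZMod (2 * k i + 1)) = p i := by
      rw [Nat.cast_zero, add_zero]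
    rw [this]
    exact h1

theorem EN3 {ι : Type*} [Fintype ι] [DecidableEq ι] (k : ι → ℕ) (hk : ∀ i, 1 ≤ k i)
    (τ : Vx k → Vx k) (hτ : ∀ v, τ (τ v) = v) (hf : ∀ v, τ v ≠ v)
    {Q : Type*} [Fintype Q] [DecidableEq Q]
    (o : Vx k → Option Q) (ho1 : ∀ v, o v = none ↔ τ v = v)
    (ho2 : ∀ v w, τ v ≠ v → (o w = o v ↔ w = v ∨ w = τ v))
    (g : ℕ) (hg : Fintype.card ι = 2 * (g + 2)) (W : Vx k → Q ⊕ Fin (g + 1) → ℝ)
    (hW : ∀ (X : Finset (Vx k)) (φ : Vx k → Q ⊕ Fin (g + 1)), Set.InjOn φ (X : Set (Vx k)) →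
      (∀ e ∈ X, ∀ q, φ e = Sum.inl q → o (hd e) = some q ∨ o (tl e) = some q) →
      ∀ y : Vx k → ℝ, (∀ e' ∈ X, ∑ e ∈ X, y e * W e (φ e') = 0) → ∀ e ∈ X, y e = 0)
    (p : ∀ i, ZMod (2 * k i + 1)) (s : ι → ℕ → Bool)
    (z : ι → ℕ → ℝ) (hz : ∀ i t, 0 ≤ z i t) (hne : ∃ i, ∃ t ≤ k i, z i t ≠ 0)
    (hrel : ∀ r : Q ⊕ Fin g, ∑ i, ∑ t ∈ Finset.range (k i + 1),
      sg (s i t) * z i t * W ⟨i, p i + (t : ZMod (2 * k i + 1))⟩ (em r) = 0) :
    (Finset.univ.filter (fun i => ¬ (0 < z i 0 ∧ 0 < z i (k i)))).card ≤ 2 := by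
  classical
  by_contra hcon
  rw [not_le] at hcon
  obtain ⟨X, hX1, hX2⟩ := exX k p z
  have hpos : ∀ i t, z i t ≠ 0 → 0 < z i t := fun i t h => lt_of_le_of_ne (hz i t) (Ne.symm h)
  have hXne : X.Nonempty := by
    obtain ⟨i, t, ht, h⟩ := hne
    exact ⟨_, (hX2 i t ht).2 (hpos i t h)⟩
  obtain ⟨φ, hφ1, hφ2⟩ := HAL3 k hk τ hτ hf o ho1 ho2 g hg p X hXne hX1
    (Finset.univ.filter (fun i => ¬ (0 < z i 0 ∧ 0 < z i (k i)))) hcon
    (fun i hi => end_zero k p z X hX2 i (Finset.mem_filter.1 hi).2)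
  have hem : Function.Injective (em : Q ⊕ Fin g → Q ⊕ Fin (g + 1)) :=
    Sum.map_injective.2 ⟨Function.injective_id, Fin.castSucc_injective g⟩
  have hind := hW X (em ∘ φ) (fun a ha b hb hab => hφ1 ha hb (hem hab)) (by
    intro e he q hq
    apply hφ2 e he q
    change em (φ e) = Sum.inl q at hq
    rcases h : φ e with q' | j
    · rw [h] at hq
      simp only [em, Sum.map_inl, id_eq] at hq
      rw [Sum.inl.inj hq]
    · rw [h] at hq
      simp [em] at hq)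
  have h0 := IND k p s W X (em ∘ φ) hind z (fun i t ht h => (hX2 i t ht).2 (hpos i t h))
    (fun e' _ => hrel (φ e'))
  obtain ⟨i, t, ht, h⟩ := hne
  exact h (h0 i t ht)

theorem EN2 {ι : Type*} [Fintype ι] [DecidableEq ι] (k : ι → ℕ) (hk : ∀ i, 1 ≤ k i)
    (τ : Vx k → Vx k) (hτ : ∀ v, τ (τ v) = v) (hf : ∀ v, τ v ≠ v)
    {Q : Type*} [Fintype Q] [DecidableEq Q]
    (o : Vx k → Option Q) (ho1 : ∀ v, o v = none ↔ τ v = v)
    (ho2 : ∀ v w, τ v ≠ v → (o w = o v ↔ w = v ∨ w = τ v))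
    (g : ℕ) (hg : Fintype.card ι = 2 * (g + 2)) (W : Vx k → Q ⊕ Fin (g + 1) → ℝ)
    (hW : ∀ (X : Finset (Vx k)) (φ : Vx k → Q ⊕ Fin (g + 1)), Set.InjOn φ (X : Set (Vx k)) →
      (∀ e ∈ X, ∀ q, φ e = Sum.inl q → o (hd e) = some q ∨ o (tl e) = some q) →
      ∀ y : Vx k → ℝ, (∀ e' ∈ X, ∑ e ∈ X, y e * W e (φ e') = 0) → ∀ e ∈ X, y e = 0)
    (p : ∀ i, ZMod (2 * k i + 1)) (s : ι → ℕ → Bool)
    (z z' : ι → ℕ → ℝ) (hz : ∀ i t, 0 ≤ z i t) (hz' : ∀ i t, 0 ≤ z' i t)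
    (hne : ∃ i, ∃ t ≤ k i, z i t ≠ 0) (hne' : ∃ i, ∃ t ≤ k i, z' i t ≠ 0)
    (hdiff : ∃ i, ∃ t ≤ k i, (z i t = 0 ∧ z' i t ≠ 0) ∨ (z i t ≠ 0 ∧ z' i t = 0))
    (hrel : ∀ r : Q ⊕ Fin g, ∑ i, ∑ t ∈ Finset.range (k i + 1),
      sg (s i t) * z i t * W ⟨i, p i + (t : ZMod (2 * k i + 1))⟩ (em r) = 0)
    (hrel' : ∀ r : Q ⊕ Fin g, ∑ i, ∑ t ∈ Finset.range (k i + 1),
      sg (s i t) * z' i t * W ⟨i, p i + (t : ZMod (2 * k i + 1))⟩ (em r) = 0) :
    ∀ i, 0 < z i 0 + z' i 0 ∧ 0 < z i (k i) + z' i (k i) := by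
  classical
  intro i₀
  by_contra hcon
  obtain ⟨X, hX1, hX2⟩ := exX k p (fun i t => z i t + z' i t)
  have hpos : ∀ i t, z i t ≠ 0 → 0 < z i t + z' i t := fun i t h =>
    add_pos_of_pos_of_nonneg (lt_of_le_of_ne (hz i t) (Ne.symm h)) (hz' i t)
  have hpos' : ∀ i t, z' i t ≠ 0 → 0 < z i t + z' i t := fun i t h =>
    add_pos_of_nonneg_of_pos (hz i t) (lt_of_le_of_ne (hz' i t) (Ne.symm h))
  have hXne : X.Nonempty := by
    obtain ⟨i, t, ht, h⟩ := hne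
    exact ⟨_, (hX2 i t ht).2 (hpos i t h)⟩
  have hg' : Fintype.card ι + (Finset.univ.filter (fun v : Vx k => τ v = v)).card =
      2 * (g + 1 + 1) := by
    have h1 : Finset.univ.filter (fun v : Vx k => τ v = v) = ∅ := by
      rw [Finset.filter_eq_empty_iff]
      intro v _
      exact hf v
    rw [h1, Finset.card_empty, hg]
    ring
  obtain ⟨φ, hφ1, hφ2⟩ := HALL k hk τ hτ o ho1 ho2 (g + 1) hg' p X hXne hX1 i₀
    (end_zero k p (fun i t => z i t + z' i t) X hX2 i₀ hcon)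
  have hind := hW X φ hφ1 hφ2
  set S : (ι → ℕ → ℝ) → Q ⊕ Fin (g + 1) → ℝ := fun c r =>
    ∑ i, ∑ t ∈ Finset.range (k i + 1),
      sg (s i t) * c i t * W ⟨i, p i + (t : ZMod (2 * k i + 1))⟩ r with hS
  have hlin : ∀ (a b : ℝ) (r : Q ⊕ Fin (g + 1)),
      S (fun i t => a * z i t + b * z' i t) r = a * S z r + b * S z' r := by
    intro a b r
    simp only [hS]
    rw [Finset.mul_sum, Finset.mul_sum, ← Finset.sum_add_distrib]
    refine Finset.sum_congr rfl fun i _ => ?_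
    rw [Finset.mul_sum, Finset.mul_sum, ← Finset.sum_add_distrib]
    refine Finset.sum_congr rfl fun t _ => ?_
    ring
  have hrow : ∀ r : Q ⊕ Fin g, S z (em r) = 0 := hrel
  have hrow' : ∀ r : Q ⊕ Fin g, S z' (em r) = 0 := hrel'
  set ℓ : ℝ := S z (Sum.inr (Fin.last g)) with hℓ
  set ℓ' : ℝ := S z' (Sum.inr (Fin.last g)) with hℓ'
  have hall : ∀ a b : ℝ, a * ℓ + b * ℓ' = 0 → ∀ r : Q ⊕ Fin (g + 1),
      S (fun i t => a * z i t + b * z' i t) r = 0 := by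
    intro a b hab r
    rw [hlin]
    rcases r with q | j
    · have h1 : (Sum.inl q : Q ⊕ Fin (g + 1)) = em (Sum.inl q) := rfl
      rw [h1, hrow, hrow', mul_zero, mul_zero, add_zero]
    · refine Fin.lastCases (motive := fun j => a * S z (Sum.inr j) + b * S z' (Sum.inr j) = 0)
        ?_ ?_ j
      · exact hab
      · intro j'
        have h1 : (Sum.inr j'.castSucc : Q ⊕ Fin (g + 1)) = em (Sum.inr j') := rfl
        rw [h1, hrow, hrow', mul_zero, mul_zero, add_zero]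
  have key : ∀ a b : ℝ, a * ℓ + b * ℓ' = 0 → ∀ i t, t ≤ k i → a * z i t + b * z' i t = 0 := by
    intro a b hab
    refine IND k p s W X φ hind (fun i t => a * z i t + b * z' i t) ?_ ?_
    · intro i t ht h
      apply (hX2 i t ht).2
      by_cases h1 : z i t = 0
      · apply hpos'
        intro h2
        apply h
        simp only [h1, h2, mul_zero, add_zero]
      · exact hpos i t h1
    · intro e' _
      exact hall a b hab (φ e')
  have hℓ0 : ℓ ≠ 0 := by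
    intro h
    obtain ⟨i, t, ht, h1⟩ := hne
    apply h1
    have h2 := key 1 0 (by rw [h]; ring) i t ht
    linarith
  have hℓ0' : ℓ' ≠ 0 := by
    intro h
    obtain ⟨i, t, ht, h1⟩ := hne'
    apply h1
    have h2 := key 0 1 (by rw [h]; ring) i t ht
    linarith
  obtain ⟨i, t, ht, h⟩ := hdiff
  have h2 := key ℓ' (-ℓ) (by ring) i t ht
  rcases h with ⟨h3, h4⟩ | ⟨h3, h4⟩
  · rw [h3, mul_zero, zero_add] at h2
    rcases mul_eq_zero.1 h2 with h5 | h5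
    · exact hℓ0 (neg_eq_zero.1 h5)
    · exact h4 h5
  · rw [h4, mul_zero, add_zero] at h2
    rcases mul_eq_zero.1 h2 with h5 | h5
    · exact hℓ0' h5
    · exact h3 h5

end Pool.Agent.TWC
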