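import Pool.Agent.TWC.Defs

/-!
WIN.  Windows and arcs of one circuit; products with the cycles of other circuits.

Write `y j = xx k i j true + xx k i j false`; `dd (y j) = 1 + 1 = 0`, `gg (y j) = y j`
(`dd (xx ..) = 1`: `MvPolynomial.mkDerivation_X`; `gg (xx k i j b) = xx k i j (!b)`:
`MvPolynomial.rename_X`).
Wn_dd: Leibniz, induction on `m`.  Wn_gg: `map_prod`.
Hw_dd: `dd (Hw k i p (m + 1)) = Wn k i p (m + 1) = Hw k i p m + gg (Hw k i p m)`:
`Wn k i p (m+1) = Wn k i p m * y (p + m)` (`Finset.prod_range_succ`).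
Hw_gg: the same formula.
Ar_dd: with `B = Wn k i (p + 1) m`, `dd B = 0`: `dd` of the first summand is
`B * x_{p+1+m}^- + x_p^+ * B`, of the second `B * x_{p+1+m}^+ + x_p^- * B`; the sum is
`B * y (p+1+m) + y p * B = Wn k i (p + 1) (m + 1) + Wn k i p (m + 1)` (`Finset.prod_range_succ` and
`Finset.prod_range_succ'` with a cast shift `p + ((t + 1 : ℕ)) = p + 1 + t`).
Wn_mem: induction on `m` with `Sp_mul` and `arc_succ` (compare the claim `G r` in ARC.lean: `arc_step`).
ZS_mem': the proof of `ZS_mem` (STR.lean), `hk` is only used for the elements of `S`.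
ZW_mem, ZH_mem: `Sp_mul`, as `mix_mem` (STR.lean), now the part on circuit `i` is `arc k i p m b`
resp. `arc k i p (m + 1) b` with `b m = true` (only needed: `Good` with the right cardinality).
ZW_win: every monomial of `Z_S * Wn` meets circuit `i` only in the window.
ZA_mem: `Ar k i p m ∈ Sp (FullArc k i)` for `k i = m + 1` (each of the two summands is, up to the
order of the factors, the span of the arcs `p, ..., p + m + 1` with signs `b 0 = true`,
`b (m + 1) = false`, resp. opposite; note `p + 1 + m = p + ((m + 1 : ℕ))`), and then as in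
`str_insert`/`last_mem` (STR.lean): `Str k (insert i S)`.
-/

set_option autoImplicit false

namespace Pool.Agent.TWC

open Pool.Agent.TWB

variable {ι : Type*} [DecidableEq ι]

omit [DecidableEq ι] in
private theorem dd_xx (k : ι → ℕ) (i : ι) (j : ZMod (2 * k i + 1)) (b : Bool) :
    dd (xx k i j b) = 1 := by
  unfold dd xx
  rw [MvPolynomial.mkDerivation_X]

omit [DecidableEq ι] in
private theorem gg_xx (k : ι → ℕ) (i : ι) (j : ZMod (2 * k i + 1)) (b : Bool) :
    gg (xx k i j b) = xx k i j (!b) := by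
  unfold gg xx
  rw [MvPolynomial.rename_X]

omit [DecidableEq ι] in
private theorem Wn_zero (k : ι → ℕ) (i : ι) (p : ZMod (2 * k i + 1)) : Wn k i p 0 = 1 := by
  unfold Wn
  rw [Finset.range_zero, Finset.prod_empty]

omit [DecidableEq ι] in
private theorem Wn_succ (k : ι → ℕ) (i : ι) (p : ZMod (2 * k i + 1)) (m : ℕ) :
    Wn k i p (m + 1) = Wn k i p m * (xx k i (p + (m : ZMod (2 * k i + 1))) true
      + xx k i (p + (m : ZMod (2 * k i + 1))) false) := by
  unfold Wn
  rw [Finset.prod_range_succ]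

omit [DecidableEq ι] in
private theorem Wn_succ' (k : ι → ℕ) (i : ι) (p : ZMod (2 * k i + 1)) (m : ℕ) :
    Wn k i p (m + 1) = Wn k i (p + 1) m * (xx k i p true + xx k i p false) := by
  unfold Wn
  rw [Finset.prod_range_succ', Nat.cast_zero, add_zero]
  congr 1
  refine Finset.prod_congr rfl fun t _ => ?_
  have h : p + ((t + 1 : ℕ) : ZMod (2 * k i + 1)) = p + 1 + (t : ZMod (2 * k i + 1)) := by
    push_cast
    ring
  rw [h]

omit [DecidableEq ι] in
theorem Wn_dd (k : ι → ℕ) (i : ι) (p : ZMod (2 * k i + 1)) (m : ℕ) : dd (Wn k i p m) = 0 := by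
  induction m with
  | zero =>
    rw [Wn_zero]
    exact Derivation.map_one_eq_zero _
  | succ m ih =>
    rw [Wn_succ, Derivation.leibniz, ih, map_add, dd_xx, dd_xx, add_self]
    simp

omit [DecidableEq ι] in
theorem Wn_gg (k : ι → ℕ) (i : ι) (p : ZMod (2 * k i + 1)) (m : ℕ) :
    gg (Wn k i p m) = Wn k i p m := by
  unfold Wn
  rw [map_prod]
  refine Finset.prod_congr rfl fun t _ => ?_
  rw [map_add, gg_xx, gg_xx, Bool.not_true, Bool.not_false, add_comm]

omit [DecidableEq ι] in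
theorem Hw_gg (k : ι → ℕ) (i : ι) (p : ZMod (2 * k i + 1)) (m : ℕ) :
    Hw k i p m + gg (Hw k i p m) = Wn k i p (m + 1) := by
  unfold Hw
  rw [map_mul, Wn_gg, gg_xx, Bool.not_true, Wn_succ, mul_add]

omit [DecidableEq ι] in
theorem Hw_dd (k : ι → ℕ) (i : ι) (p : ZMod (2 * k i + 1)) (m : ℕ) :
    dd (Hw k i p m) = Wn k i p m := by
  unfold Hw
  rw [Derivation.leibniz, Wn_dd, dd_xx, smul_zero, add_zero, smul_eq_mul, mul_one]

omit [DecidableEq ι] in
theorem Ar_dd (k : ι → ℕ) (i : ι) (p : ZMod (2 * k i + 1)) (m : ℕ) :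
    dd (Ar k i p m) = Wn k i p (m + 1) + Wn k i (p + 1) (m + 1) := by
  unfold Ar
  rw [map_add, Derivation.leibniz, Derivation.leibniz, Derivation.leibniz, Derivation.leibniz,
    Wn_dd, dd_xx, dd_xx, dd_xx, dd_xx, Wn_succ' k i p m, Wn_succ k i (p + 1) m]
  simp only [smul_eq_mul, mul_one, mul_zero, add_zero]
  ring

private theorem str_ins {k : ι → ℕ} {S : Finset ι} {j : ι} (hj : j ∉ S)
    {T T' : Finset (Vx k × Bool)} (hT : FullArc k j T) (hT' : Str k S T') :
    Str k (insert j S) (T ∪ T') := by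
  obtain ⟨p, b, hb, rfl⟩ := hT
  obtain ⟨p', b', hb', rfl⟩ := hT'
  refine ⟨Function.update p' j p, Function.update b' j b, ?_, ?_⟩
  · intro i hi
    rcases Finset.mem_insert.mp hi with h | h
    · subst h
      rw [Function.update_self]
      exact hb
    · have hij : i ≠ j := fun h' => hj (h' ▸ h)
      rw [Function.update_of_ne hij]
      exact hb' i h
  · rw [Finset.biUnion_insert, Function.update_self, Function.update_self]
    congr 1
    refine Finset.biUnion_congr rfl fun i hi => ?_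
    have hij : i ≠ j := fun h' => hj (h' ▸ hi)
    rw [Function.update_of_ne hij, Function.update_of_ne hij]

theorem ZS_mem' (k : ι → ℕ) (S : Finset ι) (hk : ∀ i ∈ S, k i % 2 = 1) :
    ∏ i ∈ S, ZZ k i ∈ Sp (Str k S) := by
  induction S using Finset.induction_on with
  | empty =>
    rw [Finset.prod_empty]
    have h1 : (1 : MvPolynomial (Vx k × Bool) (ZMod 2)) = mon ∅ := by
      unfold mon
      rw [Finset.prod_empty]
    rw [h1]
    refine mon_mem ⟨fun _ => 0, fun _ _ => true, fun i hi => absurd hi (Finset.notMem_empty i), ?_⟩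
    rw [Finset.biUnion_empty]
  | insert j S hj ih =>
    rw [Finset.prod_insert hj]
    refine Sp_mono ?_ (Sp_mul (P := FullArc k j) (Q := Str k S) ?_
      (ZZ_mem k j (hk j (Finset.mem_insert_self j S)))
      (ih (fun i hi => hk i (Finset.mem_insert_of_mem hi))))
    · rintro U ⟨T, T', hT, hT', rfl⟩
      exact str_ins hj hT hT'
    · rintro T T' ⟨p, b, _, rfl⟩ hT'
      rw [Finset.disjoint_left]
      intro x hx hx'
      have h1 := str_fst hT' hx'
      rw [arc_fst hx] at h1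
      exact hj h1

/-- product with the cycles of the other circuits -/
private theorem mixQ (k : ι → ℕ) (S : Finset ι) (hk : ∀ i ∈ S, k i % 2 = 1) (i : ι) (hi : i ∉ S)
    {Q : Finset (Vx k × Bool) → Prop} (hQ : ∀ T, Q T → ∀ x ∈ T, x.1.1 = i)
    {a : MvPolynomial (Vx k × Bool) (ZMod 2)} (ha : a ∈ Sp Q) :
    (∏ j ∈ S, ZZ k j) * a ∈ Sp (fun U => ∃ T T', Str k S T ∧ Q T' ∧ U = T ∪ T') := by
  refine Sp_mul ?_ (ZS_mem' k S hk) ha
  intro T T' hT hT'
  rw [Finset.disjoint_left]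
  intro x hx hx'
  have h1 := str_fst hT hx
  rw [hQ T' hT' x hx'] at h1
  exact hi h1

private theorem good_union {k : ι → ℕ} {S : Finset ι} {i : ι} (hi : i ∉ S)
    {T : Finset (Vx k × Bool)} (hT : Str k S T) {p : ZMod (2 * k i + 1)} {m : ℕ} {b : ℕ → Bool}
    (hm : m ≤ 2 * k i + 1) : Good ((∑ j ∈ S, (k j + 1)) + m) (T ∪ arc k i p m b) := by
  obtain ⟨h1, h2⟩ := str_good hT
  have hdis : Disjoint T (arc k i p m b) := by
    rw [Finset.disjoint_left]
    intro x hx hx'
    have h3 := str_fst hT hx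
    rw [arc_fst hx'] at h3
    exact hi h3
  constructor
  · rw [Finset.coe_union]
    intro x hx y hy hxy
    rcases hx with hx | hx <;> rcases hy with hy | hy
    · exact h1 hx hy hxy
    · exfalso
      have h3 := str_fst hT (Finset.mem_coe.mp hx)
      have h4 := arc_fst (Finset.mem_coe.mp hy)
      rw [hxy, h4] at h3
      exact hi h3
    · exfalso
      have h3 := str_fst hT (Finset.mem_coe.mp hy)
      have h4 := arc_fst (Finset.mem_coe.mp hx)
      rw [← hxy, h4] at h3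
      exact hi h3
    · exact arc_inj k i p m b hm hx hy hxy
  · rw [Finset.card_union_of_disjoint hdis, h2, arc_card k i p m b hm]

private theorem arc_zero (k : ι → ℕ) (i : ι) (p : ZMod (2 * k i + 1)) (b : ℕ → Bool) :
    arc k i p 0 b = ∅ := by
  ext x
  rw [mem_arc]
  simp

private theorem step_mem {k : ι → ℕ} {i : ι} {p : ZMod (2 * k i + 1)} {r : ℕ}
    (hr : r + 1 ≤ 2 * k i + 1) (c : Bool) {a : MvPolynomial (Vx k × Bool) (ZMod 2)}
    (ha : a ∈ Sp (fun T => ∃ b : ℕ → Bool, T = arc k i p r b)) :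
    a * xx k i (p + (r : ZMod (2 * k i + 1))) c ∈
      Sp (fun T => ∃ b : ℕ → Bool, T = arc k i p (r + 1) b) := by
  refine Sp_mono ?_ (Sp_mul ?_ ha (xx_single k i (p + (r : ZMod (2 * k i + 1))) c
    (Q := fun _ => True) trivial))
  · rintro U ⟨T, T', ⟨b, rfl⟩, ⟨c, hc, rfl⟩, rfl⟩
    refine ⟨Function.update b r c, ?_⟩
    rw [arc_succ k i p r, Function.update_self]
    congr 1
    refine arc_congr k i p r (fun t ht => ?_)
    rw [Function.update_of_ne (by omega)]
  · rintro T T' ⟨b, rfl⟩ ⟨c, hc, rfl⟩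
    rw [Finset.disjoint_singleton_right, mem_arc]
    rintro ⟨t, ht, he⟩
    have := arc_cast_inj (by omega) (by omega) (congrArg Prod.fst he)
    omega

private theorem Wn_mem (k : ι → ℕ) (i : ι) (p : ZMod (2 * k i + 1)) (m : ℕ)
    (hm : m ≤ 2 * k i + 1) : Wn k i p m ∈ Sp (fun T => ∃ b : ℕ → Bool, T = arc k i p m b) := by
  induction m with
  | zero =>
    rw [Wn_zero]
    have h1 : (1 : MvPolynomial (Vx k × Bool) (ZMod 2)) = mon ∅ := by
      unfold mon
      rw [Finset.prod_empty]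
    rw [h1]
    exact mon_mem ⟨fun _ => true, (arc_zero k i p _).symm⟩
  | succ m ih =>
    rw [Wn_succ, mul_add]
    exact Submodule.add_mem _ (step_mem (by omega) true (ih (by omega)))
      (step_mem (by omega) false (ih (by omega)))

private theorem Hw_mem (k : ι → ℕ) (i : ι) (p : ZMod (2 * k i + 1)) (m : ℕ)
    (hm : m ≤ 2 * k i) : Hw k i p m ∈ Sp (fun T => ∃ b : ℕ → Bool, T = arc k i p (m + 1) b) := by
  unfold Hw
  exact step_mem (by omega) true (Wn_mem k i p m (by omega))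

/-- the cycles of other circuits times a partial arc -/
theorem mix_mem' (k : ι → ℕ) (S : Finset ι) (hk : ∀ i ∈ S, k i % 2 = 1) (i : ι) (hi : i ∉ S)
    (l : ℕ) (hl : l ≤ 2 * k i) :
    (∏ j ∈ S, ZZ k j) * hh (xx k i) l ∈ Sp (Good ((∑ j ∈ S, (k j + 1)) + (l + 1))) := by
  refine Sp_mono ?_ (mixQ k S hk i hi ?_ (hh_mem k i l hl))
  · rintro U ⟨T, T', hT, ⟨p, b, _, _, rfl⟩, rfl⟩
    exact good_union hi hT (by omega)
  · rintro T ⟨p, b, _, _, rfl⟩ x hx
    exact arc_fst hx

theorem ZH_mem (k : ι → ℕ) (S : Finset ι) (hk : ∀ i ∈ S, k i % 2 = 1) (i : ι) (hi : i ∉ S)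
    (p : ZMod (2 * k i + 1)) (m : ℕ) (hm : m ≤ 2 * k i) :
    (∏ j ∈ S, ZZ k j) * Hw k i p m ∈ Sp (Good ((∑ j ∈ S, (k j + 1)) + (m + 1))) := by
  refine Sp_mono ?_ (mixQ k S hk i hi ?_ (Hw_mem k i p m hm))
  · rintro U ⟨T, T', hT, ⟨b, rfl⟩, rfl⟩
    exact good_union hi hT (by omega)
  · rintro T ⟨b, rfl⟩ x hx
    exact arc_fst hx

theorem ZW_mem (k : ι → ℕ) (S : Finset ι) (hk : ∀ i ∈ S, k i % 2 = 1) (i : ι) (hi : i ∉ S)
    (p : ZMod (2 * k i + 1)) (m : ℕ) (hm : m ≤ 2 * k i + 1) :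
    (∏ j ∈ S, ZZ k j) * Wn k i p m ∈ Sp (fun T => Good ((∑ j ∈ S, (k j + 1)) + m) T ∧
      ∀ x ∈ T, x.1.1 = i → ∃ t : ℕ, t < m ∧ x.1 = ⟨i, p + (t : ZMod (2 * k i + 1))⟩) := by
  refine Sp_mono ?_ (mixQ k S hk i hi ?_ (Wn_mem k i p m hm))
  · rintro U ⟨T, T', hT, ⟨b, rfl⟩, rfl⟩
    refine ⟨good_union hi hT hm, ?_⟩
    intro x hx hxi
    rcases Finset.mem_union.1 hx with h | h
    · have h1 := str_fst hT h
      rw [hxi] at h1
      exact absurd h1 hi
    · obtain ⟨t, ht, rfl⟩ := mem_arc.1 h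
      exact ⟨t, ht, rfl⟩
  · rintro T ⟨b, rfl⟩ x hx
    exact arc_fst hx

private theorem half_mem (k : ι → ℕ) (i : ι) (p : ZMod (2 * k i + 1)) (m : ℕ) (hm : k i = m + 1) :
    xx k i p true * (Wn k i (p + 1) m * xx k i (p + 1 + (m : ZMod (2 * k i + 1))) false) ∈
      Sp (FullArc k i) := by
  have hidx : ∀ r : ℕ, p + 1 + (r : ZMod (2 * k i + 1))
      = p + ((r + 1 : ℕ) : ZMod (2 * k i + 1)) := by
    intro r
    push_cast
    ring
  have claim : ∀ r, r ≤ m → xx k i p true * Wn k i (p + 1) r ∈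
      Sp (fun T => ∃ b : ℕ → Bool, b 0 = true ∧ T = arc k i p (r + 1) b) := by
    intro r
    induction r with
    | zero =>
      intro _
      rw [Wn_zero, mul_one]
      exact xx_mem k i p
    | succ r ih =>
      intro hr
      rw [Wn_succ, ← mul_assoc]
      refine Sp_mono ?_ (arc_step (by omega) (fun _ => True) (ih (by omega)) ?_)
      · rintro T ⟨b, hb, -, rfl⟩
        exact ⟨b, hb, rfl⟩
      · rw [hidx]
        exact Submodule.add_mem _ (xx_single k i _ true trivial) (xx_single k i _ false trivial)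
  rw [← mul_assoc]
  refine Sp_mono ?_ (arc_step (by omega) (fun c => c = false) (claim m le_rfl)
    (by rw [hidx]; exact xx_single k i _ _ rfl))
  rintro T ⟨b, hb, hb', rfl⟩
  refine ⟨p, b, ?_, ?_⟩
  · rw [hm, hb, hb']
    rfl
  · rw [hm]

private theorem Ar_mem (k : ι → ℕ) (i : ι) (p : ZMod (2 * k i + 1)) (m : ℕ) (hm : k i = m + 1) :
    Ar k i p m ∈ Sp (FullArc k i) := by
  have h1 := half_mem k i p m hm
  have h2 : Ar k i p m =
      xx k i p true * (Wn k i (p + 1) m * xx k i (p + 1 + (m : ZMod (2 * k i + 1))) false) +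
      gg (xx k i p true * (Wn k i (p + 1) m * xx k i (p + 1 + (m : ZMod (2 * k i + 1))) false)) := by
    rw [map_mul, map_mul, Wn_gg, gg_xx, gg_xx]
    rfl
  rw [h2]
  refine Submodule.add_mem _ h1 (Sp_mono ?_ (gg_mem h1))
  rintro T ⟨T', hT', rfl⟩
  exact full_flip hT'

theorem ZA_mem (k : ι → ℕ) (S : Finset ι) (hk : ∀ i ∈ S, k i % 2 = 1) (i : ι) (hi : i ∉ S)
    (p : ZMod (2 * k i + 1)) (m : ℕ) (hm : k i = m + 1) :
    (∏ j ∈ S, ZZ k j) * Ar k i p m ∈ Sp (Str k (insert i S)) := by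
  refine Sp_mono ?_ (mixQ k S hk i hi ?_ (Ar_mem k i p m hm))
  · rintro U ⟨T, T', hT, hT', rfl⟩
    rw [Finset.union_comm]
    exact str_ins hi hT' hT
  · rintro T ⟨p, b, _, rfl⟩ x hx
    exact arc_fst hx

/-- the half window of the first `m + 1 ≤ k i` elements is part of full structures: every set in the
product with the cycles of the other circuits is contained in a full structure -/
theorem ZH_sub (k : ι → ℕ) (S : Finset ι) (hk : ∀ i ∈ S, k i % 2 = 1) (i : ι) (hi : i ∉ S)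
    (p : ZMod (2 * k i + 1)) (m : ℕ) (hm : k i = m + 1) :
    (∏ j ∈ S, ZZ k j) * Hw k i p m ∈ Sp (fun F => Good ((∑ j ∈ S, (k j + 1)) + (m + 1)) F ∧
      ∃ T, Str k (insert i S) T ∧ F ⊆ T) := by
  refine Sp_mono ?_ (mixQ k S hk i hi ?_ (Hw_mem k i p m (by omega)))
  · rintro U ⟨T, T', hT, ⟨b, rfl⟩, rfl⟩
    refine ⟨good_union hi hT (by omega),
      arc k i p (k i + 1) (Function.update b (k i) (!(b 0))) ∪ T, ?_, ?_⟩
    · refine str_ins hi ⟨p, _, ?_, rfl⟩ hT
      rw [Function.update_self, Function.update_of_ne (by omega)]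
    · rw [Finset.union_comm]
      refine Finset.union_subset_union ?_ (Finset.Subset.refl T)
      intro x hx
      obtain ⟨t, ht, rfl⟩ := mem_arc.1 hx
      refine mem_arc.2 ⟨t, by omega, ?_⟩
      rw [Function.update_of_ne (by omega)]
  · rintro T ⟨b, rfl⟩ x hx
    exact arc_fst hx

end Pool.Agent.TWC
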