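import Pool.Agent.TWC.CH
import Pool.Agent.TWC.WIN

/-!
FW.  `Z = ∏_{j ≠ i₀} ZZ k j` times a half window of `k i₀ = m + 1` elements of circuit `i₀` has count `1`.

Proof: as `A4` (`Pool/Agent/TWB/A4.lean`), `k i₀` may have any parity.  `P t`, `U t` the linear maps with
values `[PosR (uu v) t T]`, `[UpR (uu v) t T]` at `mon T` (`ext_lin`), `chA`, `chB`.
`D S = Σ_{j∈S} (k j + 1)`, `Z S = ∏_{j∈S} ZZ k j`; for `S ⊆ univ.erase i₀` all `k j`, `j ∈ S`, are odd.
(base) for all `S` with `i₀ ∉ S` and all vertices `⟨i, q⟩` with `i ∉ S`: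
   `P (D S) (Z S * xx k i q true) = 1`: induction on `S`.
   `S = ∅`: `P 0 (mon {x}) = 1`.
   `insert j S` (`j ≠ i₀`): first (climb) for all `l ≤ k j`: `P (D S + l) (Z S * hh (xx k j) l) = 1`:
   `l = 0`: `hh (xx k j) 0 = Σ_q xx k j q true`, `2 k j + 1` terms, each `1` by the induction
   hypothesis for `S`, the sum is `1` in `ZMod 2`; `l → l + 1`: as `climb` in `A4` (chA, `ids`, chB,
   `mix_mem'`).  Then with `C = Z S * hh (xx k j) (k j)`, `C + gg C = Z (insert j S)`, so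
   `U (D S + k j) (Z (insert j S)) = 1` (chB) and
   `P (D S + k j + 1) (Z (insert j S) * xx k i q true) = U (D S + k j) (dd ..) = U .. (Z (insert j S))`
   by chA (`Z * xx ∈ Sp (Good ..)`: `ZH_mem` with `m = 0`, `Hw k i q 0 = 1 * xx k i (q + 0) true`).
(sphere) `S = univ.erase i₀`, `l ≤ m`: `P (D S + l) (Z S * Hw k i₀ p l) = 1`: `l = 0` is (base),
   `l → l + 1`: chA with `dd (Z S * Hw (l+1)) = Z S * Wn (l + 1)` (`Hw_dd`)
   `= Z S * Hw l + gg (Z S * Hw l)` (`Hw_gg`), chB; `ZH_mem`.  `D S + m = N`.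
(`dZ : dd (∏ j ∈ S, ZZ k j) = 0`, `gZ`, `ids` are in `Pool/Agent/TWC/Defs.lean`.)
-/

set_option autoImplicit false

namespace Pool.Agent.TWC

open Pool.Agent.TWB

theorem FW {ι : Type*} [Fintype ι] [DecidableEq ι] (k : ι → ℕ) (i₀ : ι)
    (hk : ∀ i, i ≠ i₀ → k i % 2 = 1) (m : ℕ) (hm : k i₀ = m + 1) {N : ℕ}
    (hN : N + 2 = ∑ i, (k i + 1)) (v : Vx k → Fin N → ℝ) (hv : GenOn v Finset.univ)
    (p : ZMod (2 * k i₀ + 1)) (P : MvPolynomial (Vx k × Bool) (ZMod 2) →ₗ[ZMod 2] ZMod 2)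
    (hP : ∀ T, P (mon T) = @ite _ (PosR (uu v) N T) (Classical.dec _) 1 0) :
    P ((∏ j ∈ Finset.univ.erase i₀, ZZ k j) * Hw k i₀ p m) = 1 := by
  choose Q hQ using fun t => ext_lin (σ := Vx k × Bool)
    (fun T => @ite _ (PosR (uu v) t T) (Classical.dec _) (1 : ZMod 2) 0)
  choose U hU using fun t => ext_lin (σ := Vx k × Bool)
    (fun T => @ite _ (UpR (uu v) t T) (Classical.dec _) (1 : ZMod 2) 0)
  have hkS : ∀ S : Finset ι, i₀ ∉ S → ∀ j ∈ S, k j % 2 = 1 := by
    intro S hS j hj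
    refine hk j ?_
    rintro rfl
    exact hS hj
  have hA : ∀ t, t + 1 ≤ N → ∀ C ∈ Sp (Good (α := Vx k) (t + 2)), Q (t + 1) C = U t (dd C) :=
    fun t ht C hC => chA v hv t (Q (t + 1)) (U t) (hQ (t + 1)) (hU t) ht C hC
  have hB : ∀ t, t < N → ∀ C ∈ Sp (Good (α := Vx k) (t + 1)), U t (C + gg C) = Q t C :=
    fun t ht C hC => chB v hv t (Q t) (U t) (hQ t) (hU t) ht C hC
  have hH0 : ∀ (i : ι) (q : ZMod (2 * k i + 1)), Hw k i q 0 = xx k i q true := by
    intro i q
    unfold Hw Wn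
    rw [Finset.prod_range_zero, one_mul, Nat.cast_zero, add_zero]
  have hdx : ∀ (i : ι) (q : ZMod (2 * k i + 1)), dd (xx k i q true) = 1 := by
    intro i q
    have h := Hw_dd k i q 0
    rw [hH0] at h
    rw [h]
    unfold Wn
    rw [Finset.prod_range_zero]
  -- sums of sizes
  have hD : ∀ (S : Finset ι) (j : ι), i₀ ∉ S → j ∉ S → j ≠ i₀ →
      (∑ x ∈ S, (k x + 1)) + k j + 1 ≤ N := by
    intro S j hS hj hji
    have h0 : i₀ ∉ insert j S := by
      rw [Finset.mem_insert]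
      rintro (h | h)
      · exact hji h.symm
      · exact hS h
    have h1 : ∑ x ∈ insert i₀ (insert j S), (k x + 1) =
        (k i₀ + 1) + ((k j + 1) + ∑ x ∈ S, (k x + 1)) := by
      rw [Finset.sum_insert h0, Finset.sum_insert hj]
    have h2 : ∑ x ∈ insert i₀ (insert j S), (k x + 1) ≤ ∑ x, (k x + 1) :=
      Finset.sum_le_sum_of_subset (Finset.subset_univ _)
    omega
  have climb : ∀ (S : Finset ι) (j : ι), i₀ ∉ S → j ∉ S → j ≠ i₀ →
      (∀ q : ZMod (2 * k j + 1),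
        Q (∑ x ∈ S, (k x + 1)) ((∏ x ∈ S, ZZ k x) * xx k j q true) = 1) →
      ∀ l, l ≤ k j → Q ((∑ x ∈ S, (k x + 1)) + l) ((∏ x ∈ S, ZZ k x) * hh (xx k j) l) = 1 := by
    intro S j hS hj hji h0 l
    induction l with
    | zero =>
      intro _
      show Q (∑ x ∈ S, (k x + 1)) ((∏ x ∈ S, ZZ k x) *
        ∑ q : ZMod (2 * k j + 1), xx k j q true) = 1
      rw [Finset.mul_sum, map_sum, Finset.sum_congr rfl fun q _ => h0 q, Finset.sum_const,
        Finset.card_univ, ZMod.card, nsmul_eq_mul, mul_one]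
      push_cast
      have h3 : (2 : ZMod 2) = 0 := by decide
      rw [h3, zero_mul, zero_add]
    | succ l ih =>
      intro hl
      have hih := ih (by omega)
      have hDi := hD S j hS hj hji
      have e1 := hA ((∑ x ∈ S, (k x + 1)) + l) (by omega)
        ((∏ x ∈ S, ZZ k x) * hh (xx k j) (l + 1))
        (mix_mem' k S (hkS S hS) j hj (l + 1) (by omega))
      have e2 : dd ((∏ x ∈ S, ZZ k x) * hh (xx k j) (l + 1))
          = (∏ x ∈ S, ZZ k x) * hh (xx k j) l + gg ((∏ x ∈ S, ZZ k x) * hh (xx k j) l) := by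
        rw [Derivation.leibniz, dZ, (ids k j).2.1 l, map_mul, gZ, smul_zero, add_zero,
          smul_eq_mul, mul_add]
      have e3 := hB ((∑ x ∈ S, (k x + 1)) + l) (by omega) ((∏ x ∈ S, ZZ k x) * hh (xx k j) l)
        (mix_mem' k S (hkS S hS) j hj l (by omega))
      rw [← add_assoc, e1, e2, e3]
      exact hih
  have base : ∀ S : Finset ι, i₀ ∉ S → ∀ (i : ι), i ∉ S → ∀ q : ZMod (2 * k i + 1),
      Q (∑ j ∈ S, (k j + 1)) ((∏ j ∈ S, ZZ k j) * xx k i q true) = 1 := by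
    intro S
    induction S using Finset.induction_on with
    | empty =>
      intro _ i _ q
      rw [Finset.sum_empty, Finset.prod_empty, one_mul]
      have h2 : xx k i q true = mon {((⟨i, q⟩ : Vx k), true)} := by
        unfold mon xx
        rw [Finset.prod_singleton]
      rw [h2, hQ, if_pos]
      exact ⟨fun _ => 1, fun x _ => one_pos, fun j hj => absurd hj (Nat.not_lt_zero _)⟩
    | insert j S hj ih =>
      intro hS i hi q
      rw [Finset.mem_insert, not_or] at hS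
      have hji : j ≠ i₀ := fun h => hS.1 h.symm
      have hDi := hD S j hS.2 hj hji
      have h1 := climb S j hS.2 hj hji (ih hS.2 j hj) (k j) le_rfl
      have e0 : (∏ x ∈ insert j S, ZZ k x)
          = (∏ x ∈ S, ZZ k x) * hh (xx k j) (k j) + gg ((∏ x ∈ S, ZZ k x) * hh (xx k j) (k j)) := by
        rw [Finset.prod_insert hj, map_mul, gZ, mul_comm, ← mul_add]
        rfl
      have e3 := hB ((∑ x ∈ S, (k x + 1)) + k j) (by omega)
        ((∏ x ∈ S, ZZ k x) * hh (xx k j) (k j))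
        (mix_mem' k S (hkS S hS.2) j hj (k j) (by omega))
      rw [← e0, h1] at e3
      have hS' : i₀ ∉ insert j S := by
        rw [Finset.mem_insert, not_or]
        exact hS
      have e5 := ZH_mem k (insert j S) (hkS _ hS') i hi q 0 (Nat.zero_le _)
      rw [hH0] at e5
      have e4 : (∑ x ∈ insert j S, (k x + 1)) = (∑ x ∈ S, (k x + 1)) + k j + 1 := by
        rw [Finset.sum_insert hj]
        ring
      rw [e4] at e5
      have e1 := hA ((∑ x ∈ S, (k x + 1)) + k j) (by omega)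
        ((∏ x ∈ insert j S, ZZ k x) * xx k i q true) e5
      have e2 : dd ((∏ x ∈ insert j S, ZZ k x) * xx k i q true) = ∏ x ∈ insert j S, ZZ k x := by
        rw [Derivation.leibniz, dZ, hdx, smul_zero, add_zero, smul_eq_mul, mul_one]
      rw [e4, e1, e2, e3]
  -- the sphere
  have hi₀ : i₀ ∉ (Finset.univ : Finset ι).erase i₀ := Finset.notMem_erase _ _
  have hN' : (∑ j ∈ (Finset.univ : Finset ι).erase i₀, (k j + 1)) + m = N := by
    have h3 := Finset.sum_erase_add (Finset.univ : Finset ι) (fun j => k j + 1) (Finset.mem_univ i₀)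
    omega
  have sph : ∀ l, l ≤ m → Q ((∑ j ∈ (Finset.univ : Finset ι).erase i₀, (k j + 1)) + l)
      ((∏ j ∈ Finset.univ.erase i₀, ZZ k j) * Hw k i₀ p l) = 1 := by
    intro l
    induction l with
    | zero =>
      intro _
      rw [hH0, add_zero]
      exact base _ hi₀ i₀ hi₀ p
    | succ l ih =>
      intro hl
      have hih := ih (by omega)
      have e1 := hA ((∑ j ∈ (Finset.univ : Finset ι).erase i₀, (k j + 1)) + l) (by omega)
        ((∏ j ∈ Finset.univ.erase i₀, ZZ k j) * Hw k i₀ p (l + 1))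
        (ZH_mem k _ (hkS _ hi₀) i₀ hi₀ p (l + 1) (by omega))
      have e2 : dd ((∏ j ∈ Finset.univ.erase i₀, ZZ k j) * Hw k i₀ p (l + 1))
          = (∏ j ∈ Finset.univ.erase i₀, ZZ k j) * Hw k i₀ p l +
            gg ((∏ j ∈ Finset.univ.erase i₀, ZZ k j) * Hw k i₀ p l) := by
        rw [Derivation.leibniz, dZ, Hw_dd, ← Hw_gg, map_mul, gZ, smul_zero, add_zero,
          smul_eq_mul, mul_add]
      have e3 := hB ((∑ j ∈ (Finset.univ : Finset ι).erase i₀, (k j + 1)) + l) (by omega)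
        ((∏ j ∈ Finset.univ.erase i₀, ZZ k j) * Hw k i₀ p l)
        (ZH_mem k _ (hkS _ hi₀) i₀ hi₀ p l (by omega))
      rw [← add_assoc, e1, e2, e3]
      exact hih
  have hfin := sph m le_rfl
  rw [hN'] at hfin
  rw [← hfin]
  refine Sp_congr P (Q N) ?_ (ZH_mem k _ (hkS _ hi₀) i₀ hi₀ p m (by omega))
  intro T _
  rw [hP, hQ]

end Pool.Agent.TWC
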