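import Pool.Agent.TWC.CH
import Pool.Agent.TWC.WIN
import Pool.Agent.TWC.FW

/-!
EV0.  The contradiction at a generic configuration `v`: there is no flip invariant family `𝒮` of sets
such that every set of `𝒮` meets circuit `i₀` and every full structure `T` which has a subset of `N + 1`
elements with a positive relation contains exactly one set of `𝒮`, and this is contained in every such
subset.

Proof.  `S = univ.erase i₀`, `Z = ∏_{j∈S} ZZ k j`, `K F : Prop := PosR (uu v) N F`.  `ext_lin` gives `P`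
with `P (mon F) = [K F]` and for every `Y` a linear map `L Y` with `L Y (mon F) = [K F ∧ Y ⊆ F]`
(`choose`).
(1) `Y ∈ 𝒮`, `Str k univ T`: `L Y (dd (mon T)) = 0`.  `dd_mon`; all `T.erase x` have `N + 1` elements
    (`str_good`).  If `¬ Y ⊆ T` all terms are `0`.  If `Y ⊆ T`: `K (T.erase x)` implies (h1) that some
    `Y' ∈ 𝒮` is contained in `T.erase x ⊆ T`, by (h2) `Y' = Y`; so the terms are `[K (T.erase x)]` and the
    sum is `P (dd (mon T)) = 0` by `chC` (`mon T ∈ Sp (Good (N + 2))`).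
    Hence `L Y (dd C) = 0` for all `C ∈ Sp (Str k univ)` (`Sp_congr` with the zero map).
(2) `Y ∈ 𝒮`, all `q`: `L Y (Z * Wn k i₀ q (m+1)) = 0`.  By `ZA_mem` (`insert i₀ S = univ`) and
    `dd (Z * Ar k i₀ q m) = Z * (Wn k i₀ q (m+1) + Wn k i₀ (q+1) (m+1))` (`dZ`: `dd Z = 0`, `Ar_dd`,
    Leibniz) the value at `q` and `q + 1` agree (characteristic 2), so it is the same for all `q`
    (induction on `n`, `q = q₀ + (n : ZMod _)`).  By (h0) there is `x ∈ Y`, `x.1 = ⟨i₀, j⟩`; the window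
    `j + 1, ..., j + (m + 1)` does not contain `j` (`j = j + 1 + t`, `t < m + 1` gives
    `(2 k i₀ + 1) ∣ t + 1`, `t + 1 ≤ k i₀`), so by `ZW_mem` and `Sp_congr` the value at `q = j + 1`
    is `0` (no monomial contains `Y`).
(3) For `C ∈ Sp (fun F => F.card = N + 1 ∧ ∃ T, Str k univ T ∧ F ⊆ T)`: `P C = Σ_{Y∈𝒮} L Y C`:
    `Sp_congr`; for `F` with `K F` exactly one `Y ∈ 𝒮` has `Y ⊆ F` ((h1), (h2)): `Finset.sum_eq_single`.
(4) For `C ∈ Sp (Good (N + 1))`: `L (flp Y) C = L Y (gg C)`: on monomials `gg (mon F) = mon (flp F)`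
    (`gg_mon`), `PosR_flp`, `flp Y ⊆ F ↔ Y ⊆ flp F` (`mem_flp`).
(5) Choose `f : Finset (Vx k) → Vx k` with `f A ∈ A` for nonempty `A` (Classical), for `Y ∈ 𝒮` let
    `a Y = f (Y.image Prod.fst)` (`Y` is nonempty by (h0)), `𝒮⁺ = {Y ∈ 𝒮 | (a Y, true) ∈ Y}`.
    `a (flp Y) = a Y`; exactly one of `(a Y, true)`, `(a Y, false)` is in `Y` (at least one since
    `a Y ∈ Y.image fst`; not both since `Y ⊆ T` and `str_good`), and `(a Y, true) ∈ flp Y` iff
    `(a Y, false) ∈ Y`.  So `𝒮` is the disjoint union of `𝒮⁺` and `𝒮⁺.image flp` (`flp_flp`), and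
    `Σ_{Y∈𝒮} L Y C = Σ_{Y∈𝒮⁺} (L Y C + L (flp Y) C) = Σ_{Y∈𝒮⁺} L Y (C + gg C)`.
(6) `C = Z * Hw k i₀ p m` (any `p`, e.g. `0`): `FW` gives `P C = 1`; `ZH_sub`, `ZH_mem` (with
    `Σ_{j∈S} (k j + 1) + (m + 1) = N + 1`); `C + gg C = Z * Wn k i₀ p (m + 1)` (`gZ`: `gg Z = Z`,
    `Hw_gg`); so `1 = Σ_{Y∈𝒮⁺} 0 = 0` by (2), contradiction.
(`dZ`, `gZ` are in `Pool/Agent/TWC/Defs.lean`.)
-/

set_option autoImplicit false

namespace Pool.Agent.TWC

open Pool.Agent.TWB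

theorem EV0 {ι : Type*} [Fintype ι] [DecidableEq ι] (k : ι → ℕ) (i₀ : ι)
    (hk : ∀ i, i ≠ i₀ → k i % 2 = 1) (m : ℕ) (hm : k i₀ = m + 1) {N : ℕ} (hN1 : 1 ≤ N)
    (hN : N + 2 = ∑ i, (k i + 1)) (v : Vx k → Fin N → ℝ) (hv : GenOn v Finset.univ)
    (𝒮 : Finset (Finset (Vx k × Bool)))
    (h0 : ∀ Y ∈ 𝒮, ∃ x ∈ Y, x.1.1 = i₀)
    (hflp : ∀ Y ∈ 𝒮, flp Y ∈ 𝒮)
    (hS : ∀ Y ∈ 𝒮, ∃ T, Str k Finset.univ T ∧ Y ⊆ T)
    (h1 : ∀ T, Str k Finset.univ T → ∀ F ⊆ T, F.card = N + 1 → PosR (uu v) N F →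
      ∃ Y ∈ 𝒮, Y ⊆ F)
    (h2 : ∀ T, Str k Finset.univ T → ∀ Y ∈ 𝒮, ∀ Y' ∈ 𝒮, Y ⊆ T → Y' ⊆ T → Y = Y') : False := by
  classical
  obtain ⟨P, hP⟩ := ext_lin (σ := Vx k × Bool)
    (fun T => @ite _ (PosR (uu v) N T) (Classical.dec _) (1 : ZMod 2) 0)
  choose L hL using fun Y : Finset (Vx k × Bool) => ext_lin (σ := Vx k × Bool)
    (fun T => @ite _ (PosR (uu v) N T ∧ Y ⊆ T) (Classical.dec _) (1 : ZMod 2) 0)
  have h0' : ∀ Y ∈ 𝒮, ∃ (j : ZMod (2 * k i₀ + 1)) (b : Bool), ((⟨i₀, j⟩ : Vx k), b) ∈ Y := by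
    intro Y hY
    obtain ⟨⟨⟨i, j⟩, b⟩, hx, hxi⟩ := h0 Y hY
    have hxi' : i = i₀ := hxi
    subst hxi'
    exact ⟨j, b, hx⟩
  have two : ∀ a b : ZMod 2, a + b = 0 → a = b := by decide
  have hi₀ : i₀ ∉ (Finset.univ : Finset ι).erase i₀ := Finset.notMem_erase _ _
  have hins : insert i₀ ((Finset.univ : Finset ι).erase i₀) = Finset.univ :=
    Finset.insert_erase (Finset.mem_univ i₀)
  have hkS : ∀ i ∈ (Finset.univ : Finset ι).erase i₀, k i % 2 = 1 :=
    fun i hi => hk i (Finset.ne_of_mem_erase hi)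
  have hsum : (∑ j ∈ (Finset.univ : Finset ι).erase i₀, (k j + 1)) + (m + 1) = N + 1 := by
    have h3 := Finset.sum_erase_add (Finset.univ : Finset ι) (fun j => k j + 1)
      (Finset.mem_univ i₀)
    omega
  -- (1)
  have c1 : ∀ Y ∈ 𝒮, ∀ T, Str k Finset.univ T → L Y (dd (mon T)) = 0 := by
    intro Y hY T hT
    obtain ⟨g1, g2⟩ := str_good hT
    rw [← hN] at g2
    rw [dd_mon, map_sum]
    by_cases hYT : Y ⊆ T
    · have e1 : ∀ x ∈ T, L Y (mon (T.erase x)) = P (mon (T.erase x)) := by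
        intro x hx
        rw [hL, hP]
        by_cases hK : PosR (uu v) N (T.erase x)
        · obtain ⟨Y', hY', hs⟩ := h1 T hT (T.erase x) (Finset.erase_subset _ _)
            (by rw [Finset.card_erase_of_mem hx, g2]; rfl) hK
          have he := h2 T hT Y hY Y' hY' hYT (hs.trans (Finset.erase_subset _ _))
          rw [← he] at hs
          rw [if_pos ⟨hK, hs⟩, if_pos hK]
        · rw [if_neg (fun h => hK h.1), if_neg hK]
      rw [Finset.sum_congr rfl e1, ← map_sum, ← dd_mon]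
      exact chC v hv hN1 P hP (mon T) (mon_mem ⟨g1, g2⟩)
    · refine Finset.sum_eq_zero fun x hx => ?_
      rw [hL, if_neg]
      exact fun h => hYT (h.2.trans (Finset.erase_subset _ _))
  have c1' : ∀ Y ∈ 𝒮, ∀ C ∈ Sp (Str k Finset.univ), L Y (dd C) = 0 := by
    intro Y hY C hC
    exact Sp_congr ((L Y).comp (dd (σ := Vx k × Bool)).toLinearMap) 0
      (fun T hT => c1 Y hY T hT) hC
  -- (2)
  have c2 : ∀ Y ∈ 𝒮, ∀ q : ZMod (2 * k i₀ + 1),
      L Y ((∏ j ∈ (Finset.univ : Finset ι).erase i₀, ZZ k j) * Wn k i₀ q (m + 1)) = 0 := by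
    intro Y hY
    have step : ∀ q : ZMod (2 * k i₀ + 1),
        L Y ((∏ j ∈ (Finset.univ : Finset ι).erase i₀, ZZ k j) * Wn k i₀ q (m + 1)) =
        L Y ((∏ j ∈ (Finset.univ : Finset ι).erase i₀, ZZ k j) * Wn k i₀ (q + 1) (m + 1)) := by
      intro q
      have hmem := ZA_mem k _ hkS i₀ hi₀ q m hm
      rw [hins] at hmem
      have h3 := c1' Y hY _ hmem
      rw [Derivation.leibniz, dZ, smul_zero, add_zero, Ar_dd, smul_eq_mul, mul_add, map_add] at h3
      exact two _ _ h3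
    have all : ∀ (n : ℕ) (q : ZMod (2 * k i₀ + 1)),
        L Y ((∏ j ∈ (Finset.univ : Finset ι).erase i₀, ZZ k j) * Wn k i₀ q (m + 1)) =
        L Y ((∏ j ∈ (Finset.univ : Finset ι).erase i₀, ZZ k j) *
          Wn k i₀ (q + (n : ZMod (2 * k i₀ + 1))) (m + 1)) := by
      intro n q
      induction n with
      | zero => rw [Nat.cast_zero, add_zero]
      | succ n ih =>
        rw [ih, step, Nat.cast_succ, add_assoc]
    obtain ⟨j, b, hx⟩ := h0' Y hY
    have hz : L Y ((∏ j ∈ (Finset.univ : Finset ι).erase i₀, ZZ k j) *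
        Wn k i₀ (j + 1) (m + 1)) = 0 := by
      refine Sp_congr (L Y) 0 ?_ (ZW_mem k _ hkS i₀ hi₀ (j + 1) (m + 1) (by omega))
      rintro T ⟨_, hT⟩
      rw [hL, if_neg]
      · rfl
      · rintro ⟨_, hs⟩
        obtain ⟨t, ht, he⟩ := hT _ (hs hx) rfl
        have he2 : (⟨i₀, j⟩ : Vx k) = ⟨i₀, j + 1 + (t : ZMod (2 * k i₀ + 1))⟩ := he
        have he' : j = j + 1 + (t : ZMod (2 * k i₀ + 1)) := eq_of_heq (Sigma.mk.inj he2).2
        have h4 : ((t + 1 : ℕ) : ZMod (2 * k i₀ + 1)) = 0 := by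
          push_cast
          linear_combination -he'
        rw [ZMod.natCast_eq_zero_iff] at h4
        have h5 := Nat.le_of_dvd (Nat.succ_pos t) h4
        omega
    intro q
    have h6 := all (q - (j + 1)).val (j + 1)
    rw [ZMod.natCast_zmod_val, add_sub_cancel] at h6
    rw [← h6]
    exact hz
  -- (3)
  have c3 : ∀ C ∈ Sp (fun F : Finset (Vx k × Bool) =>
      Good ((∑ j ∈ (Finset.univ : Finset ι).erase i₀, (k j + 1)) + (m + 1)) F ∧
        ∃ T, Str k (insert i₀ ((Finset.univ : Finset ι).erase i₀)) T ∧ F ⊆ T),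
      P C = ∑ Y ∈ 𝒮, L Y C := by
    intro C hC
    have h3 : P C = (∑ Y ∈ 𝒮, L Y) C := by
      refine Sp_congr P (∑ Y ∈ 𝒮, L Y) ?_ hC
      rintro F ⟨⟨_, hF⟩, T, hT, hFT⟩
      rw [hins] at hT
      rw [hsum] at hF
      rw [LinearMap.sum_apply, hP]
      by_cases hK : PosR (uu v) N F
      · obtain ⟨Y, hY, hs⟩ := h1 T hT F hFT hF hK
        rw [if_pos hK, Finset.sum_eq_single_of_mem Y hY, hL, if_pos ⟨hK, hs⟩]
        intro Y' hY' hne
        rw [hL, if_neg]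
        rintro ⟨_, hs'⟩
        exact hne (h2 T hT Y' hY' Y hY (hs'.trans hFT) (hs.trans hFT))
      · rw [if_neg hK, Finset.sum_eq_zero]
        intro Y _
        rw [hL, if_neg (fun h => hK h.1)]
    rw [h3, LinearMap.sum_apply]
  -- (4)
  have c4 : ∀ (Y : Finset (Vx k × Bool)) (Q : Finset (Vx k × Bool) → Prop), ∀ C ∈ Sp Q,
      L (flp Y) C = L Y (gg C) := by
    intro Y Q C hC
    refine Sp_congr (L (flp Y)) ((L Y).comp (gg (α := Vx k)).toLinearMap) ?_ hC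
    intro F _
    show L (flp Y) (mon F) = L Y (gg (mon F))
    have e : gg (mon F) = mon (flp F) := gg_mon F
    rw [e, hL, hL]
    have hiff : (PosR (uu v) N F ∧ flp Y ⊆ F) ↔ (PosR (uu v) N (flp F) ∧ Y ⊆ flp F) := by
      rw [PosR_flp]
      refine and_congr_right fun _ => ?_
      constructor
      · intro h x hx
        rw [mem_flp]
        apply h
        rw [mem_flp]
        simpa using hx
      · intro h x hx
        rw [mem_flp] at hx
        have := h hx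
        rw [mem_flp] at this
        simpa using this
    by_cases hh : PosR (uu v) N F ∧ flp Y ⊆ F
    · rw [if_pos hh, if_pos (hiff.1 hh)]
    · rw [if_neg hh, if_neg (fun h => hh (hiff.2 h))]
  -- (6)
  have hC := ZH_sub k _ hkS i₀ hi₀ 0 m hm
  have hF := FW k i₀ hk m hm hN v hv 0 P hP
  rw [c3 _ hC] at hF
  have hgg : (∏ j ∈ (Finset.univ : Finset ι).erase i₀, ZZ k j) * Hw k i₀ 0 m +
      gg ((∏ j ∈ (Finset.univ : Finset ι).erase i₀, ZZ k j) * Hw k i₀ 0 m) =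
      (∏ j ∈ (Finset.univ : Finset ι).erase i₀, ZZ k j) * Wn k i₀ 0 (m + 1) := by
    rw [map_mul, gZ, ← mul_add, Hw_gg]
  have hzero : ∑ Y ∈ 𝒮, L Y ((∏ j ∈ (Finset.univ : Finset ι).erase i₀, ZZ k j) *
      Hw k i₀ 0 m) = 0 := by
    refine Finset.sum_involution (fun Y _ => flp Y) ?_ ?_ (fun Y hY => hflp Y hY) ?_
    · intro Y hY
      rw [c4 Y _ _ hC, ← map_add, hgg]
      exact c2 Y hY 0
    · intro Y hY _ he
      obtain ⟨j, b, hx⟩ := h0' Y hY
      obtain ⟨T, hT, hYT⟩ := hS Y hY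
      have hx' : ((⟨i₀, j⟩ : Vx k), !b) ∈ Y := by
        rw [← he, mem_flp]
        simpa using hx
      have := (str_good hT).1 (Finset.mem_coe.2 (hYT hx)) (Finset.mem_coe.2 (hYT hx')) rfl
      have hb := congrArg Prod.snd this
      revert hb
      cases b <;> simp
    · intro Y _
      exact flp_flp Y
  rw [hzero] at hF
  exact absurd hF (by decide)

end Pool.Agent.TWC
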