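import Pool.Agent.TWC.EVEN
import Pool.Agent.TWB.BUA

/-!
EVB.  Translation of `EVEN` to coefficients, for an arbitrary finite type of rows.

Proof.  As the end of the proof of `BUA` (`Pool/Agent/TWB/BUA.lean`): `e = Fintype.equivFin ρ`,
`v j i = V j (e.symm i)`; `Str` gives `p`, `b`.  For a subset `Y ⊆ T` with positive relation `z₀` put
`z i t = if t ≤ k i ∧ (⟨i, p i + t⟩, b i t) ∈ Y then z₀ (⟨i, p i + t⟩, b i t) else 0`; for
`t ≤ k i`: `z i t ≠ 0 ↔ (⟨i, p i + t⟩, b i t) ∈ Y` and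
`Σ_{x∈Y} z₀ x * uu v x r = Σ_i Σ_t sg (b i t) * z i t * v ⟨i, p i + t⟩ r` (sum over `T` with `0` outside `Y`,
then `bua_sum` (private in BUA.lean: copy)).  `Y` nonempty: some `z i t ≠ 0` (every element of `T` is
`(⟨i, p i + t⟩, b i t)`, `t ≤ k i`).  `Y ≠ Y'`: some element is in one and not in the other.
-/

set_option autoImplicit false

namespace Pool.Agent.TWC

open Pool.Agent.TWB

private theorem evb_inj {n a b : ℕ} [NeZero n] (p : ZMod n) (ha : a < n) (hb : b < n)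
    (h : p + (a : ZMod n) = p + (b : ZMod n)) : a = b := by
  have h1 : (a : ZMod n) = (b : ZMod n) := add_left_cancel h
  rw [ZMod.natCast_eq_natCast_iff'] at h1
  rwa [Nat.mod_eq_of_lt ha, Nat.mod_eq_of_lt hb] at h1

private theorem evb_sum {ι : Type*} [Fintype ι] [DecidableEq ι] (k : ι → ℕ)
    (p : ∀ i, ZMod (2 * k i + 1)) (b : ι → ℕ → Bool) (F : Vx k × Bool → ℝ) :
    ∑ x ∈ Finset.univ.biUnion (fun i => arc k i (p i) (k i + 1) (b i)), F x =
      ∑ i, ∑ t ∈ Finset.range (k i + 1), F (⟨i, p i + (t : ZMod (2 * k i + 1))⟩, b i t) := by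
  rw [Finset.sum_biUnion]
  · refine Finset.sum_congr rfl fun i _ => ?_
    unfold arc
    rw [Finset.sum_image]
    intro a ha a' ha' haa
    simp only [Finset.coe_range, Set.mem_Iio] at ha ha'
    have h1 := congrArg Prod.fst haa
    simp only [Sigma.mk.injEq, heq_eq_eq, true_and] at h1
    exact evb_inj (p i) (by omega) (by omega) h1
  · intro i _ j _ hij
    rw [Function.onFun, Finset.disjoint_left]
    intro x hx hx'
    unfold arc at hx hx'
    obtain ⟨t, _, rfl⟩ := Finset.mem_image.1 hx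
    obtain ⟨t', _, h'⟩ := Finset.mem_image.1 hx'
    exact hij (congrArg (fun x : Vx k × Bool => x.1.1) h').symm

private theorem evb_mem {ι : Type*} [Fintype ι] [DecidableEq ι] (k : ι → ℕ)
    (p : ∀ i, ZMod (2 * k i + 1)) (b : ι → ℕ → Bool) (x : Vx k × Bool)
    (hx : x ∈ Finset.univ.biUnion (fun i => arc k i (p i) (k i + 1) (b i))) :
    ∃ i, ∃ t ≤ k i, x = (⟨i, p i + (t : ZMod (2 * k i + 1))⟩, b i t) := by
  rw [Finset.mem_biUnion] at hx
  obtain ⟨i, _, hx⟩ := hx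
  unfold arc at hx
  obtain ⟨t, ht, rfl⟩ := Finset.mem_image.1 hx
  exact ⟨i, t, Nat.lt_succ_iff.1 (Finset.mem_range.1 ht), rfl⟩

private theorem evb_key {ι : Type*} [Fintype ι] [DecidableEq ι] (k : ι → ℕ)
    (p : ∀ i, ZMod (2 * k i + 1)) (b : ι → ℕ → Bool) {ρ : Type*} [Fintype ρ]
    (V : Vx k → ρ → ℝ) (Y : Finset (Vx k × Bool))
    (hY : Y ⊆ Finset.univ.biUnion (fun i => arc k i (p i) (k i + 1) (b i)))
    (hP : PosR (uu (fun j i => V j ((Fintype.equivFin ρ).symm i))) (Fintype.card ρ) Y) :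
    ∃ z : ι → ℕ → ℝ, (∀ i t, 0 ≤ z i t) ∧
      (∀ i, ∀ t ≤ k i, (z i t ≠ 0 ↔
        ((⟨i, p i + (t : ZMod (2 * k i + 1))⟩ : Vx k), b i t) ∈ Y)) ∧
      ∀ r : ρ, ∑ i, ∑ t ∈ Finset.range (k i + 1),
        sg (b i t) * z i t * V ⟨i, p i + (t : ZMod (2 * k i + 1))⟩ r = 0 := by
  classical
  obtain ⟨z₀, hz₀, hz₁⟩ := hP
  refine ⟨fun i t => if t ≤ k i ∧ ((⟨i, p i + (t : ZMod (2 * k i + 1))⟩ : Vx k), b i t) ∈ Y then
    z₀ (⟨i, p i + (t : ZMod (2 * k i + 1))⟩, b i t) else 0, fun i t => ?_, fun i t ht => ?_,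
    fun r => ?_⟩
  · dsimp only
    split_ifs with h
    · exact (hz₀ _ h.2).le
    · exact le_rfl
  · dsimp only
    constructor
    · intro h
      by_contra hcon
      rw [if_neg (fun h' => hcon h'.2)] at h
      exact h rfl
    · intro h
      rw [if_pos ⟨ht, h⟩]
      exact (hz₀ _ h).ne'
  · have h1 := hz₁ ((Fintype.equivFin ρ) r) ((Fintype.equivFin ρ) r).2
    have h2 : ∑ x ∈ Finset.univ.biUnion (fun i => arc k i (p i) (k i + 1) (b i)),
        (if x ∈ Y then z₀ x * uu (fun j i => V j ((Fintype.equivFin ρ).symm i)) x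
          ((Fintype.equivFin ρ) r) else 0) = 0 := by
      rw [← Finset.sum_filter, Finset.filter_mem_eq_inter, Finset.inter_eq_right.2 hY]
      exact h1
    rw [evb_sum] at h2
    refine Eq.trans ?_ h2
    refine Finset.sum_congr rfl fun i _ => Finset.sum_congr rfl fun t ht => ?_
    have ht' : t ≤ k i := Nat.lt_succ_iff.1 (Finset.mem_range.1 ht)
    dsimp only
    by_cases h : ((⟨i, p i + (t : ZMod (2 * k i + 1))⟩ : Vx k), b i t) ∈ Y
    · rw [if_pos ⟨ht', h⟩, if_pos h]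
      simp only [uu, Equiv.symm_apply_apply]
      ring
    · rw [if_neg (fun h' => h h'.2), if_neg h]
      ring

theorem EVB {ι : Type*} [Fintype ι] [DecidableEq ι] (k : ι → ℕ) (i₀ : ι)
    (hk : ∀ i, i ≠ i₀ → k i % 2 = 1) (h1 : 1 ≤ k i₀) {ρ : Type*} [Fintype ρ] [Nonempty ρ]
    (hρ : Fintype.card ρ + 2 = ∑ i, (k i + 1)) (V : Vx k → ρ → ℝ) :
    ∃ (p : ∀ i, ZMod (2 * k i + 1)) (b : ι → ℕ → Bool), (∀ i, b i (k i) = !(b i 0)) ∧
      ((∃ z : ι → ℕ → ℝ, (∀ i t, 0 ≤ z i t) ∧ (∃ i, ∃ t ≤ k i, z i t ≠ 0) ∧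
          (∀ t ≤ k i₀, z i₀ t = 0) ∧
          ∀ r : ρ, ∑ i, ∑ t ∈ Finset.range (k i + 1),
            sg (b i t) * z i t * V ⟨i, p i + (t : ZMod (2 * k i + 1))⟩ r = 0) ∨
       (∃ z z' : ι → ℕ → ℝ, (∀ i t, 0 ≤ z i t) ∧ (∀ i t, 0 ≤ z' i t) ∧
          (∃ i, ∃ t ≤ k i, z i t ≠ 0) ∧ (∃ i, ∃ t ≤ k i, z' i t ≠ 0) ∧
          (∃ i, ∃ t ≤ k i, (z i t = 0 ∧ z' i t ≠ 0) ∨ (z i t ≠ 0 ∧ z' i t = 0)) ∧
          (∀ r : ρ, ∑ i, ∑ t ∈ Finset.range (k i + 1),
            sg (b i t) * z i t * V ⟨i, p i + (t : ZMod (2 * k i + 1))⟩ r = 0) ∧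
          (∀ r : ρ, ∑ i, ∑ t ∈ Finset.range (k i + 1),
            sg (b i t) * z' i t * V ⟨i, p i + (t : ZMod (2 * k i + 1))⟩ r = 0))) := by
  classical
  obtain ⟨T, ⟨p, b, hb, rfl⟩, h⟩ := EVEN k i₀ hk h1 (Nat.succ_le_of_lt Fintype.card_pos) hρ
    (fun j i => V j ((Fintype.equivFin ρ).symm i))
  refine ⟨p, b, fun i => hb i (Finset.mem_univ _), ?_⟩
  rcases h with ⟨Y, hYT, hYn, hYP, hY0⟩ | ⟨Y, hYT, Y', hYT', hYn, hYn', hne, hYP, hYP'⟩
  · left
    obtain ⟨z, hz0, hz1, hz2⟩ := evb_key k p b V Y hYT hYP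
    refine ⟨z, hz0, ?_, ?_, hz2⟩
    · obtain ⟨x, hx⟩ := hYn
      obtain ⟨i, t, ht, rfl⟩ := evb_mem k p b x (hYT hx)
      exact ⟨i, t, ht, (hz1 i t ht).2 hx⟩
    · intro t ht
      by_contra hcon
      exact hY0 _ ((hz1 i₀ t ht).1 hcon) rfl
  · right
    obtain ⟨z, hz0, hz1, hz2⟩ := evb_key k p b V Y hYT hYP
    obtain ⟨z', hz0', hz1', hz2'⟩ := evb_key k p b V Y' hYT' hYP'
    refine ⟨z, z', hz0, hz0', ?_, ?_, ?_, hz2, hz2'⟩
    · obtain ⟨x, hx⟩ := hYn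
      obtain ⟨i, t, ht, rfl⟩ := evb_mem k p b x (hYT hx)
      exact ⟨i, t, ht, (hz1 i t ht).2 hx⟩
    · obtain ⟨x, hx⟩ := hYn'
      obtain ⟨i, t, ht, rfl⟩ := evb_mem k p b x (hYT' hx)
      exact ⟨i, t, ht, (hz1' i t ht).2 hx⟩
    · by_contra hcon
      push Not at hcon
      apply hne
      ext x
      constructor
      · intro hx
        obtain ⟨i, t, ht, rfl⟩ := evb_mem k p b x (hYT hx)
        by_contra hx'
        have h3 : z' i t = 0 := by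
          by_contra h4
          exact hx' ((hz1' i t ht).1 h4)
        have h4 := (hcon i t ht).2 ((hz1 i t ht).2 hx)
        exact h4 h3
      · intro hx
        obtain ⟨i, t, ht, rfl⟩ := evb_mem k p b x (hYT' hx)
        by_contra hx'
        have h3 : z i t = 0 := by
          by_contra h4
          exact hx' ((hz1 i t ht).1 h4)
        have h4 := (hcon i t ht).1 h3
        exact ((hz1' i t ht).2 hx) h4

end Pool.Agent.TWC
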