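import Pool.Agent.TWB.CLO

/-!
LIM.  Positive relations of a small perturbation have limits.

Proof.  For a finset `F` let `A F` be the set of `ε` such that there is `z : σ → ℝ` with `0 ≤ z x ≤ 1`
(all `x`), `Σ_{x∈F} z x = 1` and `Σ_{x∈F} z x * (u x i + ε * w x i) = 0` for all `i`: closed (projection
of a closed subset of `ℝ × compact`, see the proof of `CLO` in `Pool/Agent/TWB/CLO.lean`).  If
`0 ∈ A F` then `Y = {x ∈ F | 0 < z x}` is nonempty (sum `1`), `Y ⊆ F`, and `z` is a positive relation on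
`Y`.  If `0 ∉ A F` there is `ε_F > 0` with `(-ε_F, ε_F)` disjoint to `A F` (`Metric.isOpen_iff`); for
`0 < ε < ε_F` there is no positive relation on `F` at `ε` (divide `z` by `Σ_F z > 0`, `F` nonempty, put
`z = 0` outside `F`).  `ε₀` = minimum of the `ε_F` over the finitely many `F` (e.g. `Finset.exists_min..`,
or induction, or `Filter.Eventually` in `nhdsWithin 0 (Ioi 0)`: `Filter.eventually_all` over the finite
type `Finset σ`).
-/

set_option autoImplicit false

namespace Pool.Agent.TWC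

open Pool.Agent.TWB

private def KL {σ : Type*} [Fintype σ] {N : ℕ} (u w : σ → Fin N → ℝ) (T : Finset σ) :
    Set (ℝ × (σ → Set.Icc (0 : ℝ) 1)) :=
  {q | ∑ x ∈ T, (q.2 x : ℝ) = 1} ∩
    ⋂ i : Fin N, {q | ∑ x ∈ T, (q.2 x : ℝ) * (u x i + q.1 * w x i) = 0}

private theorem KL_closed {σ : Type*} [Fintype σ] {N : ℕ} (u w : σ → Fin N → ℝ) (T : Finset σ) :
    IsClosed (KL u w T) := by
  refine IsClosed.inter (isClosed_eq ?_ continuous_const)
    (isClosed_iInter fun i => isClosed_eq ?_ continuous_const)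
  · refine continuous_finsetSum _ fun x _ => ?_
    exact continuous_subtype_val.comp ((continuous_apply x).comp continuous_snd)
  · refine continuous_finsetSum _ fun x _ => ?_
    refine (continuous_subtype_val.comp ((continuous_apply x).comp continuous_snd)).mul ?_
    exact continuous_const.add (continuous_fst.mul continuous_const)

private theorem KL_of_PosR {σ : Type*} [Fintype σ] {N : ℕ} (u w : σ → Fin N → ℝ) (T : Finset σ)
    (hTne : T.Nonempty) {ε : ℝ} (h : PosR (fun x i => u x i + ε * w x i) N T) :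
    ε ∈ Prod.fst '' KL u w T := by
  classical
  obtain ⟨z, hz, hr⟩ := h
  have hS : 0 < ∑ x ∈ T, z x := Finset.sum_pos hz hTne
  have h01 : ∀ x, (if x ∈ T then z x / ∑ x ∈ T, z x else 0) ∈ Set.Icc (0 : ℝ) 1 := by
    intro x
    split_ifs with hx
    · refine ⟨(div_pos (hz x hx) hS).le, ?_⟩
      rw [div_le_one hS]
      exact Finset.single_le_sum (fun y hy => (hz y hy).le) hx
    · exact ⟨le_rfl, zero_le_one⟩
  refine ⟨(ε, fun x => ⟨_, h01 x⟩), ⟨?_, ?_⟩, rfl⟩
  · show ∑ x ∈ T, (if x ∈ T then z x / ∑ x ∈ T, z x else 0) = 1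
    rw [Finset.sum_congr rfl fun x hx => if_pos hx, ← Finset.sum_div, div_self hS.ne']
  · rw [Set.mem_iInter]
    intro i
    show ∑ x ∈ T, (if x ∈ T then z x / ∑ x ∈ T, z x else 0) * (u x i + ε * w x i) = 0
    have e1 : ∀ x ∈ T, (if x ∈ T then z x / ∑ x ∈ T, z x else 0) * (u x i + ε * w x i) =
        z x * (u x i + ε * w x i) / ∑ x ∈ T, z x := by
      intro x hx
      rw [if_pos hx]
      ring
    rw [Finset.sum_congr rfl e1, ← Finset.sum_div, hr i i.2, zero_div]

private theorem KL_zero {σ : Type*} [Fintype σ] {N : ℕ} (u w : σ → Fin N → ℝ) (F : Finset σ)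
    (h : (0 : ℝ) ∈ Prod.fst '' KL u w F) : ∃ Y ⊆ F, Y.Nonempty ∧ PosR u N Y := by
  classical
  obtain ⟨⟨ε, z⟩, ⟨h1, h2⟩, h3⟩ := h
  simp only at h3
  subst h3
  have h1 : ∑ x ∈ F, (z x : ℝ) = 1 := h1
  refine ⟨F.filter fun x => 0 < (z x : ℝ), Finset.filter_subset _ _, ?_, fun x => z x,
    fun x hx => (Finset.mem_filter.1 hx).2, fun i _ => ?_⟩
  · by_contra hne
    rw [Finset.not_nonempty_iff_eq_empty, Finset.filter_eq_empty_iff] at hne
    have h4 : ∑ x ∈ F, (z x : ℝ) = 0 :=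
      Finset.sum_eq_zero fun x hx => le_antisymm (not_lt.1 (hne hx)) (z x).2.1
    rw [h4] at h1
    exact zero_ne_one h1
  · have h4 := Set.mem_iInter.1 h2 i
    have h5 : ∑ x ∈ F, (z x : ℝ) * (u x i + 0 * w x i) = 0 := h4
    rw [Finset.sum_filter]
    refine (Finset.sum_congr rfl fun x _ => ?_).trans h5
    by_cases hx : 0 < (z x : ℝ)
    · rw [if_pos hx]
      ring
    · rw [if_neg hx, le_antisymm (not_lt.1 hx) (z x).2.1, zero_mul]

theorem LIM {σ : Type*} [Fintype σ] {N : ℕ} (u w : σ → Fin N → ℝ) :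
    ∃ ε₀ : ℝ, 0 < ε₀ ∧ ∀ ε : ℝ, 0 < ε → ε < ε₀ → ∀ F : Finset σ, F.Nonempty →
      PosR (fun x i => u x i + ε * w x i) N F → ∃ Y ⊆ F, Y.Nonempty ∧ PosR u N Y := by
  classical
  have key : ∀ F : Finset σ, ∃ e : ℝ, 0 < e ∧ ∀ ε : ℝ, 0 < ε → ε < e → F.Nonempty →
      PosR (fun x i => u x i + ε * w x i) N F → ∃ Y ⊆ F, Y.Nonempty ∧ PosR u N Y := by
    intro F
    by_cases h0 : (0 : ℝ) ∈ Prod.fst '' KL u w F
    · exact ⟨1, one_pos, fun _ _ _ _ _ => KL_zero u w F h0⟩
    · have hc : IsClosed (Prod.fst '' KL u w F) := isClosedMap_fst_of_compactSpace _ (KL_closed u w F)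
      obtain ⟨e, he, hb⟩ := Metric.isOpen_iff.1 hc.isOpen_compl 0 h0
      refine ⟨e, he, fun ε hε hεe hne hP => ?_⟩
      have h1 : ε ∈ Metric.ball (0 : ℝ) e := by
        rw [Metric.mem_ball, Real.dist_eq, sub_zero, abs_of_pos hε]
        exact hεe
      exact absurd (KL_of_PosR u w F hne hP) (hb h1)
  choose e he hk using key
  refine ⟨Finset.univ.inf' ⟨∅, Finset.mem_univ _⟩ e, ?_, fun ε hε hεe F hne hP => ?_⟩
  · rw [Finset.lt_inf'_iff]
    exact fun F _ => he F
  · exact hk F ε hε (hεe.trans_le (Finset.inf'_le _ (Finset.mem_univ F))) hne hP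

end Pool.Agent.TWC
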