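import Pool.Agent.TWC.EV0
import Pool.Agent.TWC.LIM
import Pool.Agent.TWB.PERT

/-!
EVEN.  `Σ (k i + 1) = N + 2`, all `k i` odd except possibly `k i₀`, arbitrary vectors in `ℝ^N`: some full
structure `T` contains a nonempty `Y` with a positive relation which does not meet circuit `i₀`, or two
different nonempty sets with positive relations.

Proof.  Suppose not.  `PERT` gives `w`; `LIM` for `u = uu v` and `uu w` gives `ε₀`; choose
`0 < ε < ε₀` outside the finite set of `PERT` (`Set.Finite` and `Set.Ioo_infinite`), so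
`v' j i = v j i + ε * w j i` is generic and `uu v' x i = uu v x i + ε * uu w x i`.
`𝒮` = the set (classical filter of `Finset.univ`, `Finset (Finset (Vx k × Bool))`) of all nonempty `Y` with
`PosR (uu v) N Y` and `Y ⊆ T` for some `T` with `Str k univ T`.  `EV0` for `v'`:
h0: otherwise first alternative.  hflp: `PosR_flp`, `flp T` is full again (`Str` with the signs
`fun i t => !(b i t)`; `Finset.image` of `biUnion`, of `arc`), `flp` is monotone and keeps nonempty.
h1: `F` nonempty (`N + 1` elements), `LIM`.  h2: otherwise second alternative.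
`1 ≤ k i₀` gives `m`.  `1 ≤ N`: `hN1`.
-/

set_option autoImplicit false

namespace Pool.Agent.TWC

open Pool.Agent.TWB

private theorem even_flp_arc {ι : Type*} [DecidableEq ι] (k : ι → ℕ) (i : ι) (p : ZMod (2 * k i + 1))
    (m : ℕ) (b : ℕ → Bool) : flp (arc k i p m b) = arc k i p m (fun t => !(b t)) := by
  unfold flp arc
  rw [Finset.image_image]
  rfl

private theorem even_flp_str {ι : Type*} [DecidableEq ι] (k : ι → ℕ) (S : Finset ι)
    {T : Finset (Vx k × Bool)} (hT : Str k S T) : Str k S (flp T) := by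
  obtain ⟨p, b, hb, rfl⟩ := hT
  refine ⟨p, fun i t => !(b i t), fun i hi => ?_, ?_⟩
  · show (!(b i (k i))) = !(!(b i 0))
    rw [hb i hi]
  · have h1 : flp (S.biUnion fun i => arc k i (p i) (k i + 1) (b i)) =
        S.biUnion fun i => flp (arc k i (p i) (k i + 1) (b i)) := by
      unfold flp
      rw [Finset.biUnion_image]
    rw [h1]
    refine Finset.biUnion_congr rfl fun i _ => ?_
    exact even_flp_arc k i (p i) (k i + 1) (b i)

theorem EVEN {ι : Type*} [Fintype ι] [DecidableEq ι] (k : ι → ℕ) (i₀ : ι)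
    (hk : ∀ i, i ≠ i₀ → k i % 2 = 1) (h1 : 1 ≤ k i₀) {N : ℕ} (hN1 : 1 ≤ N)
    (hN : N + 2 = ∑ i, (k i + 1)) (v : Vx k → Fin N → ℝ) :
    ∃ T : Finset (Vx k × Bool), Str k Finset.univ T ∧
      ((∃ Y ⊆ T, Y.Nonempty ∧ PosR (uu v) N Y ∧ ∀ x ∈ Y, x.1.1 ≠ i₀) ∨
       (∃ Y ⊆ T, ∃ Y' ⊆ T, Y.Nonempty ∧ Y'.Nonempty ∧ Y ≠ Y' ∧
          PosR (uu v) N Y ∧ PosR (uu v) N Y')) := by
  classical
  by_contra hno
  obtain ⟨w, hw⟩ := PERT v
  obtain ⟨ε₀, hε₀, hlim⟩ := LIM (uu v) (uu w)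
  obtain ⟨ε, hε, hεs⟩ := ((Set.Ioo_infinite hε₀).diff hw).nonempty
  have hgen : GenOn (fun j i => v j i + ε * w j i) (Finset.univ : Finset (Vx k)) := by
    by_contra h
    exact hεs h
  have huu : uu (fun j i => v j i + ε * w j i) = fun x i => uu v x i + ε * uu w x i := by
    funext x i
    unfold uu
    ring
  obtain ⟨m, hm⟩ : ∃ m, k i₀ = m + 1 := ⟨k i₀ - 1, by omega⟩
  refine EV0 k i₀ hk m hm hN1 hN (fun j i => v j i + ε * w j i) hgen
    (Finset.univ.filter fun Y : Finset (Vx k × Bool) => Y.Nonempty ∧ PosR (uu v) N Y ∧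
      ∃ T, Str k Finset.univ T ∧ Y ⊆ T) ?_ ?_ ?_ ?_ ?_
  · intro Y hY
    obtain ⟨-, hne, hP, T, hT, hYT⟩ := Finset.mem_filter.1 hY
    by_contra hcon
    push Not at hcon
    exact hno ⟨T, hT, Or.inl ⟨Y, hYT, hne, hP, hcon⟩⟩
  · intro Y hY
    obtain ⟨-, hne, hP, T, hT, hYT⟩ := Finset.mem_filter.1 hY
    refine Finset.mem_filter.2 ⟨Finset.mem_univ _, ?_, (PosR_flp v N Y).2 hP, flp T,
      even_flp_str k _ hT, ?_⟩
    · unfold flp
      exact hne.image _
    · unfold flp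
      exact Finset.image_subset_image hYT
  · intro Y hY
    obtain ⟨-, hne, hP, T, hT, hYT⟩ := Finset.mem_filter.1 hY
    exact ⟨T, hT, hYT⟩
  · intro T hT F hFT hcard hP
    rw [huu] at hP
    have hFne : F.Nonempty := by
      rw [← Finset.card_pos, hcard]
      omega
    obtain ⟨Y, hYF, hYne, hYP⟩ := hlim ε hε.1 hε.2 F hFne hP
    exact ⟨Y, Finset.mem_filter.2 ⟨Finset.mem_univ _, hYne, hYP, T, hT, hYF.trans hFT⟩, hYF⟩
  · intro T hT Y hY Y' hY' hYT hYT'
    obtain ⟨-, hne, hP, -⟩ := Finset.mem_filter.1 hY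
    obtain ⟨-, hne', hP', -⟩ := Finset.mem_filter.1 hY'
    by_contra hcon
    exact hno ⟨T, hT, Or.inr ⟨Y, hYT, Y', hYT', hne, hne', hcon, hP, hP'⟩⟩

end Pool.Agent.TWC
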