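import Pool.Agent.TWB.GW

/-!
GWS.  As `GW`, with the stronger conclusion that only the rows used by the matching `φ` are needed.

Proof.  Copy the proof of `GW` (`Pool/Agent/TWB/GW.lean`); the determinant `gwD o₁ o₂ X φ` only has the
rows `φ e'`, `e' ∈ X`, so in `gw_indep` the hypothesis `hy` is only used for `r = φ e'`.
-/

set_option autoImplicit false

namespace Pool.Agent.TWC

open Pool.Agent.TWB

open Classical in
private theorem gws_indep {E Q : Type*} [DecidableEq Q] {g : ℕ} (o₁ o₂ : E → Option Q)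
    (a b : E → ℝ) (γ : E → Fin g → ℝ) (X : Finset E) (φ : E → Q ⊕ Fin g)
    (hdet : Matrix.det (Matrix.of (fun e' e : X =>
      vec o₁ o₂ a b γ (e : E) (φ (e' : E)))) ≠ 0)
    (y : E → ℝ) (hy : ∀ e' ∈ X, ∑ e ∈ X, y e * vec o₁ o₂ a b γ e (φ e') = 0) :
    ∀ e ∈ X, y e = 0 := by
  have h := Matrix.eq_zero_of_mulVec_eq_zero hdet (v := fun e : X => y e) (by
    funext e'
    rw [Matrix.mulVec, dotProduct, Pi.zero_apply, ← hy (e' : E) e'.2,
      ← Finset.sum_coe_sort X (fun e => y e * vec o₁ o₂ a b γ e (φ (e' : E)))]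
    refine Finset.sum_congr rfl fun e _ => ?_
    rw [Matrix.of_apply, mul_comm])
  intro e he
  exact congrFun h ⟨e, he⟩

theorem GWS {E Q : Type*} [Fintype E] [Fintype Q] [DecidableEq Q] (g : ℕ)
    (o₁ o₂ : E → Option Q) :
    ∃ (a b : E → ℝ) (γ : E → Fin g → ℝ), (∀ e, 0 < a e) ∧ (∀ e, 0 < b e) ∧
      ∀ (X : Finset E) (φ : E → Q ⊕ Fin g), Set.InjOn φ (X : Set E) →
        (∀ e ∈ X, ∀ q, φ e = Sum.inl q → o₁ e = some q ∨ o₂ e = some q) →
        ∀ y : E → ℝ, (∀ e' ∈ X, ∑ e ∈ X, y e * vec o₁ o₂ a b γ e (φ e') = 0) →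
          ∀ e ∈ X, y e = 0 := by
  classical
  let P : MvPolynomial (E × (Bool ⊕ Fin g)) ℝ :=
    ∏ p ∈ (Finset.univ : Finset (Finset E × (E → Q ⊕ Fin g))).filter
      (fun p => gwA o₁ o₂ p.1 p.2), gwD o₁ o₂ p.1 p.2
  have hP : P ≠ 0 := by
    refine Finset.prod_ne_zero_iff.2 fun p hp => ?_
    exact gw_ne o₁ o₂ p.1 p.2 (Finset.mem_filter.1 hp).2
  have hex : ∃ w : E × (Bool ⊕ Fin g) → ℝ, (∀ x, 0 < w x) ∧ MvPolynomial.eval w P ≠ 0 := by
    by_contra hc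
    apply hP
    refine MvPolynomial.funext_set (fun _ => Set.Ioi (0 : ℝ)) (fun _ => Set.Ioi_infinite 0) ?_
    intro x hx
    rw [map_zero]
    by_contra h
    exact hc ⟨x, fun i => hx i (Set.mem_univ i), h⟩
  obtain ⟨w, hw, hPw⟩ := hex
  refine ⟨fun e => w (e, Sum.inl true), fun e => w (e, Sum.inl false),
    fun e s => w (e, Sum.inr s), fun e => hw _, fun e => hw _, ?_⟩
  intro X φ hφ1 hφ2 y hy
  have h1 : MvPolynomial.eval w (gwD o₁ o₂ X φ) ≠ 0 := by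
    have h2 : MvPolynomial.eval w P = ∏ p ∈ (Finset.univ : Finset (Finset E ×
        (E → Q ⊕ Fin g))).filter (fun p => gwA o₁ o₂ p.1 p.2),
        MvPolynomial.eval w (gwD o₁ o₂ p.1 p.2) := map_prod _ _ _
    rw [h2] at hPw
    exact Finset.prod_ne_zero_iff.1 hPw (X, φ)
      (Finset.mem_filter.2 ⟨Finset.mem_univ _, hφ1, hφ2⟩)
  rw [gw_evalD] at h1
  exact gws_indep o₁ o₂ _ _ _ X φ h1 y hy

end Pool.Agent.TWC
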