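import Pool.Agent.TWB.NU

/-!
IND.  Independence in terms of the coefficients of the arcs.

Proof.  As in `t2_ends` (`Pool/Agent/TWB/T2.lean`): `y e = Σ_{t < k e.1 + 1} (if e.2 = p e.1 + t then
sg (s e.1 t) * c e.1 t else 0)`; for `t ≤ k i`: `y ⟨i, p i + t⟩ = sg (s i t) * c i t` (`add_inj`).
`y e ≠ 0` implies `e = ⟨i, p i + t⟩` with `c i t ≠ 0`, so `e ∈ X`; hence
`Σ_{e∈X} y e * W e r = Σ_e y e * W e r = Σ_i Σ_t sg (s i t) * c i t * W ⟨i, p i + t⟩ r` for every `r`
(`Fintype.sum_sigma`, as there).  So `hInd` gives `y = 0` on `X` and `c i t = 0` (`sg ≠ 0`; if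
`⟨i, p i + t⟩ ∉ X` then `c i t = 0` by `hc`).
-/

set_option autoImplicit false

namespace Pool.Agent.TWC

open Pool.Agent.TWB

private theorem ind_sg_ne (b : Bool) : sg b ≠ 0 := by
  unfold sg
  split_ifs <;> norm_num

theorem IND {ι : Type*} [Fintype ι] [DecidableEq ι] (k : ι → ℕ) (p : ∀ i, ZMod (2 * k i + 1))
    (s : ι → ℕ → Bool) {R : Type*} (W : Vx k → R → ℝ) (X : Finset (Vx k)) (φ : Vx k → R)
    (hInd : ∀ y : Vx k → ℝ, (∀ e' ∈ X, ∑ e ∈ X, y e * W e (φ e') = 0) → ∀ e ∈ X, y e = 0)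
    (c : ι → ℕ → ℝ)
    (hc : ∀ i t, t ≤ k i → c i t ≠ 0 → (⟨i, p i + (t : ZMod (2 * k i + 1))⟩ : Vx k) ∈ X)
    (hrel : ∀ e' ∈ X, ∑ i, ∑ t ∈ Finset.range (k i + 1),
      sg (s i t) * c i t * W ⟨i, p i + (t : ZMod (2 * k i + 1))⟩ (φ e') = 0) :
    ∀ i t, t ≤ k i → c i t = 0 := by
  classical
  set y : Vx k → ℝ := fun e => ∑ t ∈ Finset.range (k e.1 + 1),
    (if e.2 = p e.1 + (t : ZMod (2 * k e.1 + 1)) then sg (s e.1 t) * c e.1 t else 0) with hy
  have hyv : ∀ (i : ι) (t : ℕ), t ≤ k i →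
      y ⟨i, p i + (t : ZMod (2 * k i + 1))⟩ = sg (s i t) * c i t := by
    intro i t ht
    rw [hy]
    dsimp only
    rw [Finset.sum_eq_single t]
    · rw [if_pos rfl]
    · intro t' ht' hne
      rw [if_neg]
      intro h
      exact hne (add_inj (k i) (p i) t t' ht (Nat.lt_succ_iff.1 (Finset.mem_range.1 ht')) h).symm
    · intro h
      exact absurd (Finset.mem_range.2 (Nat.lt_succ_of_le ht)) h
  have hy0 : ∀ e : Vx k, e ∉ X → y e = 0 := by
    intro e he
    rw [hy]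
    dsimp only
    refine Finset.sum_eq_zero fun t ht => ?_
    split_ifs with h
    · have ht' : t ≤ k e.1 := Nat.lt_succ_iff.1 (Finset.mem_range.1 ht)
      have h0 : c e.1 t = 0 := by
        by_contra hne
        apply he
        have h1 := hc e.1 t ht' hne
        rw [← h] at h1
        exact h1
      rw [h0, mul_zero]
    · rfl
  have hzero := hInd y (fun e' he' => by
    have h1 : ∑ e ∈ X, y e * W e (φ e') = ∑ e : Vx k, y e * W e (φ e') := by
      refine Finset.sum_subset (Finset.subset_univ _) fun e _ he => ?_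
      rw [hy0 e he, zero_mul]
    rw [h1, Fintype.sum_sigma]
    refine Eq.trans ?_ (hrel e' he')
    refine Finset.sum_congr rfl fun i _ => ?_
    have h2 : ∀ j : ZMod (2 * k i + 1), y ⟨i, j⟩ * W ⟨i, j⟩ (φ e') =
        ∑ t ∈ Finset.range (k i + 1), (if j = p i + (t : ZMod (2 * k i + 1)) then
          sg (s i t) * c i t * W ⟨i, j⟩ (φ e') else 0) := by
      intro j
      rw [hy]
      dsimp only
      rw [Finset.sum_mul]
      refine Finset.sum_congr rfl fun t _ => ?_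
      rw [ite_mul, zero_mul]
    rw [Finset.sum_congr rfl (fun j _ => h2 j), Finset.sum_comm]
    refine Finset.sum_congr rfl fun t _ => ?_
    rw [Finset.sum_ite_eq' Finset.univ]
    rw [if_pos (Finset.mem_univ _)])
  intro i t ht
  by_contra hne
  have h1 := hzero _ (hc i t ht hne)
  rw [hyv i t ht] at h1
  exact (mul_ne_zero (ind_sg_ne _) hne) h1

end Pool.Agent.TWC
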