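import Pool.Agent.TWC.GSOLV3
import Pool.Agent.TWB.TAU
import Pool.Agent.TWB.FLIPC
import Pool.Agent.Helper74.BIS.MAIN

/-!
MAIN4.  Cubic graphs with bridges: every piece has at most one hard circuit of length `1 mod 4`.
(Proof: as `MAIN2`, with `GSOLV3`.)
-/

set_option autoImplicit false

namespace Pool.Agent.TWC

open SimpleGraph Pool.Agent.TWB Pool.Agent.Helper74.BIS

theorem MAIN4 {V : Type*} [Finite V] (G F : SimpleGraph V) (μ : V → V) (hμ : ∀ v, μ (μ v) = v)
    (hFG : ∀ a b, G.Adj a b ↔ F.Adj a b ∨ b = μ a)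
    (hF : ∀ v, (F.neighborSet v).ncard = 2)
    (hard : F.ConnectedComponent → Prop)
    (hcls : ∀ K, hard K ∨ Even K.supp.ncard ∨ (∃ q ∈ K.supp, G.IsBridge s(q, μ q)) ∨
      (∃ q ∈ K.supp, ∃ a b, F.Adj q a ∧ F.Adj q b ∧ G.Adj a b))
    (hodd : ∀ K, hard K → Odd K.supp.ncard)
    (hcond : ∀ x : (G.deleteEdges {e | G.IsBridge e}).ConnectedComponent,
      ∀ K K', hard K → hard K' → (∃ u ∈ K.supp, u ∈ x.supp) → (∃ u ∈ K'.supp, u ∈ x.supp) →
        K.supp.ncard % 4 = 1 → K'.supp.ncard % 4 = 1 → K = K') :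
    ∃ c : V → Bool, (∀ v, c (μ v) ≠ c v) ∧
      ∀ v a b, G.Adj v a → G.Adj v b → c a = c v → c b = c v → a = b := by
  classical
  have hμG : ∀ v, G.Adj v (μ v) := fun v => (hFG v (μ v)).2 (Or.inr rfl)
  have hFG' : ∀ a b, F.Adj a b → G.Adj a b := fun a b h => (hFG a b).2 (Or.inl h)
  have hnbF : ∀ v w, F.Adj v w → ¬ G.IsBridge s(v, w) := by
    intro v w hvw hb
    have hcyc : F.IsCycles := fun v _ => hF v
    have h1 := hcyc.reachable_deleteEdges hvw
    have hle : F ≤ G := fun a b h => hFG' a b h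
    exact (hb.anti hle) h1
  -- matchings on the circuits which are not hard
  have hloc : ∀ K : F.ConnectedComponent, ∃ ν : V → V, (∀ v, ν (ν v) = v) ∧
      (∀ v, v ∉ K.supp → ν v = v) ∧ (hard K → ∀ v, ν v = v) ∧
      (¬ hard K → ∃ q, ∀ v ∈ K.supp, F.Adj v (ν v) ∨ (v = q ∧ ν v = v ∧ Spec G F μ v)) := by
    intro K
    by_cases hK : hard K
    · exact ⟨id, fun _ => rfl, fun _ _ => rfl, fun _ _ => rfl, fun h => absurd hK h⟩
    · obtain ⟨ν, h1, h2, h3⟩ := local_match G F μ hF K ((hcls K).resolve_left hK)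
      exact ⟨ν, h1, h2, fun h => absurd h hK, fun _ => h3⟩
  choose ν₀ hν1 hν2 hν3 hν4 using hloc
  let n0 : V → V := fun v => ν₀ (F.connectedComponentMk v) v
  have hn0c : ∀ v, F.connectedComponentMk (n0 v) = F.connectedComponentMk v :=
    glue F ν₀ hν1 hν2
  have hn0 : ∀ v, n0 (n0 v) = v := by
    intro v
    change ν₀ (F.connectedComponentMk (n0 v)) (n0 v) = v
    rw [hn0c]
    exact hν1 _ _
  have hn0F : ∀ v, n0 v ≠ v → F.Adj v (n0 v) := by
    intro v hv
    by_cases hK : hard (F.connectedComponentMk v)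
    · exact absurd (hν3 _ hK v) hv
    · obtain ⟨q, hq⟩ := hν4 _ hK
      rcases hq v rfl with h | h
      · exact h
      · exact absurd h.2.1 hv
  let m0 : V → V := fun v => if G.IsBridge s(v, μ v) then v else μ v
  have hm0 : ∀ v, m0 (m0 v) = v := by
    intro v
    by_cases h : G.IsBridge s(v, μ v)
    · simp only [m0, h, if_true]
    · have h' : ¬ G.IsBridge s(μ v, v) := by
        rw [Sym2.eq_swap]; exact h
      simp only [m0, h, if_false, hμ, h']
  -- the partner involution
  let U : Set V := {v | hard (F.connectedComponentMk v)}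
  have hU : ∀ v ∈ U, n0 v = v := fun v hv => hν3 _ hv v
  obtain ⟨τ, hτ, hτU, hτU', hτR, hτ2⟩ := TAU m0 n0 hm0 hn0 U hU
  let π : V → (G.deleteEdges {e | G.IsBridge e}).ConnectedComponent :=
    fun v => (G.deleteEdges {e | G.IsBridge e}).connectedComponentMk v
  have hπF : ∀ v w, F.Adj v w → π v = π w := by
    intro v w hvw
    apply ConnectedComponent.sound
    apply SimpleGraph.Adj.reachable
    rw [SimpleGraph.deleteEdges_adj]
    exact ⟨hFG' _ _ hvw, hnbF v w hvw⟩
  have hπm : ∀ v, π (m0 v) = π v := by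
    intro v
    by_cases h : G.IsBridge s(v, μ v)
    · simp only [m0, h, if_true]
    · simp only [m0, h, if_false]
      apply ConnectedComponent.sound
      apply SimpleGraph.Adj.reachable
      apply SimpleGraph.Adj.symm
      rw [SimpleGraph.deleteEdges_adj]
      exact ⟨hμG v, h⟩
  have hπn : ∀ v, π (n0 v) = π v := by
    intro v
    by_cases h : n0 v = v
    · rw [h]
    · exact (hπF _ _ (hn0F v h)).symm
  have hπR : ∀ v w, Relation.ReflTransGen (fun a b => b = m0 a ∨ b = n0 a) v w → π w = π v := by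
    intro v w h
    induction h with
    | refl => rfl
    | tail _ hbc ih =>
      rcases hbc with rfl | rfl
      · rw [hπm]; exact ih
      · rw [hπn]; exact ih
  obtain ⟨ν, r1, c1, hνν, hνc, hνnh, hνadj, hνfix, hνuniq, hc1τ⟩ :=
    GSOLV3 F hF π hπF hard hodd hcond
      τ hτ (fun v hv => hτU' v hv) (fun v => hπR v _ (hτR v))
  obtain ⟨c2, hc2m, hc2n, hc2U⟩ := FLIPC m0 n0 τ hm0 hn0 hτ U hU hτU' hτ2 c1
    (fun v hv h => hc1τ v hv h)
  -- the global matching
  let n : V → V := fun v => if hard (F.connectedComponentMk v) then ν v else n0 v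
  have hnc : ∀ v, F.connectedComponentMk (n v) = F.connectedComponentMk v := by
    intro v
    by_cases hK : hard (F.connectedComponentMk v)
    · simp only [n, hK, if_true]; exact hνc v
    · simp only [n, hK, if_false]; exact hn0c v
  have hn : ∀ v, n (n v) = v := by
    intro v
    by_cases hK : hard (F.connectedComponentMk v)
    · have h1 : n v = ν v := by simp only [n, hK, if_true]
      have h2 : hard (F.connectedComponentMk (ν v)) := by rw [hνc]; exact hK
      rw [h1]
      simp only [n, h2, if_true]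
      exact hνν v
    · have h1 : n v = n0 v := by simp only [n, hK, if_false]
      have h2 : ¬ hard (F.connectedComponentMk (n0 v)) := by rw [hn0c]; exact hK
      rw [h1]
      simp only [n, h2, if_false]
      exact hn0 v
  have hkind : ∀ v, F.Adj v (n v) ∨ (n v = v ∧ Spec G F μ v ∧ ¬ hard (F.connectedComponentMk v)) ∨
      (n v = v ∧ hard (F.connectedComponentMk v)) := by
    intro v
    by_cases hK : hard (F.connectedComponentMk v)
    · have h1 : n v = ν v := by simp only [n, hK, if_true]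
      rw [h1]
      by_cases h2 : ν v = v
      · exact Or.inr (Or.inr ⟨h2, hK⟩)
      · exact Or.inl (hνadj v h2).1
    · have h1 : n v = n0 v := by simp only [n, hK, if_false]
      rw [h1]
      obtain ⟨q, hq⟩ := hν4 _ hK
      rcases hq v rfl with h | ⟨_, h3, h4⟩
      · exact Or.inl h
      · exact Or.inr (Or.inl ⟨h3, h4, hK⟩)
  have hfix : ∀ v w, F.connectedComponentMk v = F.connectedComponentMk w → n v = v → n w = w →
      v = w := by
    intro v w hvw hv hw
    by_cases hK : hard (F.connectedComponentMk v)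
    · have hK' : hard (F.connectedComponentMk w) := by rw [← hvw]; exact hK
      have h1 : n v = ν v := by simp only [n, hK, if_true]
      have h2 : n w = ν w := by simp only [n, hK', if_true]
      exact hνuniq v w hK hvw (h1 ▸ hv) (h2 ▸ hw)
    · have hK' : ¬ hard (F.connectedComponentMk w) := by rw [← hvw]; exact hK
      obtain ⟨q, hq⟩ := hν4 _ hK
      have h1 : n v = n0 v := by simp only [n, hK, if_false]
      have h2 : n w = n0 w := by simp only [n, hK', if_false]
      have hv' : v = q := by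
        rcases hq v rfl with h | h
        · exfalso
          change F.Adj v (n0 v) at h
          rw [← h1, hv] at h
          exact F.irrefl h
        · exact h.1
      have hw' : w = q := by
        rcases hq w (by rw [ConnectedComponent.mem_supp_iff]; exact hvw.symm) with h | h
        · exfalso
          rw [hvw] at h
          change F.Adj w (n0 w) at h
          rw [← h2, hw] at h
          exact F.irrefl h
        · exact h.1
      exact hv'.trans hw'.symm
  have hnF : ∀ v, n v ≠ v → F.Adj v (n v) := by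
    intro v hv
    rcases hkind v with h | h | h
    · exact h
    · exact absurd h.1 hv
    · exact absurd h.1 hv
  have hnbr : ∀ v, ∃ w, F.Adj v w ∧ (n v = v → hard (F.connectedComponentMk v) →
      c2 w ≠ c2 v) := by
    intro v
    by_cases hK : n v = v ∧ hard (F.connectedComponentMk v)
    · have h1 : n v = ν v := by simp only [n, hK.2, if_true]
      obtain ⟨h2, h3⟩ := hνfix v hK.2 (h1 ▸ hK.1)
      refine ⟨r1 v, h2, fun _ _ => ?_⟩
      have h4 : r1 v ∈ U := by
        change hard (F.connectedComponentMk (r1 v))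
        rw [← (ConnectedComponent.eq.2 h2.reachable : F.connectedComponentMk v = _)]
        exact hK.2
      rw [hc2U _ h4, hc2U v hK.2]
      exact h3
    · have h1 : (F.neighborSet v).Nonempty := by
        apply Set.nonempty_of_ncard_ne_zero
        rw [hF]
        norm_num
      obtain ⟨w, hw⟩ := h1
      exact ⟨w, hw, fun h2 h3 => absurd ⟨h2, h3⟩ hK⟩
  choose r hr hr2 using hnbr
  let S : V → Prop := fun v => n v = v ∧
    (G.IsBridge s(v, μ v) ∨ hard (F.connectedComponentMk v))
  let SH : V → Prop := fun v => n v = v ∧ hard (F.connectedComponentMk v)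
  let H' : SimpleGraph V := SimpleGraph.fromRel
    (fun a b => b = μ a ∨ b = n a ∨ (S a ∧ b = r a))
  let H : SimpleGraph V := SimpleGraph.fromRel
    (fun a b => b = m0 a ∨ b = n a ∨ (SH a ∧ b = r a))
  have hH'adj : ∀ a b, H'.Adj a b ↔ a ≠ b ∧
      (b = μ a ∨ b = n a ∨ (S a ∧ b = r a) ∨ (S b ∧ a = r b)) := by
    intro a b
    simp only [H', SimpleGraph.fromRel_adj]
    constructor
    · rintro ⟨h1, (h | h | h) | (h | h | h)⟩
      · exact ⟨h1, Or.inl h⟩
      · exact ⟨h1, Or.inr (Or.inl h)⟩
      · exact ⟨h1, Or.inr (Or.inr (Or.inl h))⟩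
      · exact ⟨h1, Or.inl (by rw [h, hμ])⟩
      · exact ⟨h1, Or.inr (Or.inl (by rw [h, hn]))⟩
      · exact ⟨h1, Or.inr (Or.inr (Or.inr h))⟩
    · rintro ⟨h1, h | h | h | h⟩
      · exact ⟨h1, Or.inl (Or.inl h)⟩
      · exact ⟨h1, Or.inl (Or.inr (Or.inl h))⟩
      · exact ⟨h1, Or.inl (Or.inr (Or.inr h))⟩
      · exact ⟨h1, Or.inr (Or.inr (Or.inr h))⟩
  have hHadj : ∀ a b, H.Adj a b ↔ a ≠ b ∧
      (b = m0 a ∨ b = n a ∨ (SH a ∧ b = r a) ∨ (SH b ∧ a = r b)) := by
    intro a b
    simp only [H, SimpleGraph.fromRel_adj]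
    constructor
    · rintro ⟨h1, (h | h | h) | (h | h | h)⟩
      · exact ⟨h1, Or.inl h⟩
      · exact ⟨h1, Or.inr (Or.inl h)⟩
      · exact ⟨h1, Or.inr (Or.inr (Or.inl h))⟩
      · exact ⟨h1, Or.inl (by rw [h, hm0])⟩
      · exact ⟨h1, Or.inr (Or.inl (by rw [h, hn]))⟩
      · exact ⟨h1, Or.inr (Or.inr (Or.inr h))⟩
    · rintro ⟨h1, h | h | h | h⟩
      · exact ⟨h1, Or.inl (Or.inl h)⟩
      · exact ⟨h1, Or.inl (Or.inr (Or.inl h))⟩
      · exact ⟨h1, Or.inl (Or.inr (Or.inr h))⟩
      · exact ⟨h1, Or.inr (Or.inr (Or.inr h))⟩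
  have hH'G : H' ≤ G := by
    intro a b hab
    rw [hH'adj] at hab
    rcases hab with ⟨h1, h | h | h | h⟩
    · rw [h]; exact hμG a
    · rw [h]
      exact hFG' _ _ (hnF a (fun h2 => h1 (by rw [h, h2])))
    · rw [h.2]; exact hFG' _ _ (hr a)
    · rw [h.2]; exact (hFG' _ _ (hr b)).symm
  have hbrH' : ∀ e, G.IsBridge e → H'.IsBridge e := fun e he => he.anti hH'G
  have hSHS : ∀ v, SH v → S v := fun v hv => ⟨hv.1, Or.inr hv.2⟩
  have hHH' : H ≤ H' := by
    intro a b hab
    rw [hHadj] at hab
    rw [hH'adj]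
    refine ⟨hab.1, ?_⟩
    rcases hab.2 with h | h | h | h
    · by_cases hb : G.IsBridge s(a, μ a)
      · exfalso
        simp only [m0, hb, if_true] at h
        exact hab.1 h.symm
      · simp only [m0, hb, if_false] at h
        exact Or.inl h
    · exact Or.inr (Or.inl h)
    · exact Or.inr (Or.inr (Or.inl ⟨hSHS a h.1, h.2⟩))
    · exact Or.inr (Or.inr (Or.inr ⟨hSHS b h.1, h.2⟩))
  have hcompr : ∀ v, F.connectedComponentMk (r v) = F.connectedComponentMk v := by
    intro v
    exact (ConnectedComponent.eq.2 (hr v).reachable).symm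
  -- neighbours of a special vertex
  have hSn : ∀ q x, S q → H'.Adj q x → x = μ q ∨ x = r q := by
    intro q x hSq hqx
    rw [hH'adj] at hqx
    rcases hqx with ⟨h1, h | h | h | h⟩
    · exact Or.inl h
    · exfalso
      rw [hSq.1] at h
      exact h1 h.symm
    · exact Or.inr h.2
    · exfalso
      apply h1
      apply hfix q x _ hSq.1 h.1.1
      rw [h.2]
      exact hcompr x
  have hfirst : ∀ {x y : V} (p : H'.Walk x y), x ≠ y → ∃ z, H'.Adj x z ∧ s(x, z) ∈ p.edges := by
    intro x y p
    cases p with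
    | nil => intro h; exact absurd rfl h
    | cons h p' => intro _; exact ⟨_, h, by simp⟩
  -- case of an end of a bridge
  have hcaseg : ∀ q, S q → G.IsBridge s(q, μ q) → H'.IsBridge s(q, r q) := by
    intro q hSq hb
    by_contra hnb
    have hadj : H'.Adj q (r q) := by
      rw [hH'adj]
      exact ⟨(hr q).ne, Or.inr (Or.inr (Or.inl ⟨hSq, rfl⟩))⟩
    obtain ⟨p, hp⟩ := NB H' q (r q) hadj hnb
    obtain ⟨x, h, hx⟩ := hfirst p hadj.ne
    have h1 := hp _ hx
    rcases hSn q x hSq h with rfl | rfl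
    · exact h1.1 (hbrH' _ hb)
    · exact h1.2 rfl
  -- the base colouring
  have hbase : ∀ a b, H.Adj a b → c2 a ≠ c2 b := by
    intro a b hab
    rw [hHadj] at hab
    rcases hab with ⟨h1, h | h | h | h⟩
    · rw [h]
      exact (hc2m a (fun h2 => h1 (by rw [h, h2]))).symm
    · by_cases hK : hard (F.connectedComponentMk a)
      · have h2 : n a = ν a := by simp only [n, hK, if_true]
        rw [h2] at h
        have h3 : ν a ≠ a := fun h4 => h1 (by rw [h, h4])
        have h4 : ν a ∈ U := by
          change hard (F.connectedComponentMk (ν a))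
          rw [hνc]; exact hK
        rw [h, hc2U a hK, hc2U _ h4]
        exact (hνadj a h3).2.symm
      · have h2 : n a = n0 a := by simp only [n, hK, if_false]
        rw [h2] at h
        rw [h]
        exact (hc2n a (fun h4 => h1 (by rw [h, h4]))).symm
    · rw [h.2]
      exact (hr2 a h.1.1 h.1.2).symm
    · rw [h.2]
      exact hr2 b h.1.1 h.1.2
  obtain ⟨c, hc⟩ := BR H c2 hbase _ H' hHH' rfl
    (by
      intro a b hab hno
      rw [hH'adj] at hab
      rw [hHadj] at hno
      rcases hab with ⟨h1, h | h | h | h⟩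
      · by_cases hb : G.IsBridge s(a, μ a)
        · rw [h]; exact hbrH' _ hb
        · exfalso
          apply hno
          refine ⟨h1, Or.inl ?_⟩
          simp only [m0, hb, if_false]
          exact h
      · exact absurd ⟨h1, Or.inr (Or.inl h)⟩ hno
      · rw [h.2]
        rcases h.1.2 with h3 | h3
        · exact hcaseg a h.1 h3
        · exact absurd ⟨h1, Or.inr (Or.inr (Or.inl ⟨⟨h.1.1, h3⟩, h.2⟩))⟩ hno
      · rw [h.2, Sym2.eq_swap]
        rcases h.1.2 with h3 | h3
        · exact hcaseg b h.1 h3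
        · exact absurd ⟨h1, Or.inr (Or.inr (Or.inr ⟨⟨h.1.1, h3⟩, h.2⟩))⟩ hno)
  have hcμ : ∀ v, c (μ v) ≠ c v := by
    intro v
    refine (hc v (μ v) ?_).symm
    rw [hH'adj]
    exact ⟨(hμG v).ne, Or.inl rfl⟩
  have hcn : ∀ v, n v ≠ v → c (n v) ≠ c v := by
    intro v hv
    refine (hc v (n v) ?_).symm
    rw [hH'adj]
    exact ⟨hv.symm, Or.inr (Or.inl rfl)⟩
  have hcr : ∀ v, S v → c (r v) ≠ c v := by
    intro v hv
    refine (hc v (r v) ?_).symm
    rw [hH'adj]
    exact ⟨(hr v).ne, Or.inr (Or.inr (Or.inl ⟨hv, rfl⟩))⟩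
  refine ⟨c, hcμ, ?_⟩
  intro v a b ha hb hca hcb
  by_contra hab
  have ha' : F.Adj v a := by
    rcases (hFG v a).1 ha with h | h
    · exact h
    · exfalso; rw [h] at hca; exact hcμ v hca
  have hb' : F.Adj v b := by
    rcases (hFG v b).1 hb with h | h
    · exact h
    · exfalso; rw [h] at hcb; exact hcμ v hcb
  have hnone : ∀ x, F.Adj v x → c x ≠ c v → False := by
    intro x hx hcx
    rcases two_nbrs F hF ha' hb' hab hx with rfl | rfl
    · exact hcx hca
    · exact hcx hcb
  rcases hkind v with h | h | h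
  · exact hnone _ h (hcn v h.ne.symm)
  · rcases h.2.1 with hbr | ⟨a', b', ha2, hb2, hab2⟩
    · exact hnone _ (hr v) (hcr v ⟨h.1, Or.inl hbr⟩)
    · have hca' : c a' = c v := by
        by_contra h3; exact hnone _ ha2 h3
      have hcb' : c b' = c v := by
        by_contra h3; exact hnone _ hb2 h3
      rcases (hFG a' b').1 hab2 with h3 | h3
      · have hna : n a' ≠ a' := by
          intro h4
          have h5 := hfix a' v (ConnectedComponent.eq.2 ha2.symm.reachable) h4 h.1
          exact ha2.ne h5.symm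
        rcases two_nbrs F hF ha2.symm h3 (by rintro rfl; exact hb2.ne rfl) (hnF a' hna) with h4 | h4
        · apply hna
          have h5 := hn a'
          rw [h4, h.1] at h5
          rw [h4, h5]
        · apply hcn a' hna
          rw [h4, hca', hcb']
      · apply hcμ a'
        rw [← h3, hca', hcb']
  · exact hnone _ (hr v) (hcr v ⟨h.1, Or.inr h.2⟩)

end Pool.Agent.TWC
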