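import Pool.Agent.TWB.T3S

/-!
PEND.  Paths of two involutions have two ends: `m` without fixed points, `n u = u`: there is another
fixed point `w` of `n` reachable from `u`.

Proof.  Copy the proof of `PATHEND` (`Pool/Agent/TWB/T3S.lean`); `w = m ((n ∘ m)^a u)` is reachable from `u`
by `2 a + 1` steps (induction on `a`).  `w ≠ u`: as there, or: the path has an odd number `2 a + 1` of
steps; if `w = u` then `u = v_{2a+1}` and, going backwards, `v_b = v_{2a+1-b}` for all `b`, so
`v_a = v_{a+1} = ` the image of `v_a` under `m` (if `a` is even) or under `n` (`a` odd: `n v_a = v_a`,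
`v_a = m v_{a-1}`, against the minimality of `a`), or use the colouring `c` of `TWO m n`
(`Pool/Agent/Helper74/BIS/TWO.lean`) with the last statement of `PATHEND`'s proof (`c w ≠ c u`).
-/

set_option autoImplicit false

namespace Pool.Agent.TWC

open Pool.Agent.TWB

private theorem pend_bool (a b c : Bool) (h1 : b ≠ a) (h2 : c ≠ b) : c = a := by
  cases a <;> cases b <;> cases c <;> simp_all

theorem PEND {V : Type*} [Finite V] (m n : V → V) (hm : ∀ v, m (m v) = v)
    (hn : ∀ v, n (n v) = v) (hm1 : ∀ v, m v ≠ v) (u : V) (hu : n u = u) :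
    ∃ w, n w = w ∧ w ≠ u ∧ Relation.ReflTransGen (fun a b => b = m a ∨ b = n a) u w := by
  classical
  let ρ : Equiv.Perm V := ⟨fun v => n (m v), fun v => m (n v), fun v => by simp only [hn, hm],
    fun v => by simp only [hn, hm]⟩
  have hstep : ∀ a : ℕ, (ρ ^ (a + 1)) u = n (m ((ρ ^ a) u)) := by
    intro a
    rw [pow_succ']
    rfl
  have hex : ∃ a : ℕ, n (m ((ρ ^ a) u)) = m ((ρ ^ a) u) := by
    obtain ⟨p, hp0, hp⟩ := isOfFinOrder_iff_pow_eq_one.1 (isOfFinOrder_of_finite ρ)
    refine ⟨p - 1, ?_⟩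
    have h1 : n (m ((ρ ^ (p - 1)) u)) = u := by
      have h2 : (ρ * ρ ^ (p - 1)) u = u := by
        rw [← pow_succ', show p - 1 + 1 = p by omega, hp]
        rfl
      exact h2
    have h3 : m ((ρ ^ (p - 1)) u) = u := by
      have h4 := congrArg n h1
      rw [hn, hu] at h4
      exact h4
    rw [h3, hu]
  have key : ∀ c : V → Bool, (∀ v, c (m v) ≠ c v) → (∀ v, n v ≠ v → c (n v) ≠ c v) →
      c (m ((ρ ^ Nat.find hex) u)) ≠ c u := by
    intro c h1 h2
    have h3 : ∀ a : ℕ, a ≤ Nat.find hex → c ((ρ ^ a) u) = c u := by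
      intro a
      induction a with
      | zero => intro _; rfl
      | succ a ih =>
        intro ha
        have h4 := ih (by omega)
        have h5 : n (m ((ρ ^ a) u)) ≠ m ((ρ ^ a) u) := Nat.find_min hex (by omega)
        rw [hstep a, ← h4]
        exact pend_bool _ _ _ (h1 _) (h2 _ h5)
    intro h4
    apply h1 ((ρ ^ Nat.find hex) u)
    rw [h4, h3 _ le_rfl]
  have hreach : ∀ a : ℕ,
      Relation.ReflTransGen (fun a b => b = m a ∨ b = n a) u ((ρ ^ a) u) := by
    intro a
    induction a with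
    | zero => exact Relation.ReflTransGen.refl
    | succ a ih =>
      rw [hstep a]
      exact (ih.tail (Or.inl rfl)).tail (Or.inr rfl)
  refine ⟨m ((ρ ^ Nat.find hex) u), Nat.find_spec hex, ?_, (hreach _).tail (Or.inl rfl)⟩
  intro h
  obtain ⟨c, hc1, hc2⟩ := Helper74.BIS.TWO m n hm hn
  exact key c (fun v => hc1 v (hm1 v)) hc2 (by rw [h])

end Pool.Agent.TWC
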