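import Pool.Agent.TWC.SUPP
import Pool.Agent.TWB.TAU
import Pool.Agent.TWB.FLIPC
import Pool.Agent.TWC.PEND

/-!
REST.  Completion of a partial colouring.  `S` = set of the circuits which are not touched; all other
circuits except possibly `i₁` have both end edges in the support.

Proof.  `V = Vx k`, `e i t = ⟨i, p i + t⟩`, `W = {v | Cov k p z v}` (closed under `τ`).  For `i ∉ S` let
`m i` be the greatest `t ≤ k i` with `0 < z i t` (`hS'`), `p' i = p i + m i - k i`, `e' i t = ⟨i, p' i + t⟩`;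
so `e' i (k i) = e i (m i)`, and if both ends are positive `m i = k i`, `p' i = p i`.
(1) A vertex of circuit `i ∉ S` which is in `W` is an end of some `e i t = e' i (t + (k i - m i))` with
    `0 < z i t`, `t ≤ m i`.  So for `1 ≤ t' ≤ k i`: `hd (e' i t') ∈ W` iff `t = t' + m i - k i` is a natural
    number (i.e. `k i ≤ t' + m i`) with `0 < z i t`, and the same for `tl (e' i t')`, `t' < k i`
    (`two_inj`, `two_cross`, `add_inj`, `end_eq` for the arc `p' i, ..., p' i + k i`: `hd (e' t') = tl (e' t'')`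
    only for `t' = 0`, `t'' = k i`).  For `t' = k i`: `z i (m i) > 0`, both ends of `e' i (k i)` are in `W`.
    For vertices of circuits in `S`: not in `W` (`hS`).
(2) `n v` = if `v ∈ W` or `v.1 ∈ S` then `v` else `⟨v.1, nuZ (2 * p' v.1 + 1) v.2⟩`.  By `nuZ_edge`,
    `nuZ_nuZ`, `nuZ_cover` (for `p' i`): `nuZ (2 p' + 1)` exchanges `hd (e' i t')` and `tl (e' i t')`,
    `1 ≤ t' ≤ k i`, and fixes `2 p' + 1`; by (1) `hd (e' i t') ∈ W ↔ tl (e' i t') ∈ W` for `1 ≤ t' ≤ k i`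
    (`t' = k i`: both in `W`).  So `n` is an involution, and `v ∉ W`, `v.1 ∉ S`, `n v = v` only for
    `v = tl (e' i 0)` (`nuZ_ne`).
(3) `U = {v | v ∉ W ∧ n v = v}` = circuits in `S` and the vertices `u = tl (e' i 0) ∉ W`, `i ∉ S`.  If both
    ends of `i` are positive then `e' i 0 = e i 0`, `tl (e' i 0) ∈ W`; so there is at most one such `u`,
    `u = tl (e' i₁ 0)`, `i₁ ∉ S`.
(4) `TAU τ n U` (TAU.lean) gives an involution `t`, `t v ∈ U` for `v ∈ U`, and by `PEND` for every `v ∈ U`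
    there is a fixed point `w ≠ v` of `n` reachable from `v`, `w ∉ W`, since `τ` and `n` preserve the
    complement of `W` (`ReflTransGen` induction); so `w ∈ U`, hence `w = t v` and `t v ≠ v` for all `v ∈ U`.
(5) On `Vx (fun i : S => k i)` (embedding `emb v = ⟨v.1.1, v.2⟩`) let `t' v` = the preimage of
    `t (emb v)` if `(t (emb v)).1 ∈ S`, otherwise `v`: an involution.  `hSol t'` gives `p₀`, `c₀`.
(6) If there is `u` as in (3): `κ = !(c (hd (e' i₁ 0)))`, `q = t u ∈ U`, `q ≠ u`, so `q.1 ∈ S`; replacing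
    `c₀` by its negation we may assume `c₀ q ≠ κ`.  `c₁ : V → Bool`: `c₀` on the circuits of `S`, `κ` at `u`
    (and at all other vertices).  Then `c₁ (t v) ≠ c₁ v` for all `v ∈ U`: `v.1 ∈ S`, `(t v).1 ∈ S`:
    from `c₀` (`t' v ≠ v` as `t v ≠ v`); `v.1 ∈ S`, `(t v).1 ∉ S`: then `t v = u`, `v = q`; `v = u`: `t u = q`.
(7) `FLIPC τ n t U c₁` gives `c₂` alternating along `τ` and `n` with `c₂ = c₁` on `U`.  Result:
    colouring `v ↦ if v ∈ W then c v else c₂ v`, positions `p₀` on `S`, `p' i` for `i ∉ S`.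
    * `τ`: `W` is closed under `τ` (and its complement), `hc1` resp. `c₂`.
    * `i ∈ S`: no vertex in `W`, `c₂ = c₀` there.
    * `i ∉ S`, `1 ≤ t' ≤ k i`: if `hd (e' i t') ∈ W`: `e' i t' = e i t` with `0 < z i t`, `hc2`.  Otherwise both
      ends are not in `W` and exchanged by `n` (different: `nuZ_ne`), `c₂`.
    * `i ∉ S`, `t' = 0`: `hd (e' i 0) = tl (e' i (k i)) ∈ W`.  If `tl (e' i 0) ∈ W` then it is an end of some
      `e i t`, `0 < z i t`, which must be `e' i 0` (`tl` is injective, `tl (e' i 0) ≠ hd (e' i t')`,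
      `t' ≤ k i`, by `two_cross` as `0 < k i`), `hc2`.  Otherwise it is `u` and `i = i₁`:
      `c₂ u = κ ≠ c (hd (e' i₁ 0))`.
(Compare the proof of `FIXP`, `Pool/Agent/TWB/FIXP.lean`.)
-/

set_option autoImplicit false

namespace Pool.Agent.TWC

open Pool.Agent.TWB

private def emb57 {ι : Type*} (k : ι → ℕ) (S : Finset ι) (v : Vx (fun i : {i : ι // i ∈ S} => k i.1)) :
    Vx k := ⟨v.1.1, v.2⟩

private def back57 {ι : Type*} (k : ι → ℕ) (S : Finset ι) (v : Vx k) (h : v.1 ∈ S) :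
    Vx (fun i : {i : ι // i ∈ S} => k i.1) := ⟨⟨v.1, h⟩, v.2⟩

private theorem emb_back57 {ι : Type*} (k : ι → ℕ) (S : Finset ι) (v : Vx k) (h : v.1 ∈ S) :
    emb57 k S (back57 k S v h) = v := rfl

private theorem back_emb57 {ι : Type*} (k : ι → ℕ) (S : Finset ι)
    (v : Vx (fun i : {i : ι // i ∈ S} => k i.1)) (h : (emb57 k S v).1 ∈ S) :
    back57 k S (emb57 k S v) h = v := rfl

private theorem back_congr57 {ι : Type*} (k : ι → ℕ) (S : Finset ι) {v w : Vx k} (e : v = w)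
    (h : v.1 ∈ S) (h' : w.1 ∈ S) : back57 k S v h = back57 k S w h' := by
  subst e
  rfl

private theorem F157 {ι : Type*} (k : ι → ℕ) (p : ∀ i, ZMod (2 * k i + 1)) (i : ι) (t t' : ℕ)
    (ht : t ≤ k i) (ht' : t' ≤ k i)
    (h : hd (⟨i, p i + (t : ZMod (2 * k i + 1))⟩ : Vx k) =
      hd (⟨i, p i + (t' : ZMod (2 * k i + 1))⟩ : Vx k)) : t = t' := by
  have h2 : 2 * (p i + (t : ZMod (2 * k i + 1))) = 2 * (p i + (t' : ZMod (2 * k i + 1))) :=
    eq_of_heq (Sigma.mk.inj_iff.1 h).2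
  exact add_inj (k i) (p i) t t' ht ht' (two_inj (k i) _ _ h2)

private theorem F257 {ι : Type*} (k : ι → ℕ) (p : ∀ i, ZMod (2 * k i + 1)) (i : ι) (t t' : ℕ)
    (ht : t ≤ k i) (ht' : t' ≤ k i)
    (h : tl (⟨i, p i + (t : ZMod (2 * k i + 1))⟩ : Vx k) =
      tl (⟨i, p i + (t' : ZMod (2 * k i + 1))⟩ : Vx k)) : t = t' := by
  have h2 : 2 * (p i + (t : ZMod (2 * k i + 1))) + 1 = 2 * (p i + (t' : ZMod (2 * k i + 1))) + 1 :=
    eq_of_heq (Sigma.mk.inj_iff.1 h).2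
  exact add_inj (k i) (p i) t t' ht ht' (two_inj (k i) _ _ (add_right_cancel h2))

private theorem F357 {ι : Type*} (k : ι → ℕ) (p : ∀ i, ZMod (2 * k i + 1)) (i : ι) (t t' : ℕ)
    (ht : t ≤ k i) (ht' : t' ≤ k i)
    (h : hd (⟨i, p i + (t : ZMod (2 * k i + 1))⟩ : Vx k) =
      tl (⟨i, p i + (t' : ZMod (2 * k i + 1))⟩ : Vx k)) : t = 0 ∧ t' = k i := by
  have h2 : 2 * (p i + (t : ZMod (2 * k i + 1))) = 2 * (p i + (t' : ZMod (2 * k i + 1))) + 1 :=
    eq_of_heq (Sigma.mk.inj_iff.1 h).2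
  exact two_cross (k i) (p i) t t' ht ht' h2

private theorem bool57 (a b : Bool) (h : ¬ a ≠ b) : (!a) ≠ b := by
  cases a <;> cases b <;> simp_all

theorem REST {ι : Type*} [Fintype ι] [DecidableEq ι] (k : ι → ℕ) (hk : ∀ i, 1 ≤ k i)
    (τ : Vx k → Vx k) (hτ : ∀ v, τ (τ v) = v) (hf : ∀ v, τ v ≠ v)
    (p : ∀ i, ZMod (2 * k i + 1)) (z : ι → ℕ → ℝ) (c : Vx k → Bool)
    (hc1 : ∀ v, Cov k p z v → Cov k p z (τ v) ∧ c (τ v) ≠ c v)
    (hc2 : ∀ (i : ι) (t : ℕ), t ≤ k i → 0 < z i t →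
        c (hd (⟨i, p i + (t : ZMod (2 * k i + 1))⟩ : Vx k))
          ≠ c (tl (⟨i, p i + (t : ZMod (2 * k i + 1))⟩ : Vx k)))
    (S : Finset ι) (hS : ∀ i ∈ S, ∀ t ≤ k i, ¬ 0 < z i t)
    (hS' : ∀ i, i ∉ S → ∃ t ≤ k i, 0 < z i t)
    (hSol : Solv (fun i : {i : ι // i ∈ S} => k i.1)) (i₁ : ι)
    (h : ∀ i, i ∉ S → i ≠ i₁ → 0 < z i 0 ∧ 0 < z i (k i)) :
    ∃ (p : ∀ i, ZMod (2 * k i + 1)) (c : Vx k → Bool), (∀ v, τ v ≠ v → c (τ v) ≠ c v) ∧
      ∀ (i : ι) (t : ℕ), t ≤ k i →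
        c ⟨i, 2 * (p i + (t : ZMod (2 * k i + 1)))⟩
          ≠ c ⟨i, 2 * (p i + (t : ZMod (2 * k i + 1))) + 1⟩ := by
  classical
  -- the greatest positive positions
  obtain ⟨m, hm1, hm2⟩ : ∃ m : ι → ℕ, (∀ i, m i ≤ k i) ∧
      ∀ i, i ∉ S → 0 < z i (m i) ∧ ∀ t ≤ k i, 0 < z i t → t ≤ m i := by
    have key : ∀ i, ∃ m : ℕ, m ≤ k i ∧ (i ∉ S → 0 < z i m ∧ ∀ t ≤ k i, 0 < z i t → t ≤ m) := by
      intro i
      by_cases hi : i ∈ S
      · exact ⟨k i, le_rfl, fun h => absurd hi h⟩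
      · obtain ⟨t₀, ht₀, hz₀⟩ := hS' i hi
        obtain ⟨m, hm, hmax⟩ := Finset.exists_max_image
          ((Finset.range (k i + 1)).filter (fun t => 0 < z i t)) id
          ⟨t₀, Finset.mem_filter.2 ⟨Finset.mem_range.2 (by omega), hz₀⟩⟩
        rw [Finset.mem_filter, Finset.mem_range] at hm
        refine ⟨m, by omega, fun _ => ⟨hm.2, fun t ht hzt => ?_⟩⟩
        exact hmax t (Finset.mem_filter.2 ⟨Finset.mem_range.2 (by omega), hzt⟩)
    choose m h1 h2 using key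
    exact ⟨m, h1, h2⟩
  obtain ⟨p', hp'⟩ : ∃ p' : ∀ i, ZMod (2 * k i + 1), ∀ i, p' i = p i + (m i : ZMod (2 * k i + 1)) -
    (k i : ZMod (2 * k i + 1)) := ⟨_, fun _ => rfl⟩
  have hE : ∀ (i : ι) (t : ℕ), (⟨i, p i + (t : ZMod (2 * k i + 1))⟩ : Vx k) =
      ⟨i, p' i + ((t + (k i - m i) : ℕ) : ZMod (2 * k i + 1))⟩ := by
    intro i t
    have e : p i + (t : ZMod (2 * k i + 1)) =
        p' i + ((t + (k i - m i) : ℕ) : ZMod (2 * k i + 1)) := by
      rw [hp' i, Nat.cast_add, Nat.cast_sub (hm1 i)]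
      ring
    rw [e]
  let Pos : ι → ℕ → Prop := fun i t' => ∃ t, t ≤ k i ∧ 0 < z i t ∧ t + (k i - m i) = t'
  have fa : ∀ i t', Pos i t' → Cov k p z (hd (⟨i, p' i + (t' : ZMod (2 * k i + 1))⟩ : Vx k)) ∧
      Cov k p z (tl (⟨i, p' i + (t' : ZMod (2 * k i + 1))⟩ : Vx k)) ∧
      c (hd (⟨i, p' i + (t' : ZMod (2 * k i + 1))⟩ : Vx k)) ≠
        c (tl (⟨i, p' i + (t' : ZMod (2 * k i + 1))⟩ : Vx k)) := by
    rintro i t' ⟨t, ht, hzt, rfl⟩
    rw [← hE i t]
    exact ⟨⟨i, t, ht, hzt, Or.inl rfl⟩, ⟨i, t, ht, hzt, Or.inr rfl⟩, hc2 i t ht hzt⟩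
  have fb : ∀ i, i ∉ S → ∀ t', 1 ≤ t' → t' ≤ k i →
      Cov k p z (hd (⟨i, p' i + (t' : ZMod (2 * k i + 1))⟩ : Vx k)) → Pos i t' := by
    rintro i hi t' h1 h2 ⟨j, t, ht, hzt, hv⟩
    have hij : i = j := by
      rcases hv with hv | hv
      · exact congrArg Sigma.fst hv
      · exact congrArg Sigma.fst hv
    subst hij
    have htm := (hm2 i hi).2 t ht hzt
    have hmk := hm1 i
    rw [hE i t] at hv
    rcases hv with hv | hv
    · exact ⟨t, ht, hzt, (F157 k p' i _ _ h2 (by omega) hv).symm⟩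
    · have := (F357 k p' i _ _ h2 (by omega) hv).1
      omega
  have fc : ∀ i, i ∉ S → ∀ t', t' < k i →
      Cov k p z (tl (⟨i, p' i + (t' : ZMod (2 * k i + 1))⟩ : Vx k)) → Pos i t' := by
    rintro i hi t' h2 ⟨j, t, ht, hzt, hv⟩
    have hij : i = j := by
      rcases hv with hv | hv
      · exact congrArg Sigma.fst hv
      · exact congrArg Sigma.fst hv
    subst hij
    have htm := (hm2 i hi).2 t ht hzt
    have hmk := hm1 i
    rw [hE i t] at hv
    rcases hv with hv | hv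
    · have := (F357 k p' i _ _ (by omega) h2.le hv.symm).2
      omega
    · exact ⟨t, ht, hzt, (F257 k p' i _ _ h2.le (by omega) hv).symm⟩
  have fd : ∀ i, i ∉ S → Pos i (k i) := by
    intro i hi
    have hmk := hm1 i
    exact ⟨m i, hmk, (hm2 i hi).1, by omega⟩
  have f0 : ∀ i, tl (⟨i, p' i + ((0 : ℕ) : ZMod (2 * k i + 1))⟩ : Vx k) = ⟨i, 2 * p' i + 1⟩ := by
    intro i
    rw [Nat.cast_zero, add_zero]
    rfl
  have g0 : ∀ i, hd (⟨i, p' i + ((0 : ℕ) : ZMod (2 * k i + 1))⟩ : Vx k) =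
      tl (⟨i, p' i + ((k i : ℕ) : ZMod (2 * k i + 1))⟩ : Vx k) := by
    intro i
    change (⟨i, 2 * (p' i + ((0 : ℕ) : ZMod (2 * k i + 1)))⟩ : Vx k) =
      ⟨i, 2 * (p' i + ((k i : ℕ) : ZMod (2 * k i + 1))) + 1⟩
    rw [end_eq (k i) (p' i), Nat.cast_zero, add_zero]
  obtain ⟨s, hs⟩ : ∃ s : ∀ i, ZMod (2 * k i + 1), ∀ i, s i = 2 * p' i + 1 := ⟨_, fun _ => rfl⟩
  -- the ends of the edges are exchanged
  have hsw : ∀ i t', 1 ≤ t' → t' ≤ k i →
      nuH s (hd (⟨i, p' i + (t' : ZMod (2 * k i + 1))⟩ : Vx k)) =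
        tl (⟨i, p' i + (t' : ZMod (2 * k i + 1))⟩ : Vx k) := by
    intro i t' h1 h2
    change (⟨i, nuZ (s i) (2 * (p' i + (t' : ZMod (2 * k i + 1))))⟩ : Vx k) =
      ⟨i, 2 * (p' i + (t' : ZMod (2 * k i + 1))) + 1⟩
    rw [hs i, nuZ_edge (k i) (p' i) t' h1 h2]
  have hkey : ∀ i (x : ZMod (2 * k i + 1)), i ∉ S → ¬ Cov k p z (⟨i, x⟩ : Vx k) → x ≠ s i →
      ¬ Cov k p z (nuH s (⟨i, x⟩ : Vx k)) ∧ nuH s (⟨i, x⟩ : Vx k) ≠ ⟨i, x⟩ := by
    intro i x hi hx hxs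
    refine ⟨?_, ?_⟩
    · obtain ⟨t', h1, h2, h3⟩ := nuZ_cover (k i) (p' i) x (by rw [← hs i]; exact hxs)
      have hnp : ¬ Pos i t' := by
        intro hp
        obtain ⟨q1, q2, _⟩ := fa i t' hp
        rcases h3 with h3 | h3
        · apply hx
          rw [h3]
          exact q1
        · apply hx
          rw [h3]
          exact q2
      have hlt : t' < k i := by
        rcases h2.lt_or_eq with h4 | h4
        · exact h4
        · exact absurd (h4 ▸ fd i hi) hnp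
      rcases h3 with h3 | h3
      · have e1 : (⟨i, x⟩ : Vx k) = hd (⟨i, p' i + (t' : ZMod (2 * k i + 1))⟩ : Vx k) := by
          rw [h3]
          rfl
        rw [e1, hsw i t' h1 h2]
        exact fun h4 => hnp (fc i hi t' hlt h4)
      · have e1 : (⟨i, x⟩ : Vx k) = nuH s (hd (⟨i, p' i + (t' : ZMod (2 * k i + 1))⟩ : Vx k)) := by
          rw [hsw i t' h1 h2, h3]
          rfl
        rw [e1, nuH_nuH]
        exact fun h4 => hnp (fb i hi t' h1 h2 h4)
    · intro h4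
      have h5 : nuZ (s i) x = x := eq_of_heq (Sigma.mk.inj_iff.1 h4).2
      exact nuZ_ne (by omega) (by have := hk i; omega) (s i) x hxs h5
  -- the involution `n`
  obtain ⟨n, hn1, hn2, hn3⟩ : ∃ n : Vx k → Vx k,
      (∀ v, ¬ Cov k p z v → v.1 ∉ S → n v = nuH s v) ∧ (∀ v, Cov k p z v → n v = v) ∧
      (∀ v, v.1 ∈ S → n v = v) :=
    ⟨fun v => if Cov k p z v ∨ v.1 ∈ S then v else nuH s v,
      fun v h1 h2 => if_neg (fun h3 => h3.elim h1 h2), fun v h1 => if_pos (Or.inl h1),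
      fun v h1 => if_pos (Or.inr h1)⟩
  have hself : ∀ i, nuH s (⟨i, s i⟩ : Vx k) = ⟨i, s i⟩ := by
    intro i
    change (⟨i, nuZ (s i) (s i)⟩ : Vx k) = ⟨i, s i⟩
    rw [nuZ_self]
  have hnW : ∀ v, ¬ Cov k p z v → ¬ Cov k p z (n v) := by
    intro v hv
    by_cases hvS : v.1 ∈ S
    · rw [hn3 v hvS]
      exact hv
    · rw [hn1 v hv hvS]
      obtain ⟨i, x⟩ := v
      by_cases hx : x = s i
      · rw [hx, hself]
        rw [hx] at hv
        exact hv
      · exact (hkey i x hvS hv hx).1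
  have hnn : ∀ v, n (n v) = v := by
    intro v
    by_cases hv : Cov k p z v
    · rw [hn2 v hv, hn2 v hv]
    · by_cases hvS : v.1 ∈ S
      · rw [hn3 v hvS, hn3 v hvS]
      · have h1 := hnW v hv
        rw [hn1 v hv hvS] at h1 ⊢
        rw [hn1 (nuH s v) h1 hvS, nuH_nuH]
  have hU : ∀ v ∈ {v : Vx k | ¬ Cov k p z v ∧ n v = v}, n v = v := fun v hv => hv.2
  obtain ⟨t, ht1, ht2, ht3, ht4, ht5⟩ := TAU τ n hτ hnn {v : Vx k | ¬ Cov k p z v ∧ n v = v} hU
  have hτW : ∀ v, ¬ Cov k p z v → ¬ Cov k p z (τ v) := by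
    intro v hv h1
    apply hv
    have h2 := (hc1 (τ v) h1).1
    rwa [hτ] at h2
  have hreach : ∀ u w, ¬ Cov k p z u →
      Relation.ReflTransGen (fun a b => b = τ a ∨ b = n a) u w → ¬ Cov k p z w := by
    intro u w hu hR
    induction hR with
    | refl => exact hu
    | tail _ hbc ih =>
      rcases hbc with h1 | h1
      · rw [h1]
        exact hτW _ ih
      · rw [h1]
        exact hnW _ ih
  have htne : ∀ v ∈ {v : Vx k | ¬ Cov k p z v ∧ n v = v}, t v ≠ v := by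
    intro v hv
    obtain ⟨w, hw1, hw2, hw3⟩ := PEND τ n hτ hnn hf v hv.2
    rcases ht5 v hv w ⟨hreach v w hv.1 hw3, hw1⟩ hw3 with h1 | h1
    · exact absurd h1 hw2
    · rw [← h1]
      exact hw2
  -- the only point of `U` on the circuits outside `S`
  have huniq : ∀ v ∈ {v : Vx k | ¬ Cov k p z v ∧ n v = v}, v.1 ∉ S →
      v = (⟨i₁, s i₁⟩ : Vx k) := by
    rintro ⟨i, x⟩ ⟨hv1, hv2⟩ hvS
    have hx : x = s i := by
      by_contra hx
      rw [hn1 _ hv1 hvS] at hv2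
      exact (hkey i x hvS hv1 hx).2 hv2
    have hi : i = i₁ := by
      by_contra hi
      obtain ⟨h1, h2⟩ := h i hvS hi
      have h3 := (hm2 i hvS).2 (k i) le_rfl h2
      have h4 := hm1 i
      have h5 : Pos i 0 := ⟨0, Nat.zero_le _, h1, by omega⟩
      have h6 := (fa i 0 h5).2.1
      rw [f0, ← hs i, ← hx] at h6
      exact hv1 h6
    subst hi
    rw [hx]
  obtain ⟨t', ht'1, ht'2⟩ : ∃ t' : Vx (fun i : {i : ι // i ∈ S} => k i.1) →
      Vx (fun i : {i : ι // i ∈ S} => k i.1),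
      (∀ v (hv : (t (emb57 k S v)).1 ∈ S), t' v = back57 k S (t (emb57 k S v)) hv) ∧
      (∀ v, (t (emb57 k S v)).1 ∉ S → t' v = v) :=
    ⟨fun v => if hv : (t (emb57 k S v)).1 ∈ S then back57 k S (t (emb57 k S v)) hv else v,
      fun v hv => dif_pos hv, fun v hv => dif_neg hv⟩
  obtain ⟨p₀, c₀, hd1, hd2⟩ := hSol t' (by
    intro v
    by_cases hv : (t (emb57 k S v)).1 ∈ S
    · have e1 : emb57 k S (t' v) = t (emb57 k S v) := by
        rw [ht'1 v hv, emb_back57]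
      have e2 : t (emb57 k S (t' v)) = emb57 k S v := by rw [e1, ht1]
      have hv2 : (t (emb57 k S (t' v))).1 ∈ S := by
        rw [e2]
        exact v.1.2
      exact (ht'1 (t' v) hv2).trans
        ((back_congr57 k S e2 hv2 v.1.2).trans (back_emb57 k S v v.1.2))
    · rw [ht'2 v hv, ht'2 v hv])
  obtain ⟨κ, hκ⟩ : ∃ κ : Bool,
      κ = !(c (hd (⟨i₁, p' i₁ + ((0 : ℕ) : ZMod (2 * k i₁ + 1))⟩ : Vx k))) := ⟨_, rfl⟩
  obtain ⟨d₀, hd1', hd2', hd3'⟩ : ∃ d₀ : Vx (fun i : {i : ι // i ∈ S} => k i.1) → Bool,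
      (∀ v, t' v ≠ v → d₀ (t' v) ≠ d₀ v) ∧
      (∀ (i : {i : ι // i ∈ S}) (tt : ℕ), tt ≤ k i.1 →
        d₀ ⟨i, 2 * (p₀ i + (tt : ZMod (2 * k i.1 + 1)))⟩
          ≠ d₀ ⟨i, 2 * (p₀ i + (tt : ZMod (2 * k i.1 + 1))) + 1⟩) ∧
      (∀ hq : (t (⟨i₁, s i₁⟩ : Vx k)).1 ∈ S, d₀ (back57 k S (t (⟨i₁, s i₁⟩ : Vx k)) hq) ≠ κ) := by
    by_cases hq : (t (⟨i₁, s i₁⟩ : Vx k)).1 ∈ S
    · by_cases h1 : c₀ (back57 k S (t (⟨i₁, s i₁⟩ : Vx k)) hq) ≠ κ
      · exact ⟨c₀, hd1, hd2, fun _ => h1⟩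
      · refine ⟨fun v => !(c₀ v), fun v hv h2 => hd1 v hv (Bool.not_inj h2),
          fun i tt htt h2 => hd2 i tt htt (Bool.not_inj h2), fun _ => bool57 _ _ h1⟩
    · exact ⟨c₀, hd1, hd2, fun h1 => absurd h1 hq⟩
  obtain ⟨c₁, hc₁1, hc₁2⟩ : ∃ c₁ : Vx k → Bool,
      (∀ (v : Vx k) (hv : v.1 ∈ S), c₁ v = d₀ (back57 k S v hv)) ∧
      (∀ v : Vx k, v.1 ∉ S → c₁ v = κ) :=
    ⟨fun v => if hv : v.1 ∈ S then d₀ (back57 k S v hv) else κ, fun v hv => dif_pos hv,
      fun v hv => dif_neg hv⟩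
  obtain ⟨c₂, hf1, hf2, hf3⟩ := FLIPC τ n t hτ hnn ht1 {v : Vx k | ¬ Cov k p z v ∧ n v = v} hU
    ht3 ht5 c₁ (by
    intro v hv htv
    by_cases hvS : v.1 ∈ S
    · by_cases htS : (t v).1 ∈ S
      · rw [hc₁1 v hvS, hc₁1 (t v) htS]
        have e1 : emb57 k S (back57 k S v hvS) = v := emb_back57 k S v hvS
        have h2 : (t (emb57 k S (back57 k S v hvS))).1 ∈ S := by
          rw [e1]
          exact htS
        have e2 : t' (back57 k S v hvS) = back57 k S (t v) htS := by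
          rw [ht'1 _ h2]
          exact back_congr57 k S (by rw [e1]) _ _
        have h3 := hd1' (back57 k S v hvS) (by
          rw [e2]
          intro h4
          apply htv
          have h5 := congrArg (emb57 k S) h4
          rwa [emb_back57, emb_back57] at h5)
        rwa [e2] at h3
      · have e1 : t v = (⟨i₁, s i₁⟩ : Vx k) := huniq (t v) (ht3 v hv) htS
        have e2 : v = t (⟨i₁, s i₁⟩ : Vx k) := by rw [← e1, ht1]
        rw [hc₁2 (t v) htS, hc₁1 v hvS]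
        have h2 : (t (⟨i₁, s i₁⟩ : Vx k)).1 ∈ S := by
          rw [← e2]
          exact hvS
        have h3 := hd3' h2
        rw [back_congr57 k S e2 hvS h2]
        exact h3.symm
    · have e1 : v = (⟨i₁, s i₁⟩ : Vx k) := huniq v hv hvS
      have htS : (t v).1 ∈ S := by
        by_contra htS
        exact htv ((huniq (t v) (ht3 v hv) htS).trans e1.symm)
      rw [hc₁2 v hvS, hc₁1 (t v) htS]
      have h2 : (t (⟨i₁, s i₁⟩ : Vx k)).1 ∈ S := by
        rw [← e1]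
        exact htS
      have h3 := hd3' h2
      rw [back_congr57 k S (by rw [e1]) htS h2]
      exact h3)
  have hWS : ∀ v : Vx k, v.1 ∈ S → ¬ Cov k p z v := by
    rintro v hv ⟨i, tt, htt, hzt, h1⟩
    have hi : v.1 = i := by
      rcases h1 with h1 | h1
      · exact congrArg Sigma.fst h1
      · exact congrArg Sigma.fst h1
    rw [hi] at hv
    exact hS i hv tt htt hzt
  obtain ⟨P, hP1, hP2⟩ : ∃ P : ∀ i, ZMod (2 * k i + 1),
      (∀ i (hi : i ∈ S), P i = p₀ ⟨i, hi⟩) ∧ (∀ i, i ∉ S → P i = p' i) :=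
    ⟨fun i => if hi : i ∈ S then p₀ ⟨i, hi⟩ else p' i, fun i hi => dif_pos hi,
      fun i hi => dif_neg hi⟩
  refine ⟨P, fun v => if Cov k p z v then c v else c₂ v, fun v hv => ?_, fun i tt htt => ?_⟩
  · beta_reduce
    by_cases hvW : Cov k p z v
    · rw [if_pos hvW, if_pos (hc1 v hvW).1]
      exact (hc1 v hvW).2
    · rw [if_neg hvW, if_neg (hτW v hvW)]
      exact hf1 v hv
  · beta_reduce
    by_cases hi : i ∈ S
    · rw [hP1 i hi]
      have key : ∀ x : ZMod (2 * k i + 1), (if Cov k p z (⟨i, x⟩ : Vx k) then c ⟨i, x⟩ else c₂ ⟨i, x⟩) =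
          d₀ ⟨⟨i, hi⟩, x⟩ := by
        intro x
        have h1 : ¬ Cov k p z (⟨i, x⟩ : Vx k) := hWS _ hi
        rw [if_neg h1, hf3 _ ⟨h1, hn3 _ hi⟩, hc₁1 _ hi]
        rfl
      rw [key, key]
      exact hd2' ⟨i, hi⟩ tt htt
    · rw [hP2 i hi]
      have goal : (if Cov k p z (hd (⟨i, p' i + (tt : ZMod (2 * k i + 1))⟩ : Vx k)) then
            c (hd (⟨i, p' i + (tt : ZMod (2 * k i + 1))⟩ : Vx k)) else
            c₂ (hd (⟨i, p' i + (tt : ZMod (2 * k i + 1))⟩ : Vx k))) ≠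
          (if Cov k p z (tl (⟨i, p' i + (tt : ZMod (2 * k i + 1))⟩ : Vx k)) then
            c (tl (⟨i, p' i + (tt : ZMod (2 * k i + 1))⟩ : Vx k)) else
            c₂ (tl (⟨i, p' i + (tt : ZMod (2 * k i + 1))⟩ : Vx k))) := by
        by_cases hp : Pos i tt
        · obtain ⟨q1, q2, q3⟩ := fa i tt hp
          rw [if_pos q1, if_pos q2]
          exact q3
        · have hlt : tt < k i := by
            rcases htt.lt_or_eq with h4 | h4
            · exact h4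
            · exact absurd (h4 ▸ fd i hi) hp
          have h2 : ¬ Cov k p z (tl (⟨i, p' i + (tt : ZMod (2 * k i + 1))⟩ : Vx k)) :=
            fun h4 => hp (fc i hi tt hlt h4)
          rcases Nat.eq_zero_or_pos tt with h0 | h0
          · subst h0
            have h1 : Cov k p z (hd (⟨i, p' i + ((0 : ℕ) : ZMod (2 * k i + 1))⟩ : Vx k)) := by
              rw [g0 i]
              exact (fa i (k i) (fd i hi)).2.1
            rw [if_pos h1, if_neg h2]
            rw [f0, ← hs i] at h2 ⊢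
            have h3 : (⟨i, s i⟩ : Vx k) ∈ {v : Vx k | ¬ Cov k p z v ∧ n v = v} := by
              refine ⟨h2, ?_⟩
              rw [hn1 _ h2 hi, hself]
            have h4 := huniq _ h3 hi
            have h5 : i = i₁ := congrArg Sigma.fst h4
            subst h5
            rw [hf3 _ h3, hc₁2 _ hi, hκ]
            cases c (hd (⟨i, p' i + ((0 : ℕ) : ZMod (2 * k i + 1))⟩ : Vx k)) <;> simp
          · have h1 : ¬ Cov k p z (hd (⟨i, p' i + (tt : ZMod (2 * k i + 1))⟩ : Vx k)) :=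
              fun h4 => hp (fb i hi tt h0 htt h4)
            rw [if_neg h1, if_neg h2]
            have e1 : n (hd (⟨i, p' i + (tt : ZMod (2 * k i + 1))⟩ : Vx k)) =
                tl (⟨i, p' i + (tt : ZMod (2 * k i + 1))⟩ : Vx k) := by
              rw [hn1 _ h1 hi, hsw i tt h0 htt]
            have h3 : n (hd (⟨i, p' i + (tt : ZMod (2 * k i + 1))⟩ : Vx k)) ≠
                hd (⟨i, p' i + (tt : ZMod (2 * k i + 1))⟩ : Vx k) := by
              rw [e1]
              intro h4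
              have h5 := (F357 k p' i tt tt htt htt h4.symm).1
              omega
            have h4 := hf2 _ h3
            rw [e1] at h4
            exact h4.symm
      exact goal

end Pool.Agent.TWC
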