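import Pool.Agent.TWC.EVB
import Pool.Agent.TWC.GWS
import Pool.Agent.TWC.ENDS
import Pool.Agent.TWC.REST
import Pool.Agent.TWB.ROWS
import Pool.Agent.TWB.SOL3

/-!
NOFIX.  At least four circuits, at most one `k i₀` even, `τ` without fixed points: there is a solution.

Proof.  `ROWS` gives `Q`, `o`; the number of fixed points is `0`, so `2 * card Q = card (Vx k)
= Σ (2 k i + 1) = 2 Σ (k i + 1) - card ι`; hence `card ι` is even, `card ι = 2 (g + 2)` and
`card Q + g + 2 = Σ (k i + 1)`.  `GWS` with `g + 1` rows, `o₁ e = o (hd e)`, `o₂ e = o (tl e)` gives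
`a`, `b`, `γ`, `W = vec o₁ o₂ a b γ : Vx k → Q ⊕ Fin (g + 1) → ℝ`.  `EVB` with `ρ = Q ⊕ Fin g`,
`V e r = W e (em r)` (`card ρ + 2 = Σ (k i + 1)`; `ρ` nonempty: `Q` is nonempty as `card Q ≥ 1`) gives
`p`, `b`.
Second alternative `z, z'`: `EN2`; `z'' = z + z'` satisfies the hypotheses of `COL` (rows
`em (inl q) = inl q`): solution.
First alternative `z`: `EN3`: at most two circuits do not have both ends positive; `i₀` is one of them
(`z i₀ 0 = 0`).  `SUPP` gives `c`.  `S` = the finset of the `i` with `z i t = 0` for all `t ≤ k i`; all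
elements of `S` are among these at most two circuits, `i₀ ∈ S`, `S.card ≤ 2`.
`Solv (fun i : {i // i ∈ S} => k i.1)`: `SOL3` (card `≤ 2 ≤ 3`, at most one even).
If there is `i₁ ∉ S` which does not have both ends, it is the only one (`i₀ ∈ S` is the other);
otherwise take `i₁ = i₀`.  `REST`.
-/

set_option autoImplicit false

namespace Pool.Agent.TWC

open Pool.Agent.TWB

theorem NOFIX {ι : Type*} [Fintype ι] [DecidableEq ι] (k : ι → ℕ) (hk : ∀ i, 1 ≤ k i) (i₀ : ι)
    (hodd : ∀ i, i ≠ i₀ → k i % 2 = 1) (hr : 4 ≤ Fintype.card ι)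
    (τ : Vx k → Vx k) (hτ : ∀ v, τ (τ v) = v) (hf : ∀ v, τ v ≠ v) :
    ∃ (p : ∀ i, ZMod (2 * k i + 1)) (c : Vx k → Bool), (∀ v, τ v ≠ v → c (τ v) ≠ c v) ∧
      ∀ (i : ι) (t : ℕ), t ≤ k i →
        c ⟨i, 2 * (p i + (t : ZMod (2 * k i + 1)))⟩
          ≠ c ⟨i, 2 * (p i + (t : ZMod (2 * k i + 1))) + 1⟩ := by
  classical
  obtain ⟨Q, hQ1, hQ2, o, ho1, ho2, hcard⟩ := ROWS τ hτ
  have hfix0 : (Finset.univ.filter (fun v : Vx k => τ v = v)).card = 0 := by
    rw [Finset.card_eq_zero, Finset.filter_eq_empty_iff]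
    intro v _
    exact hf v
  have hcV : Fintype.card (Vx k) = ∑ i, (2 * k i + 1) := by
    rw [Fintype.card_sigma]
    exact Finset.sum_congr rfl fun i _ => ZMod.card _
  have hsum : ∑ i, (2 * k i + 1) + Fintype.card ι = 2 * ∑ i, (k i + 1) := by
    rw [Finset.mul_sum, ← Finset.card_univ, Finset.card_eq_sum_ones, ← Finset.sum_add_distrib]
    exact Finset.sum_congr rfl fun i _ => by ring
  have hge : 2 * Fintype.card ι ≤ ∑ i, (k i + 1) := by
    rw [← Finset.card_univ, mul_comm, ← smul_eq_mul]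
    exact Finset.card_nsmul_le_sum _ _ _ fun i _ => by
      have := hk i
      omega
  rw [hfix0, hcV] at hcard
  obtain ⟨g, hg⟩ : ∃ g, Fintype.card ι = 2 * (g + 2) := by
    refine ⟨Fintype.card ι / 2 - 2, ?_⟩
    omega
  have hQg : Fintype.card Q + g + 2 = ∑ i, (k i + 1) := by omega
  have hρ : Fintype.card (Q ⊕ Fin g) + 2 = ∑ i, (k i + 1) := by
    rw [Fintype.card_sum, Fintype.card_fin]
    omega
  have : Nonempty (Q ⊕ Fin g) := by
    rw [← Fintype.card_pos_iff]
    omega
  obtain ⟨a, b, γ, ha, hb, hW⟩ := GWS (E := Vx k) (Q := Q) (g + 1) (fun e => o (hd e))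
    (fun e => o (tl e))
  obtain ⟨p, s, hs, h⟩ := EVB k i₀ hodd (hk i₀) hρ
    (fun (e : Vx k) (r : Q ⊕ Fin g) =>
      vec (fun e : Vx k => o (hd e)) (fun e => o (tl e)) a b γ e (em r))
  rcases h with ⟨z, hz, hne, hz0, hrel⟩ | ⟨z, z', hz, hz', hne, hne', hdiff, hrel, hrel'⟩
  · have hbad := EN3 k hk τ hτ hf o ho1 ho2 g hg _ hW p s z hz hne hrel
    obtain ⟨c, hc1, hc2⟩ := SUPP k hk τ hτ hf o ho1 ho2 a b ha hb p s hs z hz
      (fun q => hrel (Sum.inl q))
    obtain ⟨S, hSdef⟩ : ∃ S : Finset ι, S = Finset.univ.filter (fun i => ∀ t ≤ k i, z i t = 0) :=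
      ⟨_, rfl⟩
    have hmem : ∀ i, i ∈ S ↔ ∀ t ≤ k i, z i t = 0 := by
      intro i
      rw [hSdef, Finset.mem_filter]
      exact ⟨fun h => h.2, fun h => ⟨Finset.mem_univ _, h⟩⟩
    have hi₀ : i₀ ∈ S := (hmem i₀).2 hz0
    have hsub : S ⊆ Finset.univ.filter (fun i => ¬ (0 < z i 0 ∧ 0 < z i (k i))) := by
      intro i hi
      rw [Finset.mem_filter]
      refine ⟨Finset.mem_univ _, fun h => ?_⟩
      rw [(hmem i).1 hi 0 (Nat.zero_le _)] at h
      exact lt_irrefl _ h.1
    have hScard : S.card ≤ 2 := (Finset.card_le_card hsub).trans hbad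
    have hS : ∀ i ∈ S, ∀ t ≤ k i, ¬ 0 < z i t := by
      intro i hi t ht
      rw [(hmem i).1 hi t ht]
      exact lt_irrefl _
    have hS' : ∀ i, i ∉ S → ∃ t ≤ k i, 0 < z i t := by
      intro i hi
      rw [hmem] at hi
      push Not at hi
      obtain ⟨t, ht, h⟩ := hi
      exact ⟨t, ht, lt_of_le_of_ne (hz i t) (Ne.symm h)⟩
    have hSol : Solv (fun i : {i : ι // i ∈ S} => k i.1) := by
      refine SOL3 _ (fun i => hk i.1) ?_ ?_
      · rw [Fintype.card_coe]
        omega
      · intro i i' h h'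
        have e1 : i.1 = i₀ := by
          by_contra hcon
          have := hodd i.1 hcon
          omega
        have e2 : i'.1 = i₀ := by
          by_contra hcon
          have := hodd i'.1 hcon
          omega
        exact Subtype.ext (e1.trans e2.symm)
    by_cases hex : ∃ i₁, i₁ ∉ S ∧ ¬ (0 < z i₁ 0 ∧ 0 < z i₁ (k i₁))
    · obtain ⟨i₁, h1, h2⟩ := hex
      refine REST k hk τ hτ hf p z c hc1 hc2 S hS hS' hSol i₁ ?_
      intro i hi hi1
      by_contra hcon
      have h3 : ({i₀, i₁, i} : Finset ι) ⊆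
          Finset.univ.filter (fun i => ¬ (0 < z i 0 ∧ 0 < z i (k i))) := by
        intro x hx
        rw [Finset.mem_insert, Finset.mem_insert, Finset.mem_singleton] at hx
        rcases hx with rfl | rfl | rfl
        · exact hsub hi₀
        · exact Finset.mem_filter.2 ⟨Finset.mem_univ _, h2⟩
        · exact Finset.mem_filter.2 ⟨Finset.mem_univ _, hcon⟩
      have h4 : ({i₀, i₁, i} : Finset ι).card = 3 := by
        rw [Finset.card_eq_three]
        refine ⟨i₀, i₁, i, ?_, ?_, ?_, rfl⟩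
        · intro h
          exact h1 (h ▸ hi₀)
        · intro h
          exact hi (h ▸ hi₀)
        · exact Ne.symm hi1
      have h5 := Finset.card_le_card h3
      omega
    · refine REST k hk τ hτ hf p z c hc1 hc2 S hS hS' hSol i₀ ?_
      intro i hi _
      by_contra hcon
      exact hex ⟨i, hi, hcon⟩
  · have hends := EN2 k hk τ hτ hf o ho1 ho2 g hg _ hW p s z z' hz hz' hne hne' hdiff hrel hrel'
    obtain ⟨c, hc1, hc2⟩ := COL k hk τ hτ o ho1 ho2 a b ha hb p s hs (fun i t => z i t + z' i t)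
      (fun i t => add_nonneg (hz i t) (hz' i t)) hends (fun q => by
        have h1 := hrel (Sum.inl q)
        have h2 := hrel' (Sum.inl q)
        have h3 := congrArg₂ (· + ·) h1 h2
        simp only [← Finset.sum_add_distrib, add_zero] at h3
        refine Eq.trans ?_ h3
        refine Finset.sum_congr rfl fun i _ => Finset.sum_congr rfl fun t _ => ?_
        simp only [em, Sum.map_inl, id_eq, vec]
        ring)
    exact ⟨p, c, hc1, fun i t ht => hc2 i t ht⟩

end Pool.Agent.TWC
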