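import Pool.Agent.TWC.NOFIX
import Pool.Agent.TWB.FIXP
import Pool.Agent.TWB.SOL3

/-!
SOLV1.  At most one `k i` even (any number of circuits): `Solv k`.

Proof.  Induction on `Fintype.card ι` (statement for all `ι`, `k`).  `card ι ≤ 3`: `SOL3`.
`card ι ≥ 4`: let `τ` be an involution.  If `τ ⟨l, a⟩ = ⟨l, a⟩`: `FIXP` for circuit `l`, the induction
hypothesis for `{i // i ≠ l}` (cardinality smaller: `Fintype.card_subtype_lt`).  Otherwise `NOFIX` with
`i₀` the circuit with `k i₀` even, if there is one, otherwise any `i₀`.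
-/

set_option autoImplicit false

namespace Pool.Agent.TWC

open Pool.Agent.TWB

universe u

private theorem solv1_aux (n : ℕ) : ∀ {ι : Type u} [Fintype ι] [DecidableEq ι] (k : ι → ℕ)
    (_ : ∀ i, 1 ≤ k i) (_ : ∀ i i', k i % 2 = 0 → k i' % 2 = 0 → i = i')
    (_ : Fintype.card ι = n), Solv k := by
  induction n using Nat.strong_induction_on with
  | _ n ih =>
    intro ι _ _ k hk hev hn
    by_cases h3 : Fintype.card ι ≤ 3
    · exact SOL3 k hk h3 hev
    · intro τ hτ
      by_cases hfix : ∃ v, τ v = v
      · obtain ⟨⟨l, a⟩, hq⟩ := hfix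
        refine FIXP k hk l ?_ τ hτ a hq
        refine ih (Fintype.card {i : ι // i ≠ l}) ?_ (fun i : {i : ι // i ≠ l} => k i.1)
          (fun i => hk i.1) (fun i i' h h' => Subtype.ext (hev _ _ h h')) rfl
        rw [← hn]
        exact Fintype.card_subtype_lt (x := l) (fun h => h rfl)
      · push Not at hfix
        by_cases hex : ∃ i₀, k i₀ % 2 = 0
        · obtain ⟨i₀, h0⟩ := hex
          exact NOFIX k hk i₀ (fun i hi => by
            by_contra hcon
            exact hi (hev i i₀ (by omega) h0)) (by omega) τ hτ hfix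
        · push Not at hex
          have : Nonempty ι := by
            rw [← Fintype.card_pos_iff]
            omega
          exact NOFIX k hk (Classical.arbitrary ι) (fun i _ => by
            have := hex i
            omega) (by omega) τ hτ hfix

theorem SOLV1 {ι : Type*} [Fintype ι] [DecidableEq ι] (k : ι → ℕ) (hk : ∀ i, 1 ≤ k i)
    (hev : ∀ i i', k i % 2 = 0 → k i' % 2 = 0 → i = i') : Solv k := by
  exact solv1_aux (Fintype.card ι) k hk hev rfl

end Pool.Agent.TWC
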