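import Pool.Agent.TWB.NU
import Pool.Agent.TWB.COL

/-!
SUPP.  The partial colouring from a relation: the covered vertices are closed under `τ`.

Proof.  As in `COL` (`Pool/Agent/TWB/COL.lean`; read its proof): `e i t = ⟨i, p i + t⟩` and
`A v = Σ_i Σ_{t < k i + 1} sg (s i t) * z i t * ((if hd (e i t) = v then a (e i t) else 0)
        - (if tl (e i t) = v then b (e i t) else 0))`.
(1) `A v + A (τ v) = 0` for all `v` (`τ v ≠ v` always; the row `q` with `o v = some q`).
(2) If `0 < z i t`, `t ≤ k i`: `A (hd (e i t))` is not `0` and has the sign `s i t`: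
    `1 ≤ t`: it is `sg (s i t) * z i t * a`; `t = 0`: it is
    `sg (s i 0) * (z i 0 * a (e i 0) + z i (k i) * b (e i (k i)))` (`hs`; `hd (e i 0) = tl (e i (k i))`).
    `A (tl (e i t))` is not `0` and has the opposite sign of `s i t`: `t < k i`: `- sg (s i t) * z i t * b`;
    `t = k i`: `A (tl (e i (k i))) = A (hd (e i 0))
    = - sg (s i (k i)) * (z i 0 * a (e i 0) + z i (k i) * b (e i (k i)))`.
(3) If `v` is not covered (`¬ Cov`), then `A v = 0` (every term with `z i t ≠ 0` has `hd (e i t) ≠ v`,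
    `tl (e i t) ≠ v`).
So for `v` covered `A v ≠ 0` by (2), `A (τ v) = - A v ≠ 0`, so `τ v` is covered by (3).
`c v = decide (0 < A v)`.
-/

set_option autoImplicit false

namespace Pool.Agent.TWC

open Pool.Agent.TWB

/-- `v` is an end of one of the edges `p i + t` with positive coefficient -/
def Cov {ι : Type*} (k : ι → ℕ) (p : ∀ i, ZMod (2 * k i + 1)) (z : ι → ℕ → ℝ) (v : Vx k) : Prop :=
  ∃ (i : ι) (t : ℕ), t ≤ k i ∧ 0 < z i t ∧
    (v = hd (⟨i, p i + (t : ZMod (2 * k i + 1))⟩ : Vx k) ∨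
      v = tl (⟨i, p i + (t : ZMod (2 * k i + 1))⟩ : Vx k))

private theorem sum43 {ι : Type*} [Fintype ι] [DecidableEq ι] (k : ι → ℕ) (F : ι → ℕ → ℝ)
    (i0 : ι) (t0 : ℕ) (ht0 : t0 ≤ k i0)
    (h : ∀ i t, t ≤ k i → ¬ (i = i0 ∧ t = t0) → F i t = 0) :
    ∑ i, ∑ t ∈ Finset.range (k i + 1), F i t = F i0 t0 := by
  rw [Finset.sum_eq_single i0]
  · rw [Finset.sum_eq_single t0]
    · intro t ht hne
      exact h i0 t (by rw [Finset.mem_range] at ht; omega) (fun hh => hne hh.2)
    · intro hn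
      exact absurd (Finset.mem_range.2 (by omega)) hn
  · intro i _ hne
    refine Finset.sum_eq_zero fun t ht => ?_
    exact h i t (by rw [Finset.mem_range] at ht; omega) (fun hh => hne hh.1)
  · intro hn
    exact absurd (Finset.mem_univ _) hn

private theorem zero43 {ι : Type*} [Fintype ι] (k : ι → ℕ) (F : ι → ℕ → ℝ)
    (h : ∀ i t, t ≤ k i → F i t = 0) :
    ∑ i, ∑ t ∈ Finset.range (k i + 1), F i t = 0 := by
  refine Finset.sum_eq_zero fun i _ => Finset.sum_eq_zero fun t ht => ?_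
  exact h i t (by rw [Finset.mem_range] at ht; omega)

private theorem sg43_not (β : Bool) : sg (!β) = - sg β := by
  cases β <;> simp [sg]

private theorem dec43 (β : Bool) {x y X Y : ℝ} (hx : 0 < x) (hy : 0 < y) (hX : X = sg β * x)
    (hY : Y = -(sg β * y)) : (0 < X ∧ ¬ 0 < Y) ∨ (¬ 0 < X ∧ 0 < Y) := by
  subst hX
  subst hY
  cases β
  · right
    simp only [sg]
    constructor
    · simp
      linarith
    · simp
      linarith
  · left
    simp only [sg]
    constructor
    · simp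
      linarith
    · simp
      linarith

theorem SUPP {ι : Type*} [Fintype ι] [DecidableEq ι] (k : ι → ℕ) (hk : ∀ i, 1 ≤ k i)
    (τ : Vx k → Vx k) (hτ : ∀ v, τ (τ v) = v) (hf : ∀ v, τ v ≠ v) {Q : Type*} [DecidableEq Q]
    (o : Vx k → Option Q) (ho1 : ∀ v, o v = none ↔ τ v = v)
    (ho2 : ∀ v w, τ v ≠ v → (o w = o v ↔ w = v ∨ w = τ v))
    (a b : Vx k → ℝ) (ha : ∀ e, 0 < a e) (hb : ∀ e, 0 < b e)
    (p : ∀ i, ZMod (2 * k i + 1)) (s : ι → ℕ → Bool) (hs : ∀ i, s i (k i) = !(s i 0))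
    (z : ι → ℕ → ℝ) (hz : ∀ i t, 0 ≤ z i t)
    (hrel : ∀ q : Q, ∑ i, ∑ t ∈ Finset.range (k i + 1), sg (s i t) * z i t *
      ((if o (hd (⟨i, p i + (t : ZMod (2 * k i + 1))⟩ : Vx k)) = some q
          then a ⟨i, p i + (t : ZMod (2 * k i + 1))⟩ else 0)
        - (if o (tl (⟨i, p i + (t : ZMod (2 * k i + 1))⟩ : Vx k)) = some q
          then b ⟨i, p i + (t : ZMod (2 * k i + 1))⟩ else 0)) = 0) :
    ∃ c : Vx k → Bool, (∀ v, Cov k p z v → Cov k p z (τ v) ∧ c (τ v) ≠ c v) ∧
      ∀ (i : ι) (t : ℕ), t ≤ k i → 0 < z i t →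
        c (hd (⟨i, p i + (t : ZMod (2 * k i + 1))⟩ : Vx k))
          ≠ c (tl (⟨i, p i + (t : ZMod (2 * k i + 1))⟩ : Vx k)) := by
  classical
  set e : ∀ _ : ι, ℕ → Vx k := fun i t => ⟨i, p i + (t : ZMod (2 * k i + 1))⟩ with he
  have F1 : ∀ i t i' t', t ≤ k i → t' ≤ k i' → hd (e i t) = hd (e i' t') → i = i' ∧ t = t' := by
    intro i t i' t' ht ht' h
    have h1 : i = i' := congrArg Sigma.fst h
    subst h1
    refine ⟨rfl, ?_⟩
    have h2 : 2 * (p i + (t : ZMod (2 * k i + 1))) = 2 * (p i + (t' : ZMod (2 * k i + 1))) := by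
      simpa [hd, he] using h
    exact add_inj (k i) (p i) t t' ht ht' (two_inj (k i) _ _ h2)
  have F2 : ∀ i t i' t', t ≤ k i → t' ≤ k i' → tl (e i t) = tl (e i' t') → i = i' ∧ t = t' := by
    intro i t i' t' ht ht' h
    have h1 : i = i' := congrArg Sigma.fst h
    subst h1
    refine ⟨rfl, ?_⟩
    have h2 : 2 * (p i + (t : ZMod (2 * k i + 1))) + 1 =
        2 * (p i + (t' : ZMod (2 * k i + 1))) + 1 := eq_of_heq (Sigma.mk.inj_iff.1 h).2
    exact add_inj (k i) (p i) t t' ht ht' (two_inj (k i) _ _ (add_right_cancel h2))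
  have F3 : ∀ i t i' t', t ≤ k i → t' ≤ k i' → hd (e i t) = tl (e i' t') →
      i = i' ∧ t = 0 ∧ t' = k i' := by
    intro i t i' t' ht ht' h
    have h1 : i = i' := congrArg Sigma.fst h
    subst h1
    have h2 : 2 * (p i + (t : ZMod (2 * k i + 1))) =
        2 * (p i + (t' : ZMod (2 * k i + 1))) + 1 := eq_of_heq (Sigma.mk.inj_iff.1 h).2
    have h3 := two_cross (k i) (p i) t t' ht ht' h2
    exact ⟨rfl, h3.1, h3.2⟩
  have F4 : ∀ i, tl (e i (k i)) = hd (e i 0) := by
    intro i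
    have h2 := end_eq (k i) (p i)
    change (⟨i, 2 * (p i + ((k i : ℕ) : ZMod (2 * k i + 1))) + 1⟩ : Vx k) =
      ⟨i, 2 * (p i + ((0 : ℕ) : ZMod (2 * k i + 1)))⟩
    rw [h2, Nat.cast_zero, add_zero]
  let H : Vx k → ℝ := fun v => ∑ i, ∑ t ∈ Finset.range (k i + 1),
    sg (s i t) * z i t * (if hd (e i t) = v then a (e i t) else 0)
  let L : Vx k → ℝ := fun v => ∑ i, ∑ t ∈ Finset.range (k i + 1),
    sg (s i t) * z i t * (if tl (e i t) = v then b (e i t) else 0)
  have H1 : ∀ i t, t ≤ k i → H (hd (e i t)) = sg (s i t) * z i t * a (e i t) := by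
    intro i t ht
    change (∑ i', ∑ t' ∈ Finset.range (k i' + 1),
      sg (s i' t') * z i' t' * (if hd (e i' t') = hd (e i t) then a (e i' t') else 0)) = _
    rw [sum43 k _ i t ht]
    · rw [if_pos rfl]
    · intro i' t' ht' hne
      rw [if_neg (fun h => hne (F1 i' t' i t ht' ht h)), mul_zero]
  have L1 : ∀ i t, t ≤ k i → L (tl (e i t)) = sg (s i t) * z i t * b (e i t) := by
    intro i t ht
    change (∑ i', ∑ t' ∈ Finset.range (k i' + 1),
      sg (s i' t') * z i' t' * (if tl (e i' t') = tl (e i t) then b (e i' t') else 0)) = _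
    rw [sum43 k _ i t ht]
    · rw [if_pos rfl]
    · intro i' t' ht' hne
      rw [if_neg (fun h => hne (F2 i' t' i t ht' ht h)), mul_zero]
  have H0 : ∀ i t, t ≤ k i → t ≠ k i → H (tl (e i t)) = 0 := by
    intro i t ht hne
    refine zero43 k _ fun i' t' ht' => ?_
    rw [if_neg (fun h => hne (F3 i' t' i t ht' ht h).2.2), mul_zero]
  have L0 : ∀ i t, t ≤ k i → t ≠ 0 → L (hd (e i t)) = 0 := by
    intro i t ht hne
    refine zero43 k _ fun i' t' ht' => ?_
    rw [if_neg (fun h => hne (F3 i t i' t' ht ht' h.symm).2.1), mul_zero]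
  let A : Vx k → ℝ := fun v => H v - L v
  have A1 : ∀ i t, t ≤ k i → t ≠ 0 → A (hd (e i t)) = sg (s i t) * (z i t * a (e i t)) := by
    intro i t ht hne
    change H _ - L _ = _
    rw [H1 i t ht, L0 i t ht hne]
    ring
  have A2 : ∀ i t, t ≤ k i → t ≠ k i → A (tl (e i t)) = -(sg (s i t) * (z i t * b (e i t))) := by
    intro i t ht hne
    change H _ - L _ = _
    rw [L1 i t ht, H0 i t ht hne]
    ring
  have A3 : ∀ i, A (hd (e i 0)) =
      sg (s i 0) * (z i 0 * a (e i 0) + z i (k i) * b (e i (k i))) := by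
    intro i
    change H _ - L _ = _
    rw [H1 i 0 (Nat.zero_le _), ← F4 i, L1 i (k i) le_rfl, hs i, sg43_not]
    ring
  have A4 : ∀ v, A (τ v) + A v = 0 := by
    intro v
    have hv := hf v
    obtain ⟨q, hq⟩ : ∃ q, o v = some q := by
      rcases h : o v with _ | q
      · exact absurd ((ho1 v).1 h) hv
      · exact ⟨q, rfl⟩
    have key : ∀ (w : Vx k) (x : ℝ), (if o w = some q then x else 0) =
        (if w = τ v then x else 0) + (if w = v then x else 0) := by
      intro w x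
      have h1 : o w = some q ↔ w = v ∨ w = τ v := by rw [← hq]; exact ho2 v w hv
      by_cases h2 : w = v
      · have h3 : w ≠ τ v := fun h => hv (h.symm.trans h2)
        rw [if_pos (h1.2 (Or.inl h2)), if_neg h3, if_pos h2, zero_add]
      · by_cases h3 : w = τ v
        · rw [if_pos (h1.2 (Or.inr h3)), if_pos h3, if_neg h2, add_zero]
        · rw [if_neg (fun h => (h1.1 h).elim h2 h3), if_neg h2, if_neg h3, add_zero]
    have h1 := hrel q
    rw [← h1]
    change ((∑ i, ∑ t ∈ Finset.range (k i + 1),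
      sg (s i t) * z i t * (if hd (e i t) = τ v then a (e i t) else 0)) -
      (∑ i, ∑ t ∈ Finset.range (k i + 1),
      sg (s i t) * z i t * (if tl (e i t) = τ v then b (e i t) else 0))) +
      ((∑ i, ∑ t ∈ Finset.range (k i + 1),
      sg (s i t) * z i t * (if hd (e i t) = v then a (e i t) else 0)) -
      (∑ i, ∑ t ∈ Finset.range (k i + 1),
      sg (s i t) * z i t * (if tl (e i t) = v then b (e i t) else 0))) = _
    rw [← Finset.sum_sub_distrib, ← Finset.sum_sub_distrib, ← Finset.sum_add_distrib]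
    refine Finset.sum_congr rfl fun i _ => ?_
    rw [← Finset.sum_sub_distrib, ← Finset.sum_sub_distrib, ← Finset.sum_add_distrib]
    refine Finset.sum_congr rfl fun t _ => ?_
    have k1 := key (hd (e i t)) (a (e i t))
    have k2 := key (tl (e i t)) (b (e i t))
    simp only [he] at k1 k2 ⊢
    rw [k1, k2]
    ring
  -- signs at the ends
  have B1 : ∀ i t, t ≤ k i → 0 < z i t → ∃ x, 0 < x ∧ A (hd (e i t)) = sg (s i t) * x := by
    intro i t ht hzt
    by_cases h0 : t = 0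
    · subst h0
      refine ⟨z i 0 * a (e i 0) + z i (k i) * b (e i (k i)), ?_, A3 i⟩
      exact add_pos_of_pos_of_nonneg (mul_pos hzt (ha _)) (mul_nonneg (hz i _) (hb _).le)
    · exact ⟨z i t * a (e i t), mul_pos hzt (ha _), A1 i t ht h0⟩
  have B2 : ∀ i t, t ≤ k i → 0 < z i t → ∃ y, 0 < y ∧ A (tl (e i t)) = -(sg (s i t) * y) := by
    intro i t ht hzt
    by_cases h1 : t = k i
    · refine ⟨z i 0 * a (e i 0) + z i (k i) * b (e i (k i)), ?_, ?_⟩
      · rw [h1] at hzt
        exact add_pos_of_nonneg_of_pos (mul_nonneg (hz i _) (ha _).le) (mul_pos hzt (hb _))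
      · rw [h1, F4 i, A3 i, hs i, sg43_not]
        ring
    · exact ⟨z i t * b (e i t), mul_pos hzt (hb _), A2 i t ht h1⟩
  have sgne : ∀ β : Bool, sg β ≠ 0 := by
    intro β
    cases β <;> simp [sg]
  have B3 : ∀ v, Cov k p z v → A v ≠ 0 := by
    rintro v ⟨i, t, ht, hzt, hv | hv⟩
    · obtain ⟨x, hx, h⟩ := B1 i t ht hzt
      rw [hv]
      change A (hd (e i t)) ≠ 0
      rw [h]
      exact mul_ne_zero (sgne _) hx.ne'
    · obtain ⟨y, hy, h⟩ := B2 i t ht hzt
      rw [hv]
      change A (tl (e i t)) ≠ 0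
      rw [h]
      exact neg_ne_zero.2 (mul_ne_zero (sgne _) hy.ne')
  have B4 : ∀ v, ¬ Cov k p z v → A v = 0 := by
    intro v hv
    have hH : H v = 0 := by
      refine zero43 k _ fun i t ht => ?_
      rcases (hz i t).eq_or_lt with hzt | hzt
      · rw [← hzt, mul_zero, zero_mul]
      · rw [if_neg (fun h => hv ⟨i, t, ht, hzt, Or.inl h.symm⟩), mul_zero]
    have hL : L v = 0 := by
      refine zero43 k _ fun i t ht => ?_
      rcases (hz i t).eq_or_lt with hzt | hzt
      · rw [← hzt, mul_zero, zero_mul]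
      · rw [if_neg (fun h => hv ⟨i, t, ht, hzt, Or.inr h.symm⟩), mul_zero]
    change H v - L v = 0
    rw [hH, hL, sub_zero]
  refine ⟨fun v => decide (0 < A v), fun v hv => ?_, fun i t ht hzt => ?_⟩
  · have h1 := B3 v hv
    have h2 := A4 v
    refine ⟨?_, ?_⟩
    · by_contra hn
      rw [B4 _ hn, zero_add] at h2
      exact h1 h2
    · intro h3
      have h4 : (0 < A (τ v)) ↔ (0 < A v) := decide_eq_decide.1 h3
      rcases lt_or_gt_of_ne h1 with h5 | h5
      · have h6 := h4.1 (by linarith)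
        linarith
      · have h6 := h4.2 h5
        linarith
  · obtain ⟨x, hx, h1⟩ := B1 i t ht hzt
    obtain ⟨y, hy, h2⟩ := B2 i t ht hzt
    intro h3
    have h4 : (0 < A (hd (e i t))) ↔ (0 < A (tl (e i t))) := decide_eq_decide.1 h3
    rcases dec43 (s i t) hx hy h1 h2 with ⟨h5, h6⟩ | ⟨h5, h6⟩
    · exact h6 (h4.1 h5)
    · exact h5 (h4.2 h6)

end Pool.Agent.TWC
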